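import Pool.Agent.H49.St.Pure

/-!
# Galois correspondence for the structure theorem
-/

set_option autoImplicit false

namespace Pool.Agent.H49.St

open IntermediateField

/-- Almost simplicity is invariant under isomorphism. -/
theorem AlmostSimple.congr {P Q : Type*} [Group P] [Group Q] (e : P ≃* Q) (h : AlmostSimple P) : AlmostSimple Q := by
  obtain ⟨T, hTn, hTs, ⟨x, hx, y, hy, hxy⟩, hc⟩ := h
  refine ⟨T.map e.toMonoidHom, ?_, ?_, ?_, ?_⟩
  · exact hTn.map _ e.surjective
  · have e' : T ≃* (T.map e.toMonoidHom) := e.subgroupMap T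
    have := hTs
    have : Nontrivial (T.map e.toMonoidHom) := e'.symm.toEquiv.nontrivial
    exact IsSimpleGroup.isSimpleGroup_of_surjective e'.toMonoidHom e'.surjective
  · refine ⟨e x, ⟨x, hx, rfl⟩, e y, ⟨y, hy, rfl⟩, ?_⟩
    rw [← map_mul, ← map_mul]
    exact fun h => hxy (e.injective h)
  · rw [eq_bot_iff]
    intro z hz
    rw [Subgroup.mem_centralizer_iff] at hz
    have h1 : e.symm z ∈ Subgroup.centralizer (T : Set P) := by
      rw [Subgroup.mem_centralizer_iff]
      intro t ht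
      have h2 := hz (e t) ⟨t, ht, rfl⟩
      have h3 := congrArg e.symm h2
      simpa using h3
    rw [hc, Subgroup.mem_bot] at h1
    rw [Subgroup.mem_bot]
    have h4 := congrArg e h1
    simpa using h4

section

variable {K : Type*} [Field K] [NumberField K] [IsGalois ℚ K]

theorem finrank_fixedField_eq (H : Subgroup (K ≃ₐ[ℚ] K)) : Module.finrank ℚ (fixedField H) = H.index := by
  rw [finrank_eq_fixingSubgroup_index, fixingSubgroup_fixedField]

/-- The Galois group of the minimal polynomial of a primitive element. -/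
theorem gal_equiv (H G0 : Subgroup (K ≃ₐ[ℚ] K)) (hcov : H ⋖ G0) (γ : K) (h1 : γ ∈ fixedField H)
    (h2 : γ ∉ fixedField G0) :
    Nonempty ((G0 ⧸ (H.subgroupOf G0).normalCore) ≃* (minpoly (fixedField G0) γ).Gal) ∧
      (∀ g ∈ G0, (g ∈ H ↔ g γ = γ)) ∧
      (∀ x : K, x ∈ (minpoly (fixedField G0) γ).rootSet K ↔ ∃ g ∈ G0, x = g γ) := by
  set F := fixedField G0 with hF
  have hint : IsIntegral F γ := Algebra.IsIntegral.isIntegral γ
  have : Fact ((minpoly F γ).map (algebraMap F K)).Splits := ⟨Normal.splits inferInstance γ⟩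
  have hfix : F.fixingSubgroup = G0 := fixingSubgroup_fixedField G0
  -- membership in H
  have hmem : ∀ g ∈ G0, (g ∈ H ↔ g γ = γ) := by
    intro g hg
    constructor
    · intro hgH
      exact h1 ⟨g, hgH⟩
    · intro hgγ
      -- the stabiliser of γ in G0
      let S : Subgroup (K ≃ₐ[ℚ] K) :=
        { carrier := {σ | σ ∈ G0 ∧ σ γ = γ}
          mul_mem' := by
            rintro σ τ ⟨h3, h4⟩ ⟨h5, h6⟩
            refine ⟨G0.mul_mem h3 h5, ?_⟩
            rw [AlgEquiv.mul_apply, h6, h4]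
          one_mem' := ⟨G0.one_mem, rfl⟩
          inv_mem' := by
            rintro σ ⟨h3, h4⟩
            refine ⟨G0.inv_mem h3, ?_⟩
            rw [AlgEquiv.aut_inv, AlgEquiv.symm_apply_eq]
            exact h4.symm }
      have hHS : H ≤ S := fun σ hσ => ⟨hcov.le hσ, h1 ⟨σ, hσ⟩⟩
      have hSG : S ≤ G0 := fun σ hσ => hσ.1
      rcases hcov.eq_or_eq hHS hSG with h | h
      · rw [← h]
        exact ⟨hg, hgγ⟩
      · exfalso
        apply h2
        rw [hF, IntermediateField.mem_fixedField_iff]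
        intro σ hσ
        have : σ ∈ S := by rw [h]; exact hσ
        exact this.2
  -- the homomorphism onto the Galois group of the minimal polynomial
  let e0 : G0 ≃* F.fixingSubgroup := MulEquiv.subgroupCongr hfix.symm
  let ψ : G0 →* (minpoly F γ).Gal :=
    (Polynomial.Gal.restrict (minpoly F γ) K).comp ((fixingSubgroupEquiv F).toMonoidHom.comp e0.toMonoidHom)
  have hψs : Function.Surjective ψ := by
    intro x
    obtain ⟨σ, hσ⟩ := Polynomial.Gal.restrict_surjective (minpoly F γ) K x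
    refine ⟨e0.symm ((fixingSubgroupEquiv F).symm σ), ?_⟩
    change Polynomial.Gal.restrict (minpoly F γ) K ((fixingSubgroupEquiv F) (e0 (e0.symm ((fixingSubgroupEquiv F).symm σ)))) = x
    rw [MulEquiv.apply_symm_apply, MulEquiv.apply_symm_apply, hσ]
  have happ : ∀ (g : G0) (x : K), ((fixingSubgroupEquiv F) (e0 g)) x = (g : K ≃ₐ[ℚ] K) x := fun g x => rfl
  have hroots : ∀ x : K, x ∈ (minpoly F γ).rootSet K ↔ ∃ h : G0, x = (h : K ≃ₐ[ℚ] K) γ := by
    intro x
    rw [Polynomial.mem_rootSet]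
    constructor
    · rintro ⟨_, h3⟩
      have h4 : IsConjRoot F γ x := by
        rw [isConjRoot_iff_aeval_eq_zero hint]
        exact h3
      obtain ⟨σ, hσ⟩ := isConjRoot_iff_exists_algEquiv.mp h4.symm
      refine ⟨e0.symm ((fixingSubgroupEquiv F).symm σ), ?_⟩
      rw [← happ, MulEquiv.apply_symm_apply, MulEquiv.apply_symm_apply, hσ]
    · rintro ⟨h, rfl⟩
      refine ⟨minpoly.ne_zero hint, ?_⟩
      rw [← happ, Polynomial.aeval_algHom_apply]
      simp
  have hker : ψ.ker = (H.subgroupOf G0).normalCore := by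
    ext g
    have h5 : g ∈ ψ.ker ↔ ∀ h : G0, (g : K ≃ₐ[ℚ] K) ((h : K ≃ₐ[ℚ] K) γ) = (h : K ≃ₐ[ℚ] K) γ := by
      rw [MonoidHom.mem_ker]
      constructor
      · intro h6 h
        have h7 : (h : K ≃ₐ[ℚ] K) γ ∈ (minpoly F γ).rootSet K := (hroots _).mpr ⟨h, rfl⟩
        have h8 := Polynomial.Gal.restrict_smul (p := minpoly F γ) (E := K) ((fixingSubgroupEquiv F) (e0 g))
          ⟨(h : K ≃ₐ[ℚ] K) γ, h7⟩
        have h9 : Polynomial.Gal.restrict (minpoly F γ) K ((fixingSubgroupEquiv F) (e0 g)) = 1 := h6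
        rw [h9, one_smul, happ] at h8
        exact h8.symm
      · intro h6
        apply Polynomial.Gal.galActionHom_injective (minpoly F γ) K
        rw [map_one]
        ext x
        obtain ⟨h, hx⟩ := (hroots x).mp x.2
        change ((ψ g • x : (minpoly F γ).rootSet K) : K) = x
        have h8 := Polynomial.Gal.restrict_smul (p := minpoly F γ) (E := K) ((fixingSubgroupEquiv F) (e0 g)) x
        have h9 : ψ g = Polynomial.Gal.restrict (minpoly F γ) K ((fixingSubgroupEquiv F) (e0 g)) := rfl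
        rw [h9, h8, happ, hx]
        exact h6 h
    rw [h5]
    have h10 : g ∈ (H.subgroupOf G0).normalCore ↔ ∀ b : G0, b * g * b⁻¹ ∈ H.subgroupOf G0 := Iff.rfl
    rw [h10]
    have h11 : ∀ b : G0, b * g * b⁻¹ ∈ H.subgroupOf G0 ↔
        (g : K ≃ₐ[ℚ] K) (((b⁻¹ : G0) : K ≃ₐ[ℚ] K) γ) = ((b⁻¹ : G0) : K ≃ₐ[ℚ] K) γ := by
      intro b
      rw [Subgroup.mem_subgroupOf, hmem _ (b * g * b⁻¹ : G0).2]
      rw [Subgroup.coe_mul, Subgroup.coe_mul, AlgEquiv.mul_apply, AlgEquiv.mul_apply, Subgroup.coe_inv]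
      constructor
      · intro h12
        have h13 := congrArg ((b : K ≃ₐ[ℚ] K)⁻¹ : K ≃ₐ[ℚ] K) h12
        rwa [← AlgEquiv.mul_apply, inv_mul_cancel, AlgEquiv.one_apply] at h13
      · intro h12
        rw [h12, ← AlgEquiv.mul_apply, mul_inv_cancel, AlgEquiv.one_apply]
    constructor
    · intro h6 b
      exact (h11 b).mpr (h6 b⁻¹)
    · intro h6 h
      have := (h11 h⁻¹).mp (h6 h⁻¹)
      rwa [inv_inv] at this
  refine ⟨⟨(QuotientGroup.quotientMulEquivOfEq hker.symm).trans
    (QuotientGroup.quotientKerEquivOfSurjective ψ hψs)⟩, hmem, ?_⟩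
  intro x
  rw [hroots]
  constructor
  · rintro ⟨h, rfl⟩
    exact ⟨h, h.2, rfl⟩
  · rintro ⟨g, hg, rfl⟩
    exact ⟨⟨g, hg⟩, rfl⟩

end

end Pool.Agent.H49.St
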