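import Mathlib

/-!
# More numerical inequalities
-/

set_option autoImplicit false

namespace Pool.Agent.H49.St

open Filter

theorem numerics2 {ε1 A : ℝ} (h1 : 0 < ε1) (h1' : ε1 ≤ 1 / 12) (r : ℕ) (hr : A + 2 ≤ r) :
    ∃ n2 : ℕ, ∀ n : ℕ, n2 ≤ n → 1 ≤ n ∧ (3 : ℝ) ^ (r * r) < (n : ℝ) ^ (1 - ε1) ∧
      (n : ℝ) ^ A * (2 ^ r * (n : ℝ) ^ ε1) ≤ (n : ℝ) ^ ((r : ℝ) - 1 / 2) ∧
      4 * (n : ℝ) ^ (2 - 2 * ε1) ≤ (n : ℝ) ^ (2 - ε1) := by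
  have e1 := (tendsto_rpow_atTop (y := 1 - ε1) (by linarith)).eventually_gt_atTop ((3 : ℝ) ^ (r * r))
  have e2 := (tendsto_rpow_atTop (y := (1 : ℝ)) (by norm_num)).eventually_ge_atTop ((2 : ℝ) ^ r)
  have e3 := (tendsto_rpow_atTop (y := ε1) h1).eventually_ge_atTop (4 : ℝ)
  have e := e1.and (e2.and (e3.and (eventually_ge_atTop (1 : ℝ))))
  have e' := tendsto_natCast_atTop_atTop.eventually e
  obtain ⟨n0, hn0⟩ := eventually_atTop.mp e'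
  refine ⟨n0, ?_⟩
  intro n hn
  obtain ⟨f1, f2, f3, f4⟩ := hn0 n hn
  have hn1 : 1 ≤ n := by exact_mod_cast f4
  have hpos : (0 : ℝ) < n := by linarith
  refine ⟨hn1, f1, ?_, ?_⟩
  · have g1 : (n : ℝ) ^ A * (2 ^ r * (n : ℝ) ^ ε1) ≤ (n : ℝ) ^ A * ((n : ℝ) ^ (1 : ℝ) * (n : ℝ) ^ ε1) := by
      gcongr
    refine g1.trans ?_
    rw [← Real.rpow_add hpos, ← Real.rpow_add hpos]
    exact Real.rpow_le_rpow_of_exponent_le f4 (by linarith)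
  · have g1 : (n : ℝ) ^ (2 - ε1) = (n : ℝ) ^ ε1 * (n : ℝ) ^ (2 - 2 * ε1) := by
      rw [← Real.rpow_add hpos]
      congr 1
      ring
    rw [g1]
    exact mul_le_mul_of_nonneg_right f3 (by positivity)

end Pool.Agent.H49.St
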