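import Pool.Agent.H49.St.Pure2
import Pool.Agent.H49.St.Gal
import Pool.Agent.H49.St.Num2
import Pool.Agent.H95.Leh.FWide
import Pool.Agent.H95.Leh.FRed
import Pool.Agent.H95.Leh.FNorth
import Pool.Agent.H95.Leh.FKron

/-!
# The structure theorem for small Mahler measures, from Theorem W
-/

set_option autoImplicit false

namespace Pool.Agent.H49.St

open Polynomial IntermediateField Pool.H95.Leh

section

variable {K : Type*} [Field K] [NumberField K] [IsGalois ℚ K]

theorem fixingSubgroup_adjoin_singleton (β : K) :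
    (IntermediateField.adjoin ℚ {β}).fixingSubgroup = MulAction.stabilizer (K ≃ₐ[ℚ] K) β := by
  ext g
  rw [MulAction.mem_stabilizer_iff, mem_fix_adjoin]
  simp

/-- An irreducible polynomial with root zero has measure one. -/
theorem mahler_of_root_zero {f : ℤ[X]} (hf : Irreducible f) (h0 : aeval (0 : K) f = 0) :
    (f.map (Int.castRingHom ℂ)).mahlerMeasure = 1 := by
  have h1 : f.coeff 0 = 0 := by
    rw [← Polynomial.coeff_zero_eq_aeval_zero'] at h0
    have : algebraMap ℤ K (f.coeff 0) = 0 := h0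
    simpa using this
  obtain ⟨g, hg⟩ := Polynomial.X_dvd_iff.mpr h1
  rw [hg] at hf
  rcases hf.isUnit_or_isUnit rfl with h | h
  · exact absurd h Polynomial.not_isUnit_X
  · obtain ⟨u, hu, hug⟩ := Polynomial.isUnit_iff.mp h
    have hX : (Polynomial.X : ℂ[X]).mahlerMeasure = 1 := by
      have := Polynomial.mahlerMeasure_X_sub_C (0 : ℂ)
      simpa using this
    rw [hg, ← hug, Polynomial.map_mul, Polynomial.map_X, Polynomial.map_C, Polynomial.mahlerMeasure_mul,
      hX, Polynomial.mahlerMeasure_const, one_mul]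
    rcases Int.isUnit_iff.mp hu with h2 | h2 <;> simp [h2]

end

/-- The main theorem, from Theorem W. -/
theorem final_of_W (hW : ∀ (r : ℕ) (E : ℝ), 0 < E → E < r → H25.TheoremW r E) (ε A : ℝ) (hε : 0 < ε) :
    ∃ S : Set ℝ, S.Finite ∧ ∀ f : ℤ[X], Irreducible f → 1 < (f.map (Int.castRingHom ℂ)).mahlerMeasure →
      (f.map (Int.castRingHom ℂ)).mahlerMeasure < 2 → (f.map (Int.castRingHom ℂ)).mahlerMeasure ∉ S →
      ∀ (K : Type) [Field K] [NumberField K] [IsGalois ℚ K] (α : K), aeval α f = 0 →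
      ∃ β ∈ IntermediateField.adjoin ℚ {α}, IsIntegral ℤ β ∧
        ((minpoly ℤ β).map (Int.castRingHom ℂ)).mahlerMeasure = (f.map (Int.castRingHom ℂ)).mahlerMeasure ∧
        ∃ F L : IntermediateField ℚ K, F < L ∧ L ≤ IntermediateField.adjoin ℚ {β} ∧
          Module.finrank ℚ (IntermediateField.adjoin ℚ {β}) ≤ 2 * Module.finrank ℚ L ∧
          (Module.finrank ℚ F : ℝ) ≤ (Module.finrank ℚ (IntermediateField.adjoin ℚ {β}) : ℝ) ^ ε ∧
          (∀ M : IntermediateField ℚ K, M ≤ IntermediateField.adjoin ℚ {β} → ¬ L ≤ M →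
            (Module.finrank ℚ M : ℝ) ≤ (Module.finrank ℚ (IntermediateField.adjoin ℚ {β}) : ℝ) ^ ε) ∧
          (∀ M : IntermediateField ℚ K, F ≤ M → M ≤ L → M = F ∨ M = L) ∧
          ∀ γ ∈ L, γ ∉ F → AlmostSimple (minpoly F γ).Gal ∧
            (Module.finrank ℚ (IntermediateField.adjoin ℚ {β}) : ℝ) ^ A ≤ Nat.card (minpoly F γ).Gal ∧
            ∀ γ' ∈ (minpoly F γ).rootSet K, γ' ≠ γ →
              (Module.finrank ℚ (IntermediateField.adjoin ℚ {β}) : ℝ) ^ (2 - ε) ≤
                Module.finrank ℚ (L ⊔ IntermediateField.adjoin ℚ {γ'} : IntermediateField ℚ K) := by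
  -- parameters
  set ε1 : ℝ := min (ε / 2) (1 / 12) with hε1def
  have hε1 : 0 < ε1 := lt_min (by linarith) (by norm_num)
  have hε1' : ε1 ≤ 1 / 12 := min_le_right _ _
  have hε12 : 2 * ε1 ≤ ε := by
    have := min_le_left (ε / 2) (1 / 12)
    rw [← hε1def] at this
    linarith
  set r : ℕ := ⌈A⌉₊ + 2 with hr
  have hrA : A + 2 ≤ r := by
    rw [hr]
    push_cast
    have := Nat.le_ceil A
    linarith
  have hr2 : (2 : ℝ) ≤ r := by rw [hr]; push_cast; have : (0 : ℝ) ≤ ⌈A⌉₊ := by positivity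
                               linarith
  obtain ⟨n1, hn1⟩ := structure_pure hε1 hε1'
  obtain ⟨nW2, hW2⟩ := wide_of_W 2 (2 - ε1) (hW 2 (2 - ε1) (by linarith) (by push_cast; linarith))
  obtain ⟨nW4, hW4⟩ := wide_of_W 4 (7 / 2) (hW 4 (7 / 2) (by norm_num) (by norm_num))
  obtain ⟨nWr, hWr⟩ := wide_of_W r ((r : ℝ) - 1 / 2) (hW r _ (by linarith) (by linarith))
  obtain ⟨n2, hn2⟩ := numerics2 (A := A) hε1 hε1' r hrA
  set N : ℕ := max n1 (max nW2 (max nW4 (max nWr n2))) with hN
  refine ⟨(fun g : ℤ[X] => (g.map (Int.castRingHom ℂ)).mahlerMeasure) ''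
    {g : ℤ[X] | g.natDegree ≤ N ∧ (g.map (Int.castRingHom ℂ)).mahlerMeasure ≤ (2 : NNReal)},
    (Polynomial.finite_mahlerMeasure_le N 2).image _, ?_⟩
  intro f hf hM1 hMc hMS K _ _ _ α hα
  have hα0 : α ≠ 0 := by
    rintro rfl
    rw [mahler_of_root_zero hf hα] at hM1
    exact lt_irrefl _ hM1
  obtain ⟨hαU, hαM⟩ : IsU α ∧ (f.map (Int.castRingHom ℂ)).mahlerMeasure = mm α := by
    rcases poly_cases f hf α hα hα0 with h | h
    · exact absurd hMc (not_lt.mpr h)
    · exact h
  obtain ⟨β, k, hk, hβα, hβU, hβR, _, hβM⟩ := exists_red α hαU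
  have hMβ : ((minpoly ℤ β).map (Int.castRingHom ℂ)).mahlerMeasure = (f.map (Int.castRingHom ℂ)).mahlerMeasure := by
    rw [hαM, ← hβM]
    rfl
  refine ⟨β, hβα, hβU.int, hMβ, ?_⟩
  -- degree
  set n : ℕ := Module.finrank ℚ (IntermediateField.adjoin ℚ {β}) with hn
  have hdeg : (minpoly ℚ β).natDegree = n :=
    (IntermediateField.adjoin.finrank (IsIntegral.of_finite ℚ β)).symm
  have hdegZ : (minpoly ℤ β).natDegree = n := by
    rw [← hdeg, minpoly.isIntegrallyClosed_eq_field_fractions' ℚ hβU.int]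
    exact ((minpoly.monic hβU.int).natDegree_map _).symm
  have hNn : N < n := by
    by_contra hcon
    push Not at hcon
    apply hMS
    refine ⟨minpoly ℤ β, ⟨by rw [hdegZ]; exact hcon, ?_⟩, hMβ⟩
    rw [hMβ]
    exact hMc.le
  have hN1 : n1 ≤ n := le_trans (le_max_left _ _) hNn.le
  have hN2 : nW2 ≤ n := le_trans (le_trans (le_max_left _ _) (le_max_right _ _)) hNn.le
  have hN4 : nW4 ≤ n := le_trans (le_trans (le_trans (le_max_left _ _) (le_max_right _ _)) (le_max_right _ _)) hNn.le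
  have hNr : nWr ≤ n := le_trans (le_trans (le_trans (le_trans (le_max_left _ _) (le_max_right _ _))
    (le_max_right _ _)) (le_max_right _ _)) hNn.le
  have hNn2 : n2 ≤ n := le_trans (le_trans (le_trans (le_trans (le_max_right _ _) (le_max_right _ _))
    (le_max_right _ _)) (le_max_right _ _)) hNn.le
  obtain ⟨g1, g2, g3, g4⟩ := hn2 n hNn2
  have hnpos : (0 : ℝ) < n := by exact_mod_cast g1
  have hn1R : (1 : ℝ) ≤ n := by exact_mod_cast g1
  -- the vector
  let ι : K →+* ℂ := Classical.arbitrary (K →+* ℂ)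
  set a := Lg ι β with ha
  have hmm : mm β ≤ Real.exp 1 := by
    have h1 : mm β < 2 := by
      rw [hβM, ← hαM]
      exact hMc
    have h2 := Real.add_one_le_exp (1 : ℝ)
    linarith
  have ha0 : a ≠ 0 := by
    intro h
    have h1 := mm_of_tors β (tors_of_Lg ι hβU h)
    rw [hβM, ← hαM] at h1
    linarith
  have hstab : stab (act K) a = (IntermediateField.adjoin ℚ {β}).fixingSubgroup := by
    rw [fixingSubgroup_adjoin_singleton]
    exact stab_Lg ι hβU hβR 1
  have hidx : (stab (act K) a).index = n := by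
    rw [stab_index_Lg ι hβU hβR, hdeg]
  have hw2 := hW2 K ι β hβU hβR hmm (by rw [hdeg]; exact hN2)
  have hw4 := hW4 K ι β hβU hβR hmm (by rw [hdeg]; exact hN4)
  have hwr := hWr K ι β hβU hβR hmm (by rw [hdeg]; exact hNr)
  have H2 : ∀ s, LinearIndependent ℚ ![a, act K s a] →
      ((stab (act K) a).index : ℝ) ^ (2 - ε1) < ((stab (act K) a ⊓ stab (act K) (act K s a)).index : ℝ) := by
    intro s hs
    have h1 := hw2 ![a, act K s a] (by
      intro i
      fin_cases i
      · exact ⟨1, by rw [map_one]; rfl⟩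
      · exact ⟨s, rfl⟩) hs
    have h2 : (⨅ i, stab (act K) ((![a, act K s a] : Fin 2 → _) i)) = stab (act K) a ⊓ stab (act K) (act K s a) := by
      ext x
      rw [Subgroup.mem_iInf, Subgroup.mem_inf, Fin.forall_fin_two]
      rfl
    rw [h2] at h1
    exact h1
  have H4 : ∀ s t u, LinearIndependent ℚ ![a, act K s a, act K t a, act K u a] →
      ((stab (act K) a).index : ℝ) ^ (7 / 2 : ℝ) <
        ((stab (act K) a ⊓ stab (act K) (act K s a) ⊓ stab (act K) (act K t a) ⊓ stab (act K) (act K u a)).index : ℝ) := by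
    intro s t u hs
    have h1 := hw4 ![a, act K s a, act K t a, act K u a] (by
      intro i
      fin_cases i
      · exact ⟨1, by rw [map_one]; rfl⟩
      · exact ⟨s, rfl⟩
      · exact ⟨t, rfl⟩
      · exact ⟨u, rfl⟩) hs
    have h2 : (⨅ i, stab (act K) ((![a, act K s a, act K t a, act K u a] : Fin 4 → _) i)) =
        stab (act K) a ⊓ stab (act K) (act K s a) ⊓ stab (act K) (act K t a) ⊓ stab (act K) (act K u a) := by
      ext x
      rw [Subgroup.mem_iInf, Subgroup.mem_inf, Subgroup.mem_inf, Subgroup.mem_inf]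
      constructor
      · intro h
        exact ⟨⟨⟨h 0, h 1⟩, h 2⟩, h 3⟩
      · rintro ⟨⟨⟨h0, h1⟩, h2⟩, h3⟩ i
        fin_cases i
        · exact h0
        · exact h1
        · exact h2
        · exact h3
    rw [h2] at h1
    exact h1
  obtain ⟨hJ, G0, hcov, hG0i, hAS⟩ := hn1 (K ≃ₐ[ℚ] K) ((K ≃ₐ[ℚ] K) → ℝ) (act K) a ha0 (by rw [hidx]; exact hN1) H2 H4
  rw [hidx] at hG0i hJ
  set H := lstab (act K) a with hH
  have hLfix : (fixedField H).fixingSubgroup = H := fixingSubgroup_fixedField H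
  have hFfix : (fixedField G0).fixingSubgroup = G0 := fixingSubgroup_fixedField G0
  have hβfix : fixedField (IntermediateField.adjoin ℚ {β}).fixingSubgroup = IntermediateField.adjoin ℚ {β} :=
    IsGalois.fixedField_fixingSubgroup _
  have hanti : ∀ {A B : Subgroup (K ≃ₐ[ℚ] K)}, A ≤ B → fixedField B ≤ fixedField A := by
    intro A B hAB x hx σ
    exact hx ⟨σ, hAB σ.2⟩
  have hanti' : ∀ {A B : IntermediateField ℚ K}, A ≤ B → B.fixingSubgroup ≤ A.fixingSubgroup := by
    intro A B hAB σ hσ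
    rw [IntermediateField.mem_fixingSubgroup_iff] at hσ ⊢
    exact fun x hx => hσ x (hAB hx)
  have hεle : (n : ℝ) ^ ε1 ≤ (n : ℝ) ^ ε := Real.rpow_le_rpow_of_exponent_le hn1R (by linarith)
  refine ⟨fixedField G0, fixedField H, ?_, ?_, ?_, ?_, ?_, ?_, ?_⟩
  · refine lt_of_le_of_ne (hanti hcov.le) ?_
    intro h
    have h1 := congrArg IntermediateField.fixingSubgroup h
    rw [hLfix, hFfix] at h1
    exact hcov.lt.ne h1.symm
  · rw [← hβfix, ← hstab]
    exact hanti stab_le_lstab
  · rw [finrank_fixedField_eq, ← hidx]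
    exact index_stab_le (act K) a
  · rw [finrank_fixedField_eq]
    exact hG0i.le.trans hεle
  · intro M hM hLM
    have h1 : stab (act K) a ≤ M.fixingSubgroup := by
      rw [hstab]
      exact hanti' hM
    have h2 : ¬ M.fixingSubgroup ≤ H := by
      intro h
      apply hLM
      have := hanti h
      rwa [IsGalois.fixedField_fixingSubgroup] at this
    have h3 := hJ M.fixingSubgroup h1 h2
    rw [finrank_eq_fixingSubgroup_index]
    exact h3.le.trans hεle
  · intro M hFM hML
    have h1 : H ≤ M.fixingSubgroup := by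
      have := hanti' hML
      rwa [hLfix] at this
    have h2 : M.fixingSubgroup ≤ G0 := by
      have := hanti' hFM
      rwa [hFfix] at this
    rcases hcov.eq_or_eq h1 h2 with h | h
    · right
      rw [← h, IsGalois.fixedField_fixingSubgroup]
    · left
      rw [← h, IsGalois.fixedField_fixingSubgroup]
  · intro γ hγL hγF
    obtain ⟨⟨e⟩, hmemH, hroots⟩ := gal_equiv H G0 hcov γ hγL hγF
    refine ⟨hAS.congr e, ?_, ?_⟩
    · -- order
      have hcard : Nat.card (minpoly (fixedField G0) γ).Gal = Nat.card (G0 ⧸ (H.subgroupOf G0).normalCore) :=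
        (Nat.card_congr e.toEquiv).symm
      rw [hcard]
      have h1 := order_pure (act K) a G0 hcov.le r ((r : ℝ) - 1 / 2) (by
        intro g hg
        exact hwr (fun i => act K (g i) a) (fun i => ⟨g i, rfl⟩) hg)
      rw [hidx] at h1
      rcases h1 with h1 | h1
      · exfalso
        have h2 : (n : ℝ) ≤ 3 ^ (r * r) * (G0.index : ℝ) := by exact_mod_cast h1
        have h3 : (n : ℝ) = (n : ℝ) ^ (1 - ε1) * (n : ℝ) ^ ε1 := by
          rw [← Real.rpow_add hnpos]; simp
        have h4 : (0 : ℝ) < (n : ℝ) ^ ε1 := Real.rpow_pos_of_pos hnpos _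
        have h5 : (0 : ℝ) ≤ G0.index := by positivity
        have h6 : (3 : ℝ) ^ (r * r) * (G0.index : ℝ) ≤ (3 : ℝ) ^ (r * r) * (n : ℝ) ^ ε1 :=
          mul_le_mul_of_nonneg_left hG0i.le (by positivity)
        have h7 : (3 : ℝ) ^ (r * r) * (n : ℝ) ^ ε1 < (n : ℝ) ^ (1 - ε1) * (n : ℝ) ^ ε1 :=
          mul_lt_mul_of_pos_right g2 h4
        rw [← h3] at h7
        linarith
      · set C : ℝ := (Nat.card (G0 ⧸ (H.subgroupOf G0).normalCore) : ℝ) with hC
        have hC0 : 0 ≤ C := by positivity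
        have h2 : (2 : ℝ) ^ r * C * (G0.index : ℝ) ≤ C * (2 ^ r * (n : ℝ) ^ ε1) := by
          have : (2 : ℝ) ^ r * C * (G0.index : ℝ) ≤ (2 : ℝ) ^ r * C * (n : ℝ) ^ ε1 :=
            mul_le_mul_of_nonneg_left hG0i.le (by positivity)
          linarith
        have h3 : (n : ℝ) ^ A * (2 ^ r * (n : ℝ) ^ ε1) < C * (2 ^ r * (n : ℝ) ^ ε1) := by linarith
        exact (lt_of_mul_lt_mul_right h3 (by positivity)).le
    · -- subdegrees
      intro γ' hγ' hne
      obtain ⟨g, hg, rfl⟩ := (hroots γ').mp hγ'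
      have hgH : g ∉ H := fun h => hne ((hmemH g hg).mp h)
      have h1 := subdegree_pure (act K) ha0 ((n : ℝ) ^ (2 - ε1)) (by
        intro s hs
        have := H2 s hs
        rwa [hidx] at this) g hgH
      rw [← hH] at h1
      have h2 : (fixedField H ⊔ IntermediateField.adjoin ℚ {g γ}).fixingSubgroup ≤ H ⊓ cj g H := by
        rw [IntermediateField.fixingSubgroup_sup, hLfix, fixingSubgroup_adjoin_singleton]
        rintro σ ⟨h3, h4⟩
        refine ⟨h3, ?_⟩
        change σ ∈ cj g H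
        rw [mem_cj]
        have h5 : σ (g γ) = g γ := h4
        have h6 : g⁻¹ * σ * g ∈ G0 := G0.mul_mem (G0.mul_mem (G0.inv_mem hg) (hcov.le h3)) hg
        rw [hmemH _ h6]
        change g⁻¹ (σ (g γ)) = γ
        rw [h5]
        change (g⁻¹ * g) γ = γ
        rw [inv_mul_cancel]
        rfl
      have h7 : (H ⊓ cj g H).index ≤ (fixedField H ⊔ IntermediateField.adjoin ℚ {g γ}).fixingSubgroup.index :=
        Nat.le_of_dvd (Nat.pos_of_ne_zero Subgroup.index_ne_zero_of_finite) (Subgroup.index_dvd_of_le h2)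
      have h8 : Module.finrank ℚ (fixedField H ⊔ IntermediateField.adjoin ℚ {g γ} : IntermediateField ℚ K) =
          (fixedField H ⊔ IntermediateField.adjoin ℚ {g γ}).fixingSubgroup.index :=
        finrank_eq_fixingSubgroup_index _ _
      rw [h8]
      have h9 : ((H ⊓ cj g H).index : ℝ) ≤
          ((fixedField H ⊔ IntermediateField.adjoin ℚ {g γ}).fixingSubgroup.index : ℝ) := by exact_mod_cast h7
      have h10 : (n : ℝ) ^ (2 - ε) ≤ (n : ℝ) ^ (2 - 2 * ε1) :=
        Real.rpow_le_rpow_of_exponent_le hn1R (by linarith)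
      linarith

end Pool.Agent.H49.St
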