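import Pool.Agent.H49.St.Order

/-!
# The structure theorem, pure form with the order and the subdegrees
-/

set_option autoImplicit false

namespace Pool.Agent.H49.St

variable {G V : Type*} [Group G] [Finite G] [AddCommGroup V] [Module ℚ V]

/-- Order of the permutation group: `n ^ E < 2 ^ r * [G : G0] * |P|` or the degree is bounded. -/
theorem order_pure (ρ : G →* Module.End ℚ V) (a : V) (G0 : Subgroup G) (hle : lstab ρ a ≤ G0) (r : ℕ) (E : ℝ)
    (hW : ∀ g : Fin r → G, LinearIndependent ℚ (fun i => ρ (g i) a) →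
      ((stab ρ a).index : ℝ) ^ E < ((⨅ i, stab ρ (ρ (g i) a)).index : ℝ)) :
    (stab ρ a).index ≤ 3 ^ (r * r) * G0.index ∨
      ((stab ρ a).index : ℝ) ^ E <
        2 ^ r * (Nat.card (G0 ⧸ ((lstab ρ a).subgroupOf G0).normalCore) : ℝ) * G0.index := by
  set n := (stab ρ a).index with hn
  set ρ0 : G0 →* Module.End ℚ V := ρ.comp G0.subtype with hρ0
  have hG00 : 0 < G0.index := Nat.pos_of_ne_zero Subgroup.index_ne_zero_of_finite
  have hG0R : (0 : ℝ) < G0.index := by exact_mod_cast hG00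
  have hst : ∀ v, stab ρ0 v = (stab ρ v).subgroupOf G0 := fun v => by ext g; rfl
  have hlst : lstab ρ0 a = (lstab ρ a).subgroupOf G0 := by ext g; rfl
  have key := order_alternative ρ0 a r ((n : ℝ) ^ E / G0.index) ?_
  · rcases key with h | h
    · left
      have h1 : (stab ρ0 a).index * G0.index = n := by
        rw [hst, hn]
        exact Subgroup.relIndex_mul_index (stab_le_lstab.trans hle)
      rw [← h1]
      exact Nat.mul_le_mul_right _ h
    · right
      rw [div_lt_iff₀ hG0R] at h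
      exact h
  · intro g hli
    have h1 := hW (fun i => (g i : G)) hli
    rw [div_lt_iff₀ hG0R]
    refine lt_of_lt_of_le h1 ?_
    have h2 : (⨅ i, stab ρ (ρ (g i : G) a)).index ≤ (⨅ i, stab ρ0 (ρ0 (g i) a)).index * G0.index := by
      have h3 : (⨅ i, stab ρ0 (ρ0 (g i) a)) = (⨅ i, stab ρ (ρ (g i : G) a)).subgroupOf G0 := by
        ext x
        rw [Subgroup.mem_iInf, Subgroup.mem_subgroupOf, Subgroup.mem_iInf]
        rfl
      rw [h3]
      have h4 : (⨅ i, stab ρ (ρ (g i : G) a)).index ≤ ((⨅ i, stab ρ (ρ (g i : G) a)) ⊓ G0).index :=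
        Nat.le_of_dvd (Nat.pos_of_ne_zero Subgroup.index_ne_zero_of_finite) (Subgroup.index_dvd_of_le inf_le_left)
      have h5 : ((⨅ i, stab ρ (ρ (g i : G) a)) ⊓ G0).relIndex G0 * G0.index =
          ((⨅ i, stab ρ (ρ (g i : G) a)) ⊓ G0).index := Subgroup.relIndex_mul_index inf_le_right
      rw [Subgroup.inf_relIndex_right] at h5
      rw [← h5] at h4
      exact h4
    exact_mod_cast h2

/-- Subdegrees. -/
theorem subdegree_pure (ρ : G →* Module.End ℚ V) {a : V} (ha : a ≠ 0) (X : ℝ)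
    (H2 : ∀ s, LinearIndependent ℚ ![a, ρ s a] → X < ((stab ρ a ⊓ stab ρ (ρ s a)).index : ℝ))
    (s : G) (hs : s ∉ lstab ρ a) : X < 4 * ((lstab ρ a ⊓ cj s (lstab ρ a)).index : ℝ) := by
  refine lt_of_lt_of_le (H2 s (li_pair ρ ha hs)) ?_
  exact_mod_cast index_pair_le ρ a s

end Pool.Agent.H49.St
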