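import Pool.Agent.H49.St.Defs

/-!
# Counting pairs and quadruples of points

`P` finite, `S`, `P1`, `N` subgroups, `y0 = S` in `P ⧸ S`; `conj s S = s S s⁻¹` is the stabiliser of `s y0`.

`count2`: `P1` normalises `N`, `s ∈ N`: `[P : S ⊓ sSs⁻¹] ≤ [P : P1] [P : S] [N : N ⊓ S]`.
Proof. `[P : S ⊓ sSs⁻¹] ≤ [P : S ⊓ sSs⁻¹ ⊓ P1] = [P : P1] [P1 : P1 ⊓ S] [P1 ⊓ S : P1 ⊓ S ⊓ sSs⁻¹]`. The second factor is `≤ [P : S]`. The third is the size of the orbit of `s y0` under `K = P1 ⊓ S`: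
`k s y0 = (k s k⁻¹) k y0 = (k s k⁻¹) y0 ∈ N y0`, so it is at most `|N y0| = [N : N ⊓ S] = S.relIndex N`.

`count4`: `P1` normalises `N1` and `N2`, which commute elementwise, `s ∈ N1`, `t ∈ N2`: `[P : S ⊓ sSs⁻¹ ⊓ tSt⁻¹ ⊓ stS(st)⁻¹] ≤ [P : P1] [P : S]^3`.
Proof. Every `g ∈ P1 ⊓ S ⊓ sSs⁻¹ ⊓ tSt⁻¹` lies in `stS(st)⁻¹`: `g s g⁻¹ = s h1`, `h1 ∈ N1`, and `h1 y0 = s⁻¹ g s g⁻¹ y0 = s⁻¹ g s y0 = y0` (`g` fixes `y0` and `s y0`), i.e. `h1 ∈ S`; in the same way `g t g⁻¹ = t h2`, `h2 ∈ N2 ⊓ S`.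
Then `g s t y0 = (g s g⁻¹)(g t g⁻¹) g y0 = s h1 t h2 y0 = s t h1 h2 y0 = s t y0`. So the index is `≤ [P : P1 ⊓ S ⊓ sSs⁻¹ ⊓ tSt⁻¹] ≤ [P:P1] [P:S]^3` (all conjugates of `S` have index `[P:S]`).
-/

set_option autoImplicit false

namespace Pool.Agent.H49.St

/-- The conjugate `s S s⁻¹`. -/
def cj {P : Type*} [Group P] (s : P) (S : Subgroup P) : Subgroup P := S.map (MulAut.conj s).toMonoidHom

theorem mem_cj {P : Type*} [Group P] {s : P} {S : Subgroup P} {g : P} : g ∈ cj s S ↔ s⁻¹ * g * s ∈ S := by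
  simp only [cj, Subgroup.mem_map, MulEquiv.coe_toMonoidHom, MulAut.conj_apply]
  constructor
  · rintro ⟨x, hx, rfl⟩
    simpa [mul_assoc] using hx
  · intro h
    exact ⟨_, h, by simp [mul_assoc]⟩

theorem count_index_le {P : Type*} [Group P] [Finite P] {A B : Subgroup P} (h : A ≤ B) :
    B.index ≤ A.index :=
  Nat.le_of_dvd (Nat.pos_of_ne_zero Subgroup.index_ne_zero_of_finite) (Subgroup.index_dvd_of_le h)

theorem count_index_cj {P : Type*} [Group P] (s : P) (S : Subgroup P) :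
    (cj s S).index = S.index :=
  Subgroup.index_map_equiv S (MulAut.conj s)

theorem count_orbit {P : Type*} [Group P] [Finite P] {S P1 N : Subgroup P}
    (hN : ∀ g ∈ P1, ∀ x ∈ N, g * x * g⁻¹ ∈ N) {s : P} (hs : s ∈ N) :
    (cj s S).relIndex (P1 ⊓ S) ≤ S.relIndex N := by
  unfold Subgroup.relIndex Subgroup.index
  let f : (↥(P1 ⊓ S) ⧸ (cj s S).subgroupOf (P1 ⊓ S)) → (↥N ⧸ S.subgroupOf N) := fun q =>
    QuotientGroup.mk (⟨(q.out : P) * s * (q.out : P)⁻¹, hN _ (Subgroup.mem_inf.1 q.out.2).1 s hs⟩ : ↥N)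
  refine Nat.card_le_card_of_injective f ?_
  intro q1 q2 h
  have h' := QuotientGroup.eq.1 h
  rw [Subgroup.mem_subgroupOf] at h'
  have hk1 := (Subgroup.mem_inf.1 q1.out.2).2
  have hk2 := (Subgroup.mem_inf.1 q2.out.2).2
  have h2 : s⁻¹ * ((q1.out : P)⁻¹ * (q2.out : P)) * s ∈ S := by
    have := S.mul_mem (S.mul_mem (S.inv_mem hk1) h') hk2
    simpa [mul_assoc] using this
  have h3 : (QuotientGroup.mk q1.out : ↥(P1 ⊓ S) ⧸ (cj s S).subgroupOf (P1 ⊓ S))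
      = QuotientGroup.mk q2.out := by
    rw [QuotientGroup.eq, Subgroup.mem_subgroupOf]
    exact mem_cj.2 h2
  rw [QuotientGroup.out_eq', QuotientGroup.out_eq'] at h3
  exact h3

theorem count2 {P : Type*} [Group P] [Finite P] {S P1 N : Subgroup P}
    (hN : ∀ g ∈ P1, ∀ x ∈ N, g * x * g⁻¹ ∈ N) {s : P} (hs : s ∈ N) :
    (S ⊓ cj s S).index ≤ P1.index * S.index * S.relIndex N := by
  have h1 : (S ⊓ cj s S).index ≤ ((P1 ⊓ S) ⊓ cj s S).index := by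
    refine count_index_le ?_
    exact inf_le_inf_right _ inf_le_right
  have h2 : ((P1 ⊓ S) ⊓ cj s S).index
      = ((P1 ⊓ S) ⊓ cj s S).relIndex (P1 ⊓ S) * (P1 ⊓ S).index :=
    (Subgroup.relIndex_mul_index inf_le_left).symm
  have h3 : ((P1 ⊓ S) ⊓ cj s S).relIndex (P1 ⊓ S) ≤ S.relIndex N := by
    rw [Subgroup.inf_relIndex_left]
    exact count_orbit hN hs
  have h4 : (P1 ⊓ S).index ≤ P1.index * S.index := Subgroup.index_inf_le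
  calc (S ⊓ cj s S).index ≤ ((P1 ⊓ S) ⊓ cj s S).index := h1
    _ = ((P1 ⊓ S) ⊓ cj s S).relIndex (P1 ⊓ S) * (P1 ⊓ S).index := h2
    _ ≤ S.relIndex N * (P1.index * S.index) := Nat.mul_le_mul h3 h4
    _ = P1.index * S.index * S.relIndex N := by ring

theorem count4 {P : Type*} [Group P] [Finite P] {S P1 N1 N2 : Subgroup P}
    (hN1 : ∀ g ∈ P1, ∀ x ∈ N1, g * x * g⁻¹ ∈ N1) (hN2 : ∀ g ∈ P1, ∀ x ∈ N2, g * x * g⁻¹ ∈ N2)
    (hc : ∀ x ∈ N1, ∀ y ∈ N2, x * y = y * x) {s t : P} (hs : s ∈ N1) (ht : t ∈ N2) :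
    (S ⊓ cj s S ⊓ cj t S ⊓ cj (s * t) S).index ≤ P1.index * S.index ^ 3 := by
  have hle : P1 ⊓ (S ⊓ cj s S ⊓ cj t S) ≤ S ⊓ cj s S ⊓ cj t S ⊓ cj (s * t) S := by
    intro g hg
    obtain ⟨hg1, hg2⟩ := Subgroup.mem_inf.1 hg
    refine Subgroup.mem_inf.2 ⟨hg2, ?_⟩
    obtain ⟨hg3, hg4⟩ := Subgroup.mem_inf.1 hg2
    obtain ⟨hg5, hg6⟩ := Subgroup.mem_inf.1 hg3
    rw [mem_cj] at hg4 hg6 ⊢
    have a1 : s⁻¹ * (g * s * g⁻¹) ∈ N1 := N1.mul_mem (N1.inv_mem hs) (hN1 g hg1 s hs)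
    have a2 : s⁻¹ * (g * s * g⁻¹) ∈ S := by
      have := S.mul_mem hg6 (S.inv_mem hg5)
      simpa [mul_assoc] using this
    have b2 : t⁻¹ * (g * t * g⁻¹) ∈ S := by
      have := S.mul_mem hg4 (S.inv_mem hg5)
      simpa [mul_assoc] using this
    have e1 : s⁻¹ * (g * s * g⁻¹) * t = t * (s⁻¹ * (g * s * g⁻¹)) := hc _ a1 t ht
    have e2 : (s * t)⁻¹ * g * (s * t)
        = (s⁻¹ * (g * s * g⁻¹)) * (t⁻¹ * (g * t * g⁻¹)) * g := by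
      calc (s * t)⁻¹ * g * (s * t)
          = t⁻¹ * (s⁻¹ * (g * s * g⁻¹) * t) * t⁻¹ * (g * t * g⁻¹) * g := by group
        _ = t⁻¹ * (t * (s⁻¹ * (g * s * g⁻¹))) * t⁻¹ * (g * t * g⁻¹) * g := by rw [e1]
        _ = (s⁻¹ * (g * s * g⁻¹)) * (t⁻¹ * (g * t * g⁻¹)) * g := by group
    rw [e2]
    exact S.mul_mem (S.mul_mem a2 b2) hg5
  have h1 := count_index_le hle
  have h2 : (P1 ⊓ (S ⊓ cj s S ⊓ cj t S)).index ≤ P1.index * (S.index * S.index * S.index) := by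
    refine Subgroup.index_inf_le.trans (Nat.mul_le_mul_left _ ?_)
    refine Subgroup.index_inf_le.trans ?_
    rw [count_index_cj t S]
    refine Nat.mul_le_mul_right _ ?_
    refine Subgroup.index_inf_le.trans ?_
    rw [count_index_cj s S]
  calc _ ≤ _ := h1
    _ ≤ _ := h2
    _ = P1.index * S.index ^ 3 := by ring

end Pool.Agent.H49.St
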