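import Mathlib

/-!
Definitions for the structure theorem on small Mahler measures (group theoretic part).
-/

set_option autoImplicit false

namespace Pool.Agent.H49.St

/-- A group is almost simple if it has a nonabelian simple normal subgroup with trivial centraliser. -/
def AlmostSimple (P : Type*) [Group P] : Prop :=
  ∃ T : Subgroup P, T.Normal ∧ IsSimpleGroup T ∧ (∃ x ∈ T, ∃ y ∈ T, x * y ≠ y * x) ∧
    Subgroup.centralizer (T : Set P) = ⊥

section

variable {G V : Type*} [Group G] [AddCommGroup V] [Module ℚ V]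

/-- Stabiliser of a vector. -/
def stab (ρ : G →* Module.End ℚ V) (x : V) : Subgroup G where
  carrier := {g | ρ g x = x}
  mul_mem' := by
    intro g h hg hh
    simp only [Set.mem_ofPred_eq, map_mul, Module.End.mul_apply] at *
    rw [hh, hg]
  one_mem' := by simp
  inv_mem' := by
    intro g hg
    simp only [Set.mem_ofPred_eq] at *
    calc ρ g⁻¹ x = ρ g⁻¹ (ρ g x) := by rw [hg]
      _ = (ρ g⁻¹ * ρ g) x := rfl
      _ = x := by rw [← map_mul]; simp

/-- Stabiliser of the pair `{x, -x}`. -/
def lstab (ρ : G →* Module.End ℚ V) (x : V) : Subgroup G where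
  carrier := {g | ρ g x = x ∨ ρ g x = -x}
  mul_mem' := by
    intro g h hg hh
    simp only [Set.mem_ofPred_eq, map_mul, Module.End.mul_apply] at *
    rcases hh with hh | hh <;> rcases hg with hg | hg <;> rw [hh] <;> simp [hg]
  one_mem' := by simp
  inv_mem' := by
    intro g hg
    simp only [Set.mem_ofPred_eq] at *
    have key : ρ g⁻¹ (ρ g x) = x := by
      calc ρ g⁻¹ (ρ g x) = (ρ g⁻¹ * ρ g) x := rfl
        _ = x := by rw [← map_mul]; simp
    rcases hg with hg | hg
    · left
      rw [hg] at key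
      exact key
    · right
      rw [hg, map_neg] at key
      rw [← key, neg_neg, key]

theorem mem_stab {ρ : G →* Module.End ℚ V} {x : V} {g : G} : g ∈ stab ρ x ↔ ρ g x = x := Iff.rfl

theorem mem_lstab {ρ : G →* Module.End ℚ V} {x : V} {g : G} :
    g ∈ lstab ρ x ↔ ρ g x = x ∨ ρ g x = -x := Iff.rfl

theorem stab_le_lstab {ρ : G →* Module.End ℚ V} {x : V} : stab ρ x ≤ lstab ρ x :=
  fun _ hg => Or.inl hg

/-- the basic cancellation -/
theorem inv_apply_apply (ρ : G →* Module.End ℚ V) (g : G) (x : V) : ρ g⁻¹ (ρ g x) = x := by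
  calc ρ g⁻¹ (ρ g x) = (ρ g⁻¹ * ρ g) x := rfl
    _ = x := by rw [← map_mul]; simp

theorem apply_inv_apply (ρ : G →* Module.End ℚ V) (g : G) (x : V) : ρ g (ρ g⁻¹ x) = x := by
  calc ρ g (ρ g⁻¹ x) = (ρ g * ρ g⁻¹) x := rfl
    _ = x := by rw [← map_mul]; simp

theorem apply_injective (ρ : G →* Module.End ℚ V) (g : G) : Function.Injective (ρ g) := by
  intro x y h
  rw [← inv_apply_apply ρ g x, h, inv_apply_apply]

end

end Pool.Agent.H49.St
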