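import Pool.Agent.H49.St.Defs

/-!
# Number of commuting factors

`P` finite, `S` a subgroup with trivial core, `y0 = S` in `P ⧸ S`, `b = [P : S]`. `I` is a finite set of nontrivial subgroups of `P` which
commute pairwise, have trivial centres, and whose join `Q0 = I.sup id` satisfies `Q0 S = P` (it is transitive on `P ⧸ S`). Then `|I| ≤ 2 log_2 b`.

Proof. For a subgroup `N` let `O N` be the image of `N` in `P ⧸ S` (the orbit of `y0`). For `J ⊆ I` put `N_J = J.sup id`.
(1) For every `J ⊆ I` there is `J' ⊆ J` with `O N_J' = O N_J` and `2 ^ |J'| ≤ |O N_J'|`. Induction on `J`: let `T ∉ J`, `J'` for `J`. `T` commutes with `N_J`.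
 If `O T ⊆ O N_J'` then `J'` works for `J ∪ {T}`: an element of `N_{J ∪ T} = T N_J` is `t v`; `v y0 = v' y0` with `v' ∈ N_J'`,
 `t v y0 = t v' y0 = v' t y0 = v' v'' y0` with `t y0 = v'' y0`, `v'' ∈ N_J'`. Otherwise some `t ∈ T` has `t y0 ∉ O N_J'`; take `J' ∪ {T}`:
 `O N_{J' ∪ T} = T O N_J' = T O N_J = O N_{J ∪ T}`, it contains `O N_J'` and `t O N_J'` (same size), which are disjoint:
 `v y0 = t v' y0` gives `t y0 = v'^-1 v y0` (as `t v' = v' t`). So `|O|` at least doubles.
(2) Take `J = I`: `J'` with `2 ^ |J'| ≤ |O| ≤ b`, `O N_J' = O Q0` = everything.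
(3) `U = N_{I \ J'}` commutes with `N_J'`. `U ∩ S = 1`: if `u ∈ U ∩ S` and `g ∈ P`, `g y0 = v y0` with `v ∈ N_J'`, so `u g y0 = u v y0 = v u y0 = v y0 = g y0`:
 `g^-1 u g ∈ S` for all `g`, so `u` is in the normal core of `S`, `u = 1`. Hence `|U| ≤ b` (`U → P ⧸ S` is injective).
(4) For `J ⊆ I`: `2 ^ |J| ≤ |N_J|`: for `T ∉ J` the group `T ∩ N_J` is central in `T` (since `N_J` commutes with `T`), so trivial; `T ≠ 1`, so `N_{J ∪ T}` is strictly larger than `N_J`
 and its order is a multiple of `|N_J|` (Lagrange).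
(5) `|I| = |J'| + |I \ J'| ≤ log_2 b + log_2 b`.
-/

set_option autoImplicit false

namespace Pool.Agent.H49.St

section Fam

variable {P : Type*} [Group P]

/-- Commuting subgroups: elements of the join are products. -/
theorem fam_mem_sup {A B : Subgroup P} (h : ∀ a ∈ A, ∀ b ∈ B, a * b = b * a) {x : P}
    (hx : x ∈ A ⊔ B) : ∃ a ∈ A, ∃ b ∈ B, x = a * b := by
  let K : Subgroup P :=
    { carrier := {x | ∃ a ∈ A, ∃ b ∈ B, x = a * b}
      mul_mem' := by
        rintro x y ⟨a, ha, b, hb, rfl⟩ ⟨a', ha', b', hb', rfl⟩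
        refine ⟨a * a', mul_mem ha ha', b * b', mul_mem hb hb', ?_⟩
        calc a * b * (a' * b') = a * (b * a') * b' := by group
          _ = a * (a' * b) * b' := by rw [h a' ha' b hb]
          _ = a * a' * (b * b') := by group
      one_mem' := ⟨1, one_mem _, 1, one_mem _, (mul_one 1).symm⟩
      inv_mem' := by
        rintro x ⟨a, ha, b, hb, rfl⟩
        refine ⟨a⁻¹, inv_mem ha, b⁻¹, inv_mem hb, ?_⟩
        rw [mul_inv_rev, h a⁻¹ (inv_mem ha) b⁻¹ (inv_mem hb)] }
  have h1 : A ⊔ B ≤ K := sup_le (fun a ha => ⟨a, ha, 1, one_mem _, (mul_one a).symm⟩)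
    (fun b hb => ⟨1, one_mem _, b, hb, (one_mul b).symm⟩)
  exact h1 hx

/-- `T` commutes with the join of the other members. -/
theorem fam_comm {I : Finset (Subgroup P)}
    (hcomm : ∀ T ∈ I, ∀ T' ∈ I, T ≠ T' → ∀ x ∈ T, ∀ y ∈ T', x * y = y * x)
    {J : Finset (Subgroup P)} (hJ : J ⊆ I) {T : Subgroup P} (hT : T ∈ I) (hTJ : T ∉ J) :
    ∀ x ∈ T, ∀ y ∈ J.sup id, x * y = y * x := by
  have h : J.sup id ≤ Subgroup.centralizer (T : Set P) := by
    refine Finset.sup_le fun T' hT' => ?_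
    intro y hy
    rw [Subgroup.mem_centralizer_iff]
    intro x hx
    refine hcomm T hT T' (hJ hT') ?_ x hx y hy
    rintro rfl
    exact hTJ hT'
  intro x hx y hy
  exact Subgroup.mem_centralizer_iff.1 (h hy) x hx

theorem fam_comm' {I : Finset (Subgroup P)}
    (hcomm : ∀ T ∈ I, ∀ T' ∈ I, T ≠ T' → ∀ x ∈ T, ∀ y ∈ T', x * y = y * x)
    {J J' : Finset (Subgroup P)} (hJ : J ⊆ I) (hJ' : J' ⊆ I) (hd : Disjoint J J') :
    ∀ x ∈ J.sup id, ∀ y ∈ J'.sup id, x * y = y * x := by
  have h : J.sup id ≤ Subgroup.centralizer ((J'.sup id : Subgroup P) : Set P) := by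
    refine Finset.sup_le fun T hT => ?_
    intro x hx
    rw [Subgroup.mem_centralizer_iff]
    intro y hy
    exact (fam_comm hcomm hJ' (hJ hT) (Finset.disjoint_left.1 hd hT) x hx y hy).symm
  intro x hx y hy
  exact (Subgroup.mem_centralizer_iff.1 (h hx) y hy).symm

/-- the orbit of the base point -/
def famO (S N : Subgroup P) : Set (P ⧸ S) := (fun g : P => (g : P ⧸ S)) '' (N : Set P)

theorem fam_mem_O {S N : Subgroup P} {g : P} (h : g ∈ N) : (g : P ⧸ S) ∈ famO S N := ⟨g, h, rfl⟩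

theorem famO_mono {S N N' : Subgroup P} (h : N ≤ N') : famO S N ⊆ famO S N' :=
  Set.image_mono h

theorem fam_mk_mul {S : Subgroup P} {g h h' : P} (e : (h : P ⧸ S) = h') :
    ((g * h : P) : P ⧸ S) = ((g * h' : P) : P ⧸ S) := by
  rw [QuotientGroup.eq] at e ⊢
  have : (g * h)⁻¹ * (g * h') = h⁻¹ * h' := by group
  rwa [this]

theorem fam_step1 [Finite P] {S : Subgroup P} {I : Finset (Subgroup P)}
    (hcomm : ∀ T ∈ I, ∀ T' ∈ I, T ≠ T' → ∀ x ∈ T, ∀ y ∈ T', x * y = y * x) :
    ∀ J : Finset (Subgroup P), J ⊆ I → ∃ J' ⊆ J, famO S (J'.sup id) = famO S (J.sup id) ∧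
      2 ^ J'.card ≤ (famO S (J'.sup id)).ncard := by
  classical
  intro J
  induction J using Finset.induction_on with
  | empty =>
    intro _
    refine ⟨∅, Finset.Subset.refl _, rfl, ?_⟩
    rw [Finset.card_empty, pow_zero]
    exact (Set.ncard_pos (Set.toFinite _)).2 ⟨_, fam_mem_O (one_mem _)⟩
  | insert T J hTJ ih =>
    intro hJI
    have hJ : J ⊆ I := fun x hx => hJI (Finset.mem_insert_of_mem hx)
    have hT : T ∈ I := hJI (Finset.mem_insert_self _ _)
    obtain ⟨J', hJ', hO, hc⟩ := ih hJ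
    have hTJ' : T ∉ J' := fun h => hTJ (hJ' h)
    have c1 := fam_comm hcomm hJ hT hTJ
    have c2 := fam_comm hcomm (hJ'.trans hJ) hT hTJ'
    by_cases hsub : famO S T ⊆ famO S (J'.sup id)
    · refine ⟨J', hJ'.trans (Finset.subset_insert _ _), ?_, hc⟩
      refine Set.Subset.antisymm ?_ ?_
      · rw [hO]
        refine famO_mono ?_
        rw [Finset.sup_insert]
        exact le_sup_right
      · rintro _ ⟨x, hx, rfl⟩
        rw [SetLike.mem_coe, Finset.sup_insert] at hx
        obtain ⟨t, ht, v, hv, rfl⟩ := fam_mem_sup c1 hx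
        have h1 : (v : P ⧸ S) ∈ famO S (J'.sup id) := by
          rw [hO]
          exact fam_mem_O hv
        obtain ⟨v', hv', h2⟩ := h1
        obtain ⟨v'', hv'', h3⟩ := hsub (fam_mem_O ht)
        have h4 : ((t * v : P) : P ⧸ S) = ((v' * v'' : P) : P ⧸ S) := by
          calc ((t * v : P) : P ⧸ S) = ((t * v' : P) : P ⧸ S) := fam_mk_mul h2.symm
            _ = ((v' * t : P) : P ⧸ S) := by rw [c2 t ht v' hv']
            _ = ((v' * v'' : P) : P ⧸ S) := fam_mk_mul h3.symm
        show ((t * v : P) : P ⧸ S) ∈ _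
        rw [h4]
        exact fam_mem_O (mul_mem hv' hv'')
    · obtain ⟨z, ⟨t, ht, rfl⟩, hz⟩ := Set.not_subset.1 hsub
      refine ⟨insert T J', Finset.insert_subset_insert _ hJ', ?_, ?_⟩
      · refine Set.Subset.antisymm ?_ ?_
        · rintro _ ⟨x, hx, rfl⟩
          rw [SetLike.mem_coe, Finset.sup_insert] at hx
          obtain ⟨t, ht, v, hv, rfl⟩ := fam_mem_sup c2 hx
          have h1 : (v : P ⧸ S) ∈ famO S (J.sup id) := by
            rw [← hO]
            exact fam_mem_O hv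
          obtain ⟨v', hv', h2⟩ := h1
          show ((t * v : P) : P ⧸ S) ∈ _
          rw [fam_mk_mul h2.symm, Finset.sup_insert]
          exact fam_mem_O (mul_mem (Subgroup.mem_sup_left ht) (Subgroup.mem_sup_right hv'))
        · rintro _ ⟨x, hx, rfl⟩
          rw [SetLike.mem_coe, Finset.sup_insert] at hx
          obtain ⟨t, ht, v, hv, rfl⟩ := fam_mem_sup c1 hx
          have h1 : (v : P ⧸ S) ∈ famO S (J'.sup id) := by
            rw [hO]
            exact fam_mem_O hv
          obtain ⟨v', hv', h2⟩ := h1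
          show ((t * v : P) : P ⧸ S) ∈ _
          rw [fam_mk_mul h2.symm, Finset.sup_insert]
          exact fam_mem_O (mul_mem (Subgroup.mem_sup_left ht) (Subgroup.mem_sup_right hv'))
      · rw [Finset.card_insert_of_notMem hTJ', pow_succ, Finset.sup_insert, id_eq]
        have hd : Disjoint (famO S (J'.sup id)) ((fun y : P ⧸ S => t • y) '' famO S (J'.sup id)) := by
          rw [Set.disjoint_left]
          rintro _ ⟨v, hv, rfl⟩ ⟨_, ⟨v', hv', rfl⟩, h⟩
          apply hz
          have h' : ((t * v' : P) : P ⧸ S) = ((v : P) : P ⧸ S) := h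
          rw [c2 t ht v' hv'] at h'
          have h2 := fam_mk_mul (g := v'⁻¹) h'
          rw [inv_mul_cancel_left] at h2
          show ((t : P) : P ⧸ S) ∈ _
          rw [h2]
          exact fam_mem_O (mul_mem (inv_mem hv') hv)
        have hsub2 : famO S (J'.sup id) ∪ (fun y : P ⧸ S => t • y) '' famO S (J'.sup id) ⊆
            famO S (T ⊔ J'.sup id) := by
          rintro _ (⟨v, hv, rfl⟩ | ⟨_, ⟨v, hv, rfl⟩, rfl⟩)
          · exact fam_mem_O (Subgroup.mem_sup_right hv)
          · show ((t * v : P) : P ⧸ S) ∈ _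
            exact fam_mem_O (mul_mem (Subgroup.mem_sup_left ht) (Subgroup.mem_sup_right hv))
        have h3 := Set.ncard_le_ncard hsub2 (Set.toFinite _)
        rw [Set.ncard_union_eq hd (Set.toFinite _) (Set.toFinite _),
          Set.ncard_image_of_injective _ (MulAction.injective t)] at h3
        omega

theorem fam_step4 [Finite P] {I : Finset (Subgroup P)} (hne : ∀ T ∈ I, T ≠ ⊥)
    (hcomm : ∀ T ∈ I, ∀ T' ∈ I, T ≠ T' → ∀ x ∈ T, ∀ y ∈ T', x * y = y * x)
    (hZ : ∀ T ∈ I, ∀ x ∈ T, (∀ y ∈ T, x * y = y * x) → x = 1) :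
    ∀ J : Finset (Subgroup P), J ⊆ I → 2 ^ J.card ≤ Nat.card (J.sup id : Subgroup P) := by
  classical
  intro J
  induction J using Finset.induction_on with
  | empty =>
    intro _
    rw [Finset.card_empty, pow_zero]
    exact Nat.one_le_iff_ne_zero.2 Nat.card_pos.ne'
  | insert T J hTJ ih =>
    intro hJI
    have hJ : J ⊆ I := fun x hx => hJI (Finset.mem_insert_of_mem hx)
    have hT : T ∈ I := hJI (Finset.mem_insert_self _ _)
    have c1 := fam_comm hcomm hJ hT hTJ
    have h0 := ih hJ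
    rw [Finset.card_insert_of_notMem hTJ, pow_succ, Finset.sup_insert, id_eq]
    have hle : J.sup id ≤ T ⊔ J.sup id := le_sup_right
    obtain ⟨k, hk⟩ := Subgroup.card_dvd_of_le hle
    have hk1 : k ≠ 1 := by
      rintro rfl
      rw [mul_one] at hk
      have heq : J.sup id = T ⊔ J.sup id := Subgroup.eq_of_le_of_card_ge hle hk.le
      apply hne T hT
      rw [Subgroup.eq_bot_iff_forall]
      intro x hx
      refine hZ T hT x hx fun y hy => ?_
      have hx' : x ∈ J.sup id := by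
        rw [heq]
        exact Subgroup.mem_sup_left hx
      exact (c1 y hy x hx').symm
    have hk0 : k ≠ 0 := by
      rintro rfl
      rw [mul_zero] at hk
      exact Nat.card_pos.ne' hk
    have hk2 : 2 ≤ k := by omega
    rw [hk]
    exact Nat.mul_le_mul h0 hk2

end Fam

/-- A commuting family of centreless nontrivial subgroups with transitive join has at most `2 log_2 b` members. -/
theorem card_le_of_commuting {P : Type*} [Group P] [Finite P] {S : Subgroup P} (hcore : S.normalCore = ⊥)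
    (I : Finset (Subgroup P)) (hne : ∀ T ∈ I, T ≠ ⊥)
    (hcomm : ∀ T ∈ I, ∀ T' ∈ I, T ≠ T' → ∀ x ∈ T, ∀ y ∈ T', x * y = y * x)
    (hZ : ∀ T ∈ I, ∀ x ∈ T, (∀ y ∈ T, x * y = y * x) → x = 1)
    (htr : ∀ g : P, ∃ q ∈ I.sup id, ∃ s ∈ S, g = q * s) :
    I.card ≤ 2 * Nat.log 2 S.index := by
  classical
  obtain ⟨J', hJ', hO, hc⟩ := fam_step1 (S := S) hcomm I (Finset.Subset.refl _)
  have huniv : ∀ g : P, (g : P ⧸ S) ∈ famO S (J'.sup id) := by
    intro g
    rw [hO]
    obtain ⟨q, hq, s, hs, rfl⟩ := htr g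
    have h1 : ((q * s : P) : P ⧸ S) = (q : P ⧸ S) := by
      rw [QuotientGroup.eq]
      have : (q * s)⁻¹ * q = s⁻¹ := by group
      rw [this]
      exact inv_mem hs
    rw [h1]
    exact fam_mem_O hq
  have h1 : 2 ^ J'.card ≤ S.index := by
    refine hc.trans ?_
    rw [Subgroup.index, ← Set.ncard_univ]
    exact Set.ncard_le_ncard (Set.subset_univ _) (Set.toFinite _)
  have hU : ∀ u ∈ (I \ J').sup id, u ∈ S → u = 1 := by
    intro u hu huS
    have h2 : u ∈ S.normalCore := by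
      intro g
      obtain ⟨v, hv, h3⟩ := huniv g⁻¹
      have h3' : (v : P ⧸ S) = ((g⁻¹ : P) : P ⧸ S) := h3
      rw [QuotientGroup.eq] at h3'
      have h4 : u * v = v * u :=
        fam_comm' hcomm Finset.sdiff_subset hJ' Finset.sdiff_disjoint u hu v hv
      have h5 : g * u * g⁻¹ = (v⁻¹ * g⁻¹)⁻¹ * u * (v⁻¹ * g⁻¹) := by
        calc g * u * g⁻¹ = g * (v * u * v⁻¹) * g⁻¹ := by rw [← h4, mul_inv_cancel_right]
          _ = (v⁻¹ * g⁻¹)⁻¹ * u * (v⁻¹ * g⁻¹) := by group
      rw [h5]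
      exact mul_mem (mul_mem (inv_mem h3') huS) h3'
    rw [hcore] at h2
    exact Subgroup.mem_bot.1 h2
  have h6 : Nat.card ((I \ J').sup id : Subgroup P) ≤ S.index := by
    rw [Subgroup.index]
    refine Nat.card_le_card_of_injective (fun u : ((I \ J').sup id : Subgroup P) => ((u : P) : P ⧸ S)) ?_
    intro u u' h
    have h' : ((u : P) : P ⧸ S) = ((u' : P) : P ⧸ S) := h
    rw [QuotientGroup.eq] at h'
    have h7 := hU _ (mul_mem (inv_mem u.2) u'.2) h'
    exact Subtype.ext (inv_mul_eq_one.1 h7)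
  have h8 := (fam_step4 hne hcomm hZ (I \ J') Finset.sdiff_subset).trans h6
  have h9 := Nat.le_log_of_pow_le one_lt_two h1
  have h10 := Nat.le_log_of_pow_le one_lt_two h8
  have h11 := Finset.card_sdiff_add_card_eq_card hJ'
  omega

end Pool.Agent.H49.St
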