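import Pool.Agent.H49.St.Count

/-!
# Indices of stabilisers of vectors and of lines, passage to the quotient

`stab ρ x` has index at most 2 in `lstab ρ x`; `lstab ρ (ρ g a) = cj g (lstab ρ a)`. So the stabiliser of a `k`-tuple of vectors has index at most `2^k` in the stabiliser of the tuple of lines
(`(H ⊓ K).relIndex (H' ⊓ K') ≤ H.relIndex H' * K.relIndex K'` for `H ≤ H'`, `K ≤ K'`; use `Subgroup.relIndex_inf_le` and `relIndex_le_of_le_...`/orbit arguments).
The index of an intersection of conjugates of `S0 ≥ R` (`R` normal) in `Γ` is the index of the corresponding intersection in `Γ ⧸ R` (`Subgroup.index_comap_of_surjective`, `comap mk (cj (mk s) (S0.map mk)) = cj s S0`).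
-/

set_option autoImplicit false

namespace Pool.Agent.H49.St

section
variable {Γ V : Type*} [Group Γ] [Finite Γ] [AddCommGroup V] [Module ℚ V]

omit [Finite Γ] in
theorem mul_apply_end (ρ : Γ →* Module.End ℚ V) (g h : Γ) (x : V) : ρ (g * h) x = ρ g (ρ h x) := by
  rw [map_mul]; rfl

theorem lstab_apply (ρ : Γ →* Module.End ℚ V) (a : V) (g : Γ) : lstab ρ (ρ g a) = cj g (lstab ρ a) := by
  ext h
  rw [mem_cj, mem_lstab, mem_lstab]
  have e : ρ (g⁻¹ * h * g) a = ρ g⁻¹ (ρ h (ρ g a)) := by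
    rw [mul_apply_end, mul_apply_end]
  rw [e]
  constructor
  · rintro (h1 | h1)
    · left; rw [h1, inv_apply_apply]
    · right; rw [h1, map_neg, inv_apply_apply]
  · rintro (h1 | h1)
    · left
      rw [← apply_inv_apply ρ g (ρ h (ρ g a)), h1]
    · right
      rw [← apply_inv_apply ρ g (ρ h (ρ g a)), h1, map_neg]

/-- the stabiliser has index at most two in the stabiliser of the line -/
theorem relIndex_stab_le (ρ : Γ →* Module.End ℚ V) (a : V) :
    (stab ρ a).relIndex (lstab ρ a) ≤ 2 := by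
  classical
  rw [Subgroup.relIndex, Subgroup.index]
  have hcard : Nat.card (({a, -a} : Set V)) ≤ 2 := by
    rw [Nat.card_coe_set_eq]
    refine (Set.ncard_insert_le a {-a}).trans ?_
    rw [Set.ncard_singleton]
  refine le_trans ?_ hcard
  have : Finite (({a, -a} : Set V)) := Set.toFinite _
  apply Nat.card_le_card_of_injective
    (fun q : (lstab ρ a) ⧸ (stab ρ a).subgroupOf (lstab ρ a) =>
      (⟨ρ (Quotient.out q : lstab ρ a).1 a, by
        rcases (Quotient.out q : lstab ρ a).2 with h | h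
        · left; exact h
        · right; exact h⟩ : (({a, -a} : Set V))))
  intro q q' h
  have h1 : ρ (Quotient.out q : lstab ρ a).1 a = ρ (Quotient.out q' : lstab ρ a).1 a :=
    congrArg Subtype.val h
  rw [← Quotient.out_eq q, ← Quotient.out_eq q']
  apply QuotientGroup.eq.mpr
  rw [Subgroup.mem_subgroupOf, mem_stab]
  change ρ ((Quotient.out q : lstab ρ a).1⁻¹ * (Quotient.out q' : lstab ρ a).1) a = a
  rw [mul_apply_end, ← h1, inv_apply_apply]

omit [Finite Γ] in
theorem index_eq_mul {H H' : Subgroup Γ} (h : H ≤ H') : H.index = H.relIndex H' * H'.index :=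
  (Subgroup.relIndex_mul_index h).symm

theorem index_stab_le (ρ : Γ →* Module.End ℚ V) (a : V) : (stab ρ a).index ≤ 2 * (lstab ρ a).index := by
  rw [index_eq_mul (stab_le_lstab (ρ := ρ) (x := a))]
  exact Nat.mul_le_mul_right _ (relIndex_stab_le ρ a)

theorem relIndex_stab_le_of_le (ρ : Γ →* Module.End ℚ V) (a : V) {K : Subgroup Γ}
    (h : K ≤ lstab ρ a) : (stab ρ a).relIndex K ≤ 2 := by
  refine le_trans (Subgroup.relIndex_le_of_le_right h ?_) (relIndex_stab_le ρ a)
  exact Subgroup.FiniteIndex.index_ne_zero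

theorem index_pair_le (ρ : Γ →* Module.End ℚ V) (a : V) (s : Γ) :
    (stab ρ a ⊓ stab ρ (ρ s a)).index ≤ 4 * (lstab ρ a ⊓ cj s (lstab ρ a)).index := by
  rw [← lstab_apply]
  have hle : stab ρ a ⊓ stab ρ (ρ s a) ≤ lstab ρ a ⊓ lstab ρ (ρ s a) :=
    inf_le_inf stab_le_lstab stab_le_lstab
  rw [index_eq_mul hle]
  apply Nat.mul_le_mul_right
  calc (stab ρ a ⊓ stab ρ (ρ s a)).relIndex (lstab ρ a ⊓ lstab ρ (ρ s a))
      ≤ (stab ρ a).relIndex (lstab ρ a ⊓ lstab ρ (ρ s a)) *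
        (stab ρ (ρ s a)).relIndex (lstab ρ a ⊓ lstab ρ (ρ s a)) := Subgroup.relIndex_inf_le
    _ ≤ 2 * 2 := Nat.mul_le_mul (relIndex_stab_le_of_le ρ a inf_le_left)
        (relIndex_stab_le_of_le ρ _ inf_le_right)
    _ = 4 := rfl

theorem index_quad_le (ρ : Γ →* Module.End ℚ V) (a : V) (s t u : Γ) :
    (stab ρ a ⊓ stab ρ (ρ s a) ⊓ stab ρ (ρ t a) ⊓ stab ρ (ρ u a)).index ≤
      16 * (lstab ρ a ⊓ cj s (lstab ρ a) ⊓ cj t (lstab ρ a) ⊓ cj u (lstab ρ a)).index := by
  rw [← lstab_apply, ← lstab_apply, ← lstab_apply]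
  have hle : stab ρ a ⊓ stab ρ (ρ s a) ⊓ stab ρ (ρ t a) ⊓ stab ρ (ρ u a) ≤
      lstab ρ a ⊓ lstab ρ (ρ s a) ⊓ lstab ρ (ρ t a) ⊓ lstab ρ (ρ u a) :=
    inf_le_inf (inf_le_inf (inf_le_inf stab_le_lstab stab_le_lstab) stab_le_lstab) stab_le_lstab
  rw [index_eq_mul hle]
  apply Nat.mul_le_mul_right
  set K := lstab ρ a ⊓ lstab ρ (ρ s a) ⊓ lstab ρ (ρ t a) ⊓ lstab ρ (ρ u a) with hK
  have k1 : K ≤ lstab ρ a := (inf_le_left.trans inf_le_left).trans inf_le_left
  have k2 : K ≤ lstab ρ (ρ s a) := (inf_le_left.trans inf_le_left).trans inf_le_right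
  have k3 : K ≤ lstab ρ (ρ t a) := inf_le_left.trans inf_le_right
  have k4 : K ≤ lstab ρ (ρ u a) := inf_le_right
  calc (stab ρ a ⊓ stab ρ (ρ s a) ⊓ stab ρ (ρ t a) ⊓ stab ρ (ρ u a)).relIndex K
      ≤ (stab ρ a ⊓ stab ρ (ρ s a) ⊓ stab ρ (ρ t a)).relIndex K * (stab ρ (ρ u a)).relIndex K :=
        Subgroup.relIndex_inf_le
    _ ≤ ((stab ρ a ⊓ stab ρ (ρ s a)).relIndex K * (stab ρ (ρ t a)).relIndex K) *
        (stab ρ (ρ u a)).relIndex K := Nat.mul_le_mul_right _ Subgroup.relIndex_inf_le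
    _ ≤ (((stab ρ a).relIndex K * (stab ρ (ρ s a)).relIndex K) * (stab ρ (ρ t a)).relIndex K) *
        (stab ρ (ρ u a)).relIndex K :=
        Nat.mul_le_mul_right _ (Nat.mul_le_mul_right _ Subgroup.relIndex_inf_le)
    _ ≤ ((2 * 2) * 2) * 2 :=
        Nat.mul_le_mul (Nat.mul_le_mul (Nat.mul_le_mul (relIndex_stab_le_of_le ρ a k1)
          (relIndex_stab_le_of_le ρ _ k2)) (relIndex_stab_le_of_le ρ _ k3))
          (relIndex_stab_le_of_le ρ _ k4)
    _ = 16 := rfl

end

section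
variable {Γ : Type*} [Group Γ] [Finite Γ] (R : Subgroup Γ) [R.Normal] (S0 : Subgroup Γ)

theorem index_quot (h : R ≤ S0) : (S0.map (QuotientGroup.mk' R)).index = S0.index := by
  apply Subgroup.index_map_eq _ (QuotientGroup.mk'_surjective R)
  rw [QuotientGroup.ker_mk']
  exact h

omit [Finite Γ] in
theorem comap_map_quot (h : R ≤ S0) :
    (S0.map (QuotientGroup.mk' R)).comap (QuotientGroup.mk' R) = S0 := by
  apply Subgroup.comap_map_eq_self
  rw [QuotientGroup.ker_mk']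
  exact h

omit [Finite Γ] in
theorem comap_cj_quot (h : R ≤ S0) (s : Γ) :
    (cj (s : Γ ⧸ R) (S0.map (QuotientGroup.mk' R))).comap (QuotientGroup.mk' R) = cj s S0 := by
  ext g
  rw [Subgroup.mem_comap, mem_cj, mem_cj]
  have e : (s : Γ ⧸ R)⁻¹ * (QuotientGroup.mk' R) g * (s : Γ ⧸ R)
      = (QuotientGroup.mk' R) (s⁻¹ * g * s) := rfl
  rw [e, ← Subgroup.mem_comap, comap_map_quot R S0 h]

theorem index_pair_quot (h : R ≤ S0) (s : Γ) :
    (S0 ⊓ cj s S0).index =
      (S0.map (QuotientGroup.mk' R) ⊓ cj (s : Γ ⧸ R) (S0.map (QuotientGroup.mk' R))).index := by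
  rw [← Subgroup.index_comap_of_surjective _ (QuotientGroup.mk'_surjective R),
    Subgroup.comap_inf, comap_map_quot R S0 h, comap_cj_quot R S0 h]

theorem index_quad_quot (h : R ≤ S0) (s t u : Γ) :
    (S0 ⊓ cj s S0 ⊓ cj t S0 ⊓ cj u S0).index =
      (S0.map (QuotientGroup.mk' R) ⊓ cj (s : Γ ⧸ R) (S0.map (QuotientGroup.mk' R)) ⊓
        cj (t : Γ ⧸ R) (S0.map (QuotientGroup.mk' R)) ⊓ cj (u : Γ ⧸ R) (S0.map (QuotientGroup.mk' R))).index := by
  rw [← Subgroup.index_comap_of_surjective _ (QuotientGroup.mk'_surjective R),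
    Subgroup.comap_inf, Subgroup.comap_inf, Subgroup.comap_inf, comap_map_quot R S0 h,
    comap_cj_quot R S0 h, comap_cj_quot R S0 h, comap_cj_quot R S0 h]

theorem coatom_quot (h : R ≤ S0) (hS : IsCoatom S0) : IsCoatom (S0.map (QuotientGroup.mk' R)) := by
  constructor
  · intro htop
    apply hS.1
    rw [← comap_map_quot R S0 h, htop, Subgroup.comap_top]
  · intro K hK
    have h1 : S0 < K.comap (QuotientGroup.mk' R) := by
      rw [← comap_map_quot R S0 h]
      exact (Subgroup.comap_lt_comap_of_surjective (QuotientGroup.mk'_surjective R)).mpr hK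
    have h2 := hS.2 _ h1
    rw [← Subgroup.map_comap_eq_self_of_surjective (QuotientGroup.mk'_surjective R) K, h2]
    exact Subgroup.map_top_of_surjective _ (QuotientGroup.mk'_surjective R)

theorem core_quot (S0 : Subgroup Γ) : (S0.map (QuotientGroup.mk' S0.normalCore)).normalCore = ⊥ := by
  rw [eq_bot_iff]
  intro x hx
  obtain ⟨g, rfl⟩ := QuotientGroup.mk'_surjective S0.normalCore x
  rw [Subgroup.mem_bot, QuotientGroup.mk'_apply, QuotientGroup.eq_one_iff]
  intro b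
  have h1 := hx (QuotientGroup.mk' S0.normalCore b)
  rw [← map_mul, ← map_inv, ← map_mul, ← Subgroup.mem_comap,
    comap_map_quot _ _ S0.normalCore_le] at h1
  exact h1

end

end Pool.Agent.H49.St
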