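import Pool.Agent.H49.St.LinA
import Pool.Agent.H49.St.Defs

/-!
# Lifting a commutative normal subgroup

`Γ` finite, acting linearly on `V`, `R` a normal subgroup inside `lstab ρ a` all of whose elements act on `V` as `1` or as `-1`. `A` a commutative subgroup of `Γ ⧸ R`, `S` = image of `lstab ρ a`,
`A ⊓ S = 1`, `A S = Γ ⧸ R`. If `a, s a, t a, s t a` are dependent for all commuting lifts `s`, `t` of elements of `A` then `[P : S] ≤ 3^9 2^(3^9)`.

Proof. `Ah = comap A`. For `x, y ∈ Ah` the commutator lies in `R`, so `ρ x ρ y = c(x,y) ρ y ρ x`, `c = ± 1`; `c` depends only on the classes mod `R`. Let `D ≤ Ah` be a subgroup with `ρ s ρ t = ρ t ρ s` for all `s, t ∈ D`, with `Nat.card D` maximal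
(such subgroups exist: `⊥`). `linA` for the group `↥D`: the set `{ρ d a : d ∈ D}` has at most `K = 3^9` elements. If `ρ d a = ρ d' a` then `d⁻¹ d' ∈ lstab`, its class is in `A ⊓ S = ⊥`; so the image `Dbar` of `D` in `Γ ⧸ R` has at most `K` elements.
For `x ∈ Ah` consider the function `Dbar → Prop`, `d ↦ (ρ x ρ d = ρ d ρ x)` (well defined since `R` acts by scalars). If `x, x'` have the same function then `x⁻¹ x'` commutes with all of `D`
(`c(x⁻¹ x', d) = c(x,d) c(x',d) = 1`), so the subgroup generated by `D` and `x⁻¹ x'` is again commuting and inside `Ah`; maximality: `x⁻¹ x' ∈ D`. So `Ah / D` has at most `2^K` elements and `|A| ≤ |Dbar| 2^K ≤ K 2^K`.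
Finally `[P : S] ≤ |A|` because `A → P ⧸ S` is surjective.
-/

set_option autoImplicit false

namespace Pool.Agent.H49.St

section aux

variable {Γ V : Type*} [Group Γ] [AddCommGroup V] [Module ℚ V] (ρ : Γ →* Module.End ℚ V)

lemma la_inv_mul (g : Γ) : ρ g⁻¹ * ρ g = 1 := by rw [← map_mul]; simp

lemma la_mul_inv (g : Γ) : ρ g * ρ g⁻¹ = 1 := by rw [← map_mul]; simp

lemma la_comm_inv {s t : Γ} (h : Commute (ρ s) (ρ t)) : Commute (ρ s⁻¹) (ρ t) := by
  have h' : ρ s * ρ t = ρ t * ρ s := h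
  show ρ s⁻¹ * ρ t = ρ t * ρ s⁻¹
  calc ρ s⁻¹ * ρ t = ρ s⁻¹ * ρ t * (ρ s * ρ s⁻¹) := by rw [la_mul_inv, mul_one]
    _ = ρ s⁻¹ * (ρ t * ρ s) * ρ s⁻¹ := by simp only [mul_assoc]
    _ = ρ s⁻¹ * (ρ s * ρ t) * ρ s⁻¹ := by rw [h']
    _ = (ρ s⁻¹ * ρ s) * ρ t * ρ s⁻¹ := by simp only [mul_assoc]
    _ = ρ t * ρ s⁻¹ := by rw [la_inv_mul, one_mul]

/-- The group generated by a commuting set is commuting. -/
lemma la_closure {T : Set Γ} (hT : ∀ s ∈ T, ∀ t ∈ T, Commute (ρ s) (ρ t)) :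
    ∀ s ∈ Subgroup.closure T, ∀ t ∈ Subgroup.closure T, Commute (ρ s) (ρ t) := by
  have h1 : ∀ s ∈ Subgroup.closure T, ∀ t ∈ T, Commute (ρ s) (ρ t) := by
    intro s hs t ht
    induction hs using Subgroup.closure_induction with
    | mem x hx => exact hT x hx t ht
    | one => rw [map_one]; exact Commute.one_left _
    | mul x y _ _ hx hy => rw [map_mul]; exact hx.mul_left hy
    | inv x _ hx => exact la_comm_inv ρ hx
  intro s hs t ht
  induction ht using Subgroup.closure_induction with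
  | mem x hx => exact h1 s hs x hx
  | one => rw [map_one]; exact Commute.one_right _
  | mul x y _ _ hx hy => rw [map_mul]; exact hx.mul_right hy
  | inv x _ hx => exact (la_comm_inv ρ hx.symm).symm

/-- If `x`, `x'` commute or anticommute with `d` in the same way then `x⁻¹ x'` commutes with `d`. -/
lemma la_sign {x x' d : Γ}
    (h1 : ρ x * ρ d = ρ d * ρ x ∨ ρ x * ρ d = -(ρ d * ρ x))
    (h2 : ρ x' * ρ d = ρ d * ρ x' ∨ ρ x' * ρ d = -(ρ d * ρ x'))
    (h : ρ x * ρ d = ρ d * ρ x ↔ ρ x' * ρ d = ρ d * ρ x') :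
    Commute (ρ (x⁻¹ * x')) (ρ d) := by
  by_cases hx : ρ x * ρ d = ρ d * ρ x
  · have hx' := h.1 hx
    rw [map_mul]
    exact (la_comm_inv ρ hx).mul_left hx'
  · have hx' : ¬ ρ x' * ρ d = ρ d * ρ x' := fun h' => hx (h.2 h')
    have e1 := h1.resolve_left hx
    have e2 := h2.resolve_left hx'
    show ρ (x⁻¹ * x') * ρ d = ρ d * ρ (x⁻¹ * x')
    have e3 : ρ x⁻¹ * ρ d = -(ρ d * ρ x⁻¹) := by
      calc ρ x⁻¹ * ρ d = ρ x⁻¹ * ρ d * (ρ x * ρ x⁻¹) := by rw [la_mul_inv, mul_one]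
        _ = ρ x⁻¹ * (ρ d * ρ x) * ρ x⁻¹ := by simp only [mul_assoc]
        _ = ρ x⁻¹ * (-(ρ x * ρ d)) * ρ x⁻¹ := by rw [e1, neg_neg]
        _ = -((ρ x⁻¹ * ρ x) * ρ d * ρ x⁻¹) := by simp only [mul_assoc, mul_neg, neg_mul]
        _ = -(ρ d * ρ x⁻¹) := by rw [la_inv_mul, one_mul]
    calc ρ (x⁻¹ * x') * ρ d = ρ x⁻¹ * (ρ x' * ρ d) := by rw [map_mul, mul_assoc]
      _ = -((ρ x⁻¹ * ρ d) * ρ x') := by rw [e2]; simp only [mul_assoc, mul_neg]
      _ = ρ d * (ρ x⁻¹ * ρ x') := by rw [e3]; simp only [mul_assoc, neg_mul, neg_neg]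
      _ = ρ d * ρ (x⁻¹ * x') := by rw [map_mul]

end aux

theorem liftA {Γ V : Type*} [Group Γ] [Finite Γ] [AddCommGroup V] [Module ℚ V] (ρ : Γ →* Module.End ℚ V) (a : V)
    (R : Subgroup Γ) [R.Normal] (hRS : R ≤ lstab ρ a)
    (hR : ∀ r ∈ R, (∀ v, ρ r v = v) ∨ (∀ v, ρ r v = - v)) (A : Subgroup (Γ ⧸ R))
    (hc : ∀ x ∈ A, ∀ y ∈ A, x * y = y * x)
    (hreg : ∀ x ∈ A, x ∈ (lstab ρ a).map (QuotientGroup.mk' R) → x = 1)
    (htr : ∀ g : Γ ⧸ R, ∃ x ∈ A, ∃ s ∈ (lstab ρ a).map (QuotientGroup.mk' R), g = x * s)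
    (hdep : ∀ s t : Γ, (s : Γ ⧸ R) ∈ A → (t : Γ ⧸ R) ∈ A → ρ s * ρ t = ρ t * ρ s →
      ¬ LinearIndependent ℚ ![a, ρ s a, ρ t a, ρ (s * t) a]) :
    ((lstab ρ a).map (QuotientGroup.mk' R)).index ≤ 3 ^ 9 * 2 ^ (3 ^ 9) := by
  classical
  -- elements of `R` act as central signs
  have hR' : ∀ r ∈ R, ρ r = 1 ∨ ρ r = -1 := by
    intro r hr
    rcases hR r hr with h | h
    · left; ext v; exact h v
    · right; ext v; exact h v
  set Ah : Subgroup Γ := A.comap (QuotientGroup.mk' R) with hAh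
  have memAh : ∀ x : Γ, x ∈ Ah ↔ (x : Γ ⧸ R) ∈ A := fun x => Iff.rfl
  -- commutation up to sign
  have hsign : ∀ x ∈ Ah, ∀ d ∈ Ah, ρ x * ρ d = ρ d * ρ x ∨ ρ x * ρ d = -(ρ d * ρ x) := by
    intro x hx d hd
    have h1 : (x : Γ ⧸ R) * (d : Γ ⧸ R) = (d : Γ ⧸ R) * (x : Γ ⧸ R) := hc _ hx _ hd
    have h2 : ((d * x : Γ) : Γ ⧸ R) = ((x * d : Γ) : Γ ⧸ R) := h1.symm
    rw [QuotientGroup.eq] at h2
    have h3 : x * d = (d * x) * ((d * x)⁻¹ * (x * d)) := by group
    rcases hR' _ h2 with h | h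
    · left
      rw [← map_mul, h3, map_mul, h, mul_one, map_mul]
    · right
      rw [← map_mul, h3, map_mul, h, map_mul]
      simp
  -- a maximal commuting subgroup
  obtain ⟨D, hD⟩ := (Set.toFinite {D : Subgroup Γ | D ≤ Ah ∧
    ∀ s ∈ D, ∀ t ∈ D, Commute (ρ s) (ρ t)}).exists_maximal ⟨⊥, by
      refine ⟨bot_le, ?_⟩
      intro s hs t ht
      rw [Subgroup.mem_bot] at hs
      rw [hs, map_one]
      exact Commute.one_left _⟩
  obtain ⟨⟨hDA, hDc⟩, hDmax⟩ := hD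
  have hmax : ∀ y ∈ Ah, (∀ d ∈ D, Commute (ρ y) (ρ d)) → y ∈ D := by
    intro y hy hcy
    have h1 : Subgroup.closure ((D : Set Γ) ∪ {y}) ≤ D := by
      refine hDmax ⟨?_, ?_⟩ ?_
      · rw [Subgroup.closure_le]
        rintro z (hz | hz)
        · exact hDA hz
        · rw [Set.mem_singleton_iff] at hz
          rw [hz]; exact hy
      · refine la_closure ρ ?_
        rintro s (hs | hs) t (ht | ht)
        · exact hDc s hs t ht
        · rw [Set.mem_singleton_iff] at ht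
          rw [ht]; exact (hcy s hs).symm
        · rw [Set.mem_singleton_iff] at hs
          rw [hs]; exact hcy t ht
        · rw [Set.mem_singleton_iff] at hs ht
          rw [hs, ht]
      · intro z hz
        exact Subgroup.subset_closure (Or.inl hz)
    exact h1 (Subgroup.subset_closure (Or.inr rfl))
  -- the orbit of `a` under `D`
  have horb : Nat.card (Set.range fun s : D => (ρ.comp D.subtype) s a) ≤ 3 ^ 9 := by
    refine linA (ρ.comp D.subtype) (fun s t => hDc s s.2 t t.2) a ?_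
    intro s t
    have h := hdep s t (hDA s.2) (hDA t.2) (hDc s s.2 t t.2)
    rw [map_mul] at h
    exact h
  set Db : Subgroup (Γ ⧸ R) := D.map (QuotientGroup.mk' R) with hDb
  have hlift : ∀ z : Db, ∃ d : D, ((d : Γ) : Γ ⧸ R) = z := by
    rintro ⟨z, hz⟩
    obtain ⟨d, hd, rfl⟩ := Subgroup.mem_map.1 hz
    exact ⟨⟨d, hd⟩, rfl⟩
  choose lf hlf using hlift
  have hDbcard : Nat.card Db ≤ 3 ^ 9 := by
    refine le_trans (Nat.card_le_card_of_injective
      (fun z : Db => (⟨(ρ.comp D.subtype) (lf z) a, lf z, rfl⟩ :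
        Set.range fun s : D => (ρ.comp D.subtype) s a)) ?_) horb
    intro z z' h
    have h1 : ρ (lf z : Γ) a = ρ (lf z' : Γ) a := congrArg Subtype.val h
    have h2 : ((lf z : Γ)⁻¹ * (lf z' : Γ)) ∈ lstab ρ a := by
      left
      rw [map_mul, Module.End.mul_apply, ← h1, inv_apply_apply]
    have h3 : (((lf z : Γ)⁻¹ * (lf z' : Γ) : Γ) : Γ ⧸ R) = 1 := by
      refine hreg _ ?_ ⟨_, h2, rfl⟩
      exact (Ah.mul_mem (Ah.inv_mem (hDA (lf z).2)) (hDA (lf z').2) : _ ∈ Ah)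
    have h4 : ((lf z : Γ) : Γ ⧸ R) = ((lf z' : Γ) : Γ ⧸ R) := by
      rw [QuotientGroup.mk_mul, QuotientGroup.mk_inv] at h3
      exact (inv_mul_eq_one.1 h3)
    rw [hlf, hlf] at h4
    exact Subtype.ext h4
  -- lifts of the elements of `A`
  have hliftA : ∀ z : A, ∃ x : Ah, ((x : Γ) : Γ ⧸ R) = z := by
    rintro ⟨z, hz⟩
    obtain ⟨x, rfl⟩ := QuotientGroup.mk'_surjective R z
    exact ⟨⟨x, hz⟩, rfl⟩
  choose la hla using hliftA
  set F : A → (Db → Bool) := fun z d => decide (ρ (la z : Γ) * ρ (lf d : Γ) =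
    ρ (lf d : Γ) * ρ (la z : Γ)) with hF
  have hFib : ∀ z z' : A, F z = F z' → ((z : Γ ⧸ R)⁻¹ * z') ∈ Db := by
    intro z z' h
    have h1 : ∀ d ∈ D, Commute (ρ ((la z : Γ)⁻¹ * (la z' : Γ))) (ρ d) := by
      intro d hd
      -- first for the chosen lift of the class of `d`
      set e : Db := ⟨(d : Γ ⧸ R), ⟨d, hd, rfl⟩⟩ with he
      have h2 : Commute (ρ ((la z : Γ)⁻¹ * (la z' : Γ))) (ρ (lf e : Γ)) := by
        refine la_sign ρ (hsign _ (la z).2 _ (hDA (lf e).2)) (hsign _ (la z').2 _ (hDA (lf e).2)) ?_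
        have h3 := congrFun h e
        simp only [hF] at h3
        exact decide_eq_decide.1 h3
      have h4 : (lf e : Γ)⁻¹ * d ∈ R := by
        rw [← QuotientGroup.eq, hlf]
      have h5 : ρ d = ρ (lf e : Γ) * ρ ((lf e : Γ)⁻¹ * d) := by
        rw [← map_mul]
        congr 1
        group
      rw [h5]
      refine h2.mul_right ?_
      rcases hR' _ h4 with h | h
      · rw [h]; exact Commute.one_right _
      · rw [h]; exact (Commute.one_right _).neg_right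
    have h2 : (la z : Γ)⁻¹ * (la z' : Γ) ∈ D :=
      hmax _ (Ah.mul_mem (Ah.inv_mem (la z).2) (la z').2) h1
    refine ⟨_, h2, ?_⟩
    rw [← hla z, ← hla z']
    rfl
  -- counting
  have hA : Nat.card A ≤ 3 ^ 9 * 2 ^ (3 ^ 9) := by
    have hrep : ∀ f : Db → Bool, ∃ z₀ : A, (∃ z, F z = f) → F z₀ = f := by
      intro f
      by_cases h : ∃ z, F z = f
      · obtain ⟨z, hz⟩ := h
        exact ⟨z, fun _ => hz⟩
      · exact ⟨1, fun h' => absurd h' h⟩
    choose rep hrep using hrep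
    have hmem : ∀ z : A, ((rep (F z) : Γ ⧸ R)⁻¹ * z) ∈ Db := fun z =>
      hFib _ _ (hrep (F z) ⟨z, rfl⟩)
    have hinj : Function.Injective (fun z : A => ((⟨(rep (F z) : Γ ⧸ R)⁻¹ * z, hmem z⟩ : Db), F z)) := by
      intro z z' h
      have h1 : F z = F z' := (Prod.ext_iff.1 h).2
      have h2 : (rep (F z) : Γ ⧸ R)⁻¹ * z = (rep (F z') : Γ ⧸ R)⁻¹ * z' :=
        congrArg Subtype.val (Prod.ext_iff.1 h).1
      rw [h1] at h2
      exact Subtype.ext (mul_left_cancel h2)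
    have h3 := Nat.card_le_card_of_injective _ hinj
    rw [Nat.card_prod, Nat.card_fun, Nat.card_eq_fintype_card (α := Bool), Fintype.card_bool] at h3
    exact h3.trans (Nat.mul_le_mul hDbcard (Nat.pow_le_pow_right two_pos hDbcard))
  refine le_trans ?_ hA
  rw [Subgroup.index]
  refine Nat.card_le_card_of_surjective (fun z : A =>
    ((z : Γ ⧸ R) : (Γ ⧸ R) ⧸ ((lstab ρ a).map (QuotientGroup.mk' R)))) ?_
  intro q
  obtain ⟨g, rfl⟩ := QuotientGroup.mk_surjective q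
  obtain ⟨x, hx, s, hs, rfl⟩ := htr g
  refine ⟨⟨x, hx⟩, ?_⟩
  exact (QuotientGroup.mk_mul_of_mem x hs).symm

end Pool.Agent.H49.St
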