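import Pool.Agent.H49.St.LinB
import Pool.Agent.H49.St.Defs

/-!
# Lifting commuting perfect subgroups

`Γ` finite, acting linearly on `V`, `R` a normal subgroup inside `lstab ρ a` all of whose elements act on `V` as `1` or as `-1`. `N1`, `N2` perfect commuting subgroups of `Γ ⧸ R`.
`S` = image of `lstab ρ a` in `Γ ⧸ R`. If `a, s a, t a, s t a` are dependent for all `s`, `t` over `N1`, `N2` then `[N2 : N2 ⊓ S] ≤ 3^9` or `[N1 : N1 ⊓ S] [N2 : N2 ⊓ S] ≤ 2 [P : S]`.

Proof. `Nh_i = comap N_i`, `M_i = ⁅Nh_i, Nh_i⁆` (subgroups of `Γ`). For `x ∈ Nh_1`, `y ∈ Nh_2` the commutator `x y x⁻¹ y⁻¹` is in `R`, so `ρ x ρ y = c(x,y) ρ y ρ x` with `c(x,y) = ± 1`, multiplicative in `x` for fixed `y`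
(`c` is a scalar): so `c(x, y) = 1` for `x ∈ M_1`, `y ∈ Nh_2` (first for commutators `x = [u,v]`, then closure induction). In particular `M_1` and `M_2` commute on `V` (`M_2 ≤ Nh_2`).
Apply `linB` to the groups `↥M_1`, `↥M_2` (`ρ1 = ρ.comp M_1.subtype`); `mk s ∈ N1` for `s ∈ M_1`.
`commutator ↥M_i` (type level) maps onto `⁅M_i, M_i⁆` in `Γ` and further onto `⁅⁅N_i,N_i⁆, ⁅N_i,N_i⁆⁆ = N_i` in `Γ ⧸ R` (`Subgroup.map_commutator`, `map (comap) = id` by surjectivity).
So for every `n ∈ N_i` there is `m ∈ commutator ↥M_i` over `n`; if `ρ m a = ρ m' a` then `m⁻¹ m' ∈ stab ρ a ≤ lstab ρ a`, so `n⁻¹ n' ∈ S`. Hence `[N_i : N_i ⊓ S] = S.relIndex N_i ≤ |{ρ m a : m ∈ commutator M_i}| ≤ |{ρ m a : m ∈ M_i}|`.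
And `{ρ s (ρ t a)}` is contained in `{ρ g a : g ∈ Γ}` which has `(stab ρ a).index ≤ 2 (lstab ρ a).index = 2 S.index` elements (`index_map`/`R ≤ lstab`).
-/

set_option autoImplicit false

namespace Pool.Agent.H49.St

section Counting

variable {G X : Type*} [Group G] [Finite G]

lemma lb_index_le (H : Subgroup G) (f : G → X) (h : ∀ g g', f g = f g' → g⁻¹ * g' ∈ H) :
    H.index ≤ Nat.card (Set.range f) := by
  have hinj : Function.Injective (fun q : G ⧸ H => (⟨f q.out, q.out, rfl⟩ : Set.range f)) := by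
    intro q q' hqq
    have h1 : f q.out = f q'.out := congrArg Subtype.val hqq
    have h2 := h _ _ h1
    rw [← QuotientGroup.eq] at h2
    rwa [QuotientGroup.out_eq', QuotientGroup.out_eq'] at h2
  have hfin : Finite (Set.range f) := Set.finite_range f
  exact Nat.card_le_card_of_injective _ hinj

lemma lb_range_le (H : Subgroup G) (f : G → X) (h : ∀ g, ∀ k ∈ H, f (g * k) = f g) :
    Nat.card (Set.range f) ≤ H.index := by
  have hsurj : Function.Surjective
      (fun q : G ⧸ H => (⟨f q.out, q.out, rfl⟩ : Set.range f)) := by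
    rintro ⟨_, g, rfl⟩
    refine ⟨(g : G ⧸ H), ?_⟩
    apply Subtype.ext
    simp only
    have h1 : g⁻¹ * (g : G ⧸ H).out ∈ H := by
      rw [← QuotientGroup.eq, QuotientGroup.out_eq']
    have h2 := h g _ h1
    rw [mul_inv_cancel_left] at h2
    exact h2
  exact Nat.card_le_card_of_surjective _ hsurj

end Counting

section Commute

variable {G V : Type*} [Group G] [AddCommGroup V] [Module ℚ V]

lemma lb_comm {ρ : G →* Module.End ℚ V} {Y : Module.End ℚ V} {u v : G} {ε δ : ℚ}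
    (hε : ε * ε = 1) (hδ : δ * δ = 1) (hu : ρ u * Y = ε • (Y * ρ u))
    (hv : ρ v * Y = δ • (Y * ρ v)) :
    ρ (u * v * u⁻¹ * v⁻¹) * Y = Y * ρ (u * v * u⁻¹ * v⁻¹) := by
  have key : ∀ (w : G) (η : ℚ), η * η = 1 → ρ w * Y = η • (Y * ρ w) →
      ρ w⁻¹ * Y = η • (Y * ρ w⁻¹) := by
    intro w η hη hw
    have h1 : ρ w⁻¹ * ρ w = 1 := by rw [← map_mul, inv_mul_cancel, map_one]
    have h2 : ρ w * ρ w⁻¹ = 1 := by rw [← map_mul, mul_inv_cancel, map_one]
    have h3 : ρ w⁻¹ * (ρ w * Y) * ρ w⁻¹ = η • (ρ w⁻¹ * Y) := by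
      rw [hw, mul_smul_comm, smul_mul_assoc, mul_assoc, mul_assoc, h2, mul_one]
    rw [← mul_assoc, h1, one_mul] at h3
    rw [h3, smul_smul, hη, one_smul]
  have hu' := key u ε hε hu
  have hv' := key v δ hδ hv
  rw [map_mul, map_mul, map_mul]
  calc ρ u * ρ v * ρ u⁻¹ * ρ v⁻¹ * Y = ρ u * ρ v * ρ u⁻¹ * (ρ v⁻¹ * Y) := by rw [mul_assoc]
    _ = δ • (ρ u * ρ v * (ρ u⁻¹ * Y) * ρ v⁻¹) := by
        rw [hv', mul_smul_comm]; simp only [mul_assoc]
    _ = (δ * ε) • (ρ u * (ρ v * Y) * ρ u⁻¹ * ρ v⁻¹) := by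
        rw [hu', mul_smul_comm, smul_mul_assoc, smul_smul]; simp only [mul_assoc]
    _ = (δ * ε * δ) • ((ρ u * Y) * ρ v * ρ u⁻¹ * ρ v⁻¹) := by
        rw [hv, mul_smul_comm, smul_mul_assoc, smul_mul_assoc, smul_smul]; simp only [mul_assoc]
    _ = (δ * ε * δ * ε) • (Y * ρ u * ρ v * ρ u⁻¹ * ρ v⁻¹) := by
        rw [hu, smul_mul_assoc, smul_mul_assoc, smul_mul_assoc, smul_smul]
    _ = Y * (ρ u * ρ v * ρ u⁻¹ * ρ v⁻¹) := by
        have h1 : δ * ε * δ * ε = 1 := by
          calc δ * ε * δ * ε = (δ * δ) * (ε * ε) := by ring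
            _ = 1 := by rw [hε, hδ, one_mul]
        rw [h1, one_smul]
        simp only [mul_assoc]

/-- elements commuting with `Y` -/
def lbCent (ρ : G →* Module.End ℚ V) (T : Set G) : Subgroup G where
  carrier := {x | ∀ y ∈ T, ρ x * ρ y = ρ y * ρ x}
  mul_mem' := by
    intro g h hg hh y hy
    rw [map_mul, mul_assoc, hh y hy, ← mul_assoc, hg y hy, mul_assoc]
  one_mem' := by
    intro y _
    rw [map_one, one_mul, mul_one]
  inv_mem' := by
    intro g hg y hy
    have h := hg y hy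
    have h1 : ρ g⁻¹ * ρ g = 1 := by rw [← map_mul, inv_mul_cancel, map_one]
    have h2 : ρ g * ρ g⁻¹ = 1 := by rw [← map_mul, mul_inv_cancel, map_one]
    calc ρ g⁻¹ * ρ y = ρ g⁻¹ * (ρ y * ρ g) * ρ g⁻¹ := by
          rw [mul_assoc, mul_assoc, h2, mul_one]
      _ = ρ y * ρ g⁻¹ := by
          rw [← h, ← mul_assoc, h1, one_mul]

end Commute

section Cover

variable {Γ V : Type*} [Group Γ] [Finite Γ] [AddCommGroup V] [Module ℚ V]

lemma lb_cover (R : Subgroup Γ) [R.Normal] (N : Subgroup (Γ ⧸ R)) (h1 : ⁅N, N⁆ = N) :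
    (commutator (⁅N.comap (QuotientGroup.mk' R), N.comap (QuotientGroup.mk' R)⁆ :
      Subgroup Γ)).map ((QuotientGroup.mk' R).comp
      (⁅N.comap (QuotientGroup.mk' R), N.comap (QuotientGroup.mk' R)⁆ : Subgroup Γ).subtype) =
      N := by
  have hm : (N.comap (QuotientGroup.mk' R)).map (QuotientGroup.mk' R) = N :=
    Subgroup.map_comap_eq_self_of_surjective (QuotientGroup.mk'_surjective R) N
  rw [← Subgroup.map_map, commutator_def, Subgroup.map_commutator, ← MonoidHom.range_eq_map,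
    Subgroup.range_subtype, Subgroup.map_commutator, Subgroup.map_commutator, hm, h1, h1]

lemma lb_rel (ρ : Γ →* Module.End ℚ V) (a : V)
    (R : Subgroup Γ) [R.Normal] (N : Subgroup (Γ ⧸ R)) (h1 : ⁅N, N⁆ = N) (M : Subgroup Γ)
    (hM : M = ⁅N.comap (QuotientGroup.mk' R), N.comap (QuotientGroup.mk' R)⁆) :
    ((lstab ρ a).map (QuotientGroup.mk' R)).relIndex N ≤
      Nat.card (Set.range fun s : commutator M => (ρ.comp M.subtype) s a) := by
  subst hM
  set M : Subgroup Γ := ⁅N.comap (QuotientGroup.mk' R), N.comap (QuotientGroup.mk' R)⁆ with hM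
  have hc := lb_cover R N h1
  rw [← hM] at hc
  have hex : ∀ n : N, ∃ m : commutator M, QuotientGroup.mk' R (m.1 : Γ) = n.1 := by
    intro n
    have h2 : n.1 ∈ (commutator M).map ((QuotientGroup.mk' R).comp M.subtype) := by
      rw [hc]; exact n.2
    obtain ⟨m, hm, hmn⟩ := h2
    exact ⟨⟨m, hm⟩, hmn⟩
  choose m hm using hex
  have h3 : ((lstab ρ a).map (QuotientGroup.mk' R)).relIndex N ≤
      Nat.card (Set.range fun n : N => (ρ.comp M.subtype) (m n) a) := by
    refine lb_index_le _ _ fun g g' hgg => ?_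
    simp only [MonoidHom.comp_apply, Subgroup.subtype_apply] at hgg
    rw [Subgroup.mem_subgroupOf]
    refine ⟨((m g).1 : Γ)⁻¹ * ((m g').1 : Γ), ?_, ?_⟩
    · apply stab_le_lstab
      rw [mem_stab, map_mul, Module.End.mul_apply, ← hgg, inv_apply_apply]
    · rw [map_mul, map_inv, hm, hm]
      rfl
  refine h3.trans ?_
  refine Nat.card_mono (Set.toFinite _) ?_
  rintro _ ⟨n, rfl⟩
  exact ⟨m n, rfl⟩

end Cover

theorem liftB {Γ V : Type*} [Group Γ] [Finite Γ] [AddCommGroup V] [Module ℚ V] (ρ : Γ →* Module.End ℚ V) (a : V)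
    (R : Subgroup Γ) [R.Normal] (hRS : R ≤ lstab ρ a)
    (hR : ∀ r ∈ R, (∀ v, ρ r v = v) ∨ (∀ v, ρ r v = - v)) (N1 N2 : Subgroup (Γ ⧸ R))
    (hc : ∀ x ∈ N1, ∀ y ∈ N2, x * y = y * x) (h1 : ⁅N1, N1⁆ = N1) (h2 : ⁅N2, N2⁆ = N2)
    (hdep : ∀ s t : Γ, (s : Γ ⧸ R) ∈ N1 → (t : Γ ⧸ R) ∈ N2 →
      ¬ LinearIndependent ℚ ![a, ρ s a, ρ t a, ρ (s * t) a]) :
    ((lstab ρ a).map (QuotientGroup.mk' R)).relIndex N2 ≤ 3 ^ 9 ∨
      ((lstab ρ a).map (QuotientGroup.mk' R)).relIndex N1 * ((lstab ρ a).map (QuotientGroup.mk' R)).relIndex N2 ≤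
        2 * ((lstab ρ a).map (QuotientGroup.mk' R)).index := by
  set N1h := N1.comap (QuotientGroup.mk' R) with hN1h
  set N2h := N2.comap (QuotientGroup.mk' R) with hN2h
  set M1 : Subgroup Γ := ⁅N1h, N1h⁆ with hM1
  set M2 : Subgroup Γ := ⁅N2h, N2h⁆ with hM2
  have hself : ∀ H : Subgroup Γ, ⁅H, H⁆ ≤ H := by
    intro H
    rw [Subgroup.commutator_le]
    intro g hg g' hg'
    rw [commutatorElement_def]
    exact H.mul_mem (H.mul_mem (H.mul_mem hg hg') (H.inv_mem hg)) (H.inv_mem hg')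
  have hM1N : M1 ≤ N1h := hself _
  have hM2N : M2 ≤ N2h := hself _
  -- signs
  have hsign : ∀ x ∈ N1h, ∀ y ∈ N2h, ∃ ε : ℚ, ε * ε = 1 ∧ ρ x * ρ y = ε • (ρ y * ρ x) := by
    intro x hx y hy
    have h3 : x * y * (y * x)⁻¹ ∈ R := by
      rw [← QuotientGroup.eq_one_iff]
      have h4 := hc _ hx _ hy
      have h5 : ((x * y * (y * x)⁻¹ : Γ) : Γ ⧸ R) =
          (QuotientGroup.mk' R x * QuotientGroup.mk' R y) *
            (QuotientGroup.mk' R y * QuotientGroup.mk' R x)⁻¹ := by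
        rw [← map_mul, ← map_mul, ← map_inv, ← map_mul]
        rfl
      rw [h5, h4, mul_inv_cancel]
    have h4 : ρ x * ρ y = ρ (x * y * (y * x)⁻¹) * (ρ y * ρ x) := by
      rw [← map_mul, ← map_mul, ← map_mul, inv_mul_cancel_right]
    rcases hR _ h3 with h5 | h5
    · refine ⟨1, by norm_num, ?_⟩
      rw [h4, one_smul]
      ext v
      rw [Module.End.mul_apply, h5]
    · refine ⟨-1, by norm_num, ?_⟩
      rw [h4, neg_one_smul]
      ext v
      rw [Module.End.mul_apply, h5]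
      rfl
  have hcomm : M1 ≤ lbCent ρ (N2h : Set Γ) := by
    rw [hM1, Subgroup.commutator_le]
    intro u hu v hv y hy
    obtain ⟨ε, hε, hεu⟩ := hsign u hu y hy
    obtain ⟨δ, hδ, hδv⟩ := hsign v hv y hy
    rw [commutatorElement_def]
    exact lb_comm hε hδ hεu hδv
  have hL := linB (ρ.comp M1.subtype) (ρ.comp M2.subtype)
    (fun s t => hcomm s.2 t.1 (hM2N t.2)) a (fun s t => by
      have h3 := hdep s.1 t.1 (hM1N s.2) (hM2N t.2)
      rw [map_mul] at h3
      exact h3)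
  have hr1 := lb_rel ρ a R N1 h1 M1 hM1
  have hr2 := lb_rel ρ a R N2 h2 M2 hM2
  rcases hL with hL | hL
  · left
    refine hr2.trans (le_trans ?_ hL)
    refine Nat.card_mono (Set.toFinite _) ?_
    rintro _ ⟨n, rfl⟩
    exact ⟨n, rfl⟩
  · right
    refine (Nat.mul_le_mul hr1 hr2).trans (hL.trans ?_)
    have h3 : Nat.card (Set.range fun p : commutator M1 × commutator M2 =>
        (ρ.comp M1.subtype) p.1 ((ρ.comp M2.subtype) p.2 a)) ≤
        Nat.card (Set.range fun g : Γ => ρ g a) := by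
      refine Nat.card_mono (Set.toFinite _) ?_
      rintro _ ⟨p, rfl⟩
      refine ⟨(p.1.1 : Γ) * (p.2.1 : Γ), ?_⟩
      show ρ ((p.1.1 : Γ) * (p.2.1 : Γ)) a = ρ (p.1.1 : Γ) (ρ (p.2.1 : Γ) a)
      rw [map_mul]
      rfl
    have h4 : Nat.card (Set.range fun g : Γ => ρ g a) ≤ (stab ρ a).index := by
      refine lb_range_le _ _ fun g k hk => ?_
      rw [mem_stab] at hk
      rw [map_mul, Module.End.mul_apply, hk]
    have h5 : (stab ρ a).index = (stab ρ a).relIndex (lstab ρ a) * (lstab ρ a).index :=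
      (Subgroup.relIndex_mul_index stab_le_lstab).symm
    have h6 : (stab ρ a).relIndex (lstab ρ a) ≤ 2 := by
      refine (lb_index_le ((stab ρ a).subgroupOf (lstab ρ a))
        (fun l : lstab ρ a => ρ l.1 a) ?_).trans ?_
      · intro g g' hgg
        rw [Subgroup.mem_subgroupOf, mem_stab]
        simp only [Subgroup.coe_mul, Subgroup.coe_inv] at hgg ⊢
        rw [map_mul, Module.End.mul_apply, ← hgg, inv_apply_apply]
      · have h7 : Nat.card (Set.range fun l : lstab ρ a => ρ l.1 a) ≤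
            Nat.card ({a, -a} : Set V) := by
          refine Nat.card_mono (Set.toFinite _) ?_
          rintro _ ⟨l, rfl⟩
          rcases mem_lstab.1 l.2 with h | h
          · exact Or.inl h
          · exact Or.inr h
        refine h7.trans ?_
        rw [Nat.card_coe_set_eq]
        exact (Set.ncard_insert_le _ _).trans (by rw [Set.ncard_singleton])
    have h8 : ((lstab ρ a).map (QuotientGroup.mk' R)).index = (lstab ρ a).index :=
      Subgroup.index_map_eq _ (QuotientGroup.mk'_surjective R) (by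
        rw [QuotientGroup.ker_mk']; exact hRS)
    rw [h8]
    refine h3.trans (h4.trans ?_)
    rw [h5]
    exact Nat.mul_le_mul_right _ h6

end Pool.Agent.H49.St
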