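import Pool.Agent.H49.St.Defs

/-!
# The kernel acts by signs

`Γ` finite group acting linearly on `V`, `a ≠ 0`, `S = lstab ρ a` (the stabiliser of `{a, -a}`) a maximal subgroup, `R` its normal core (the kernel of `Γ` on the lines `± g a`).
Then either every `r ∈ R` acts by ONE sign on all `g a`, or vectors `g_i a` in different lines are always linearly independent.

Proof. For `r ∈ R`, `g ∈ Γ`: `g⁻¹ r g ∈ R ≤ S`, so `r (g a) = g (g⁻¹ r g a) = χ(g⁻¹ r g) g a`, where `χ : R → {± 1}`, `r a = χ(r) a`. Let `D0 = {g | ∀ r ∈ R, ρ r (ρ g a) = ρ g a ↔ ρ r a = a}`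
(the stabiliser of the character `χ`). It is a subgroup: `g ∈ D0` iff `χ(g⁻¹ r g) = χ(r)` for all `r ∈ R`. It contains `S` (`h a = ± a` for `h ∈ S`, so `r h a = ± r a`). By maximality `D0 = S` or `D0 = ⊤`.
`D0 = ⊤`: first alternative. `D0 = S`: if `g⁻¹ g' ∉ S` then the characters `r ↦` (sign of `r` on `g a`), (sign on `g' a`) are different (translate by `g`): there is `r ∈ R` acting on `g a` and `g' a` by different signs.
So for `g_0..g_3` with `g_i⁻¹ g_j ∉ S` (`i ≠ j`) the vectors `v_i = g_i a` are nonzero, all `r ∈ R` act on each `v_i` by a sign, and for `i ≠ j` some `r` has different signs on `v_i`, `v_j`. Linear independence: otherwise take a relation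
`∑ c_i v_i = 0` with minimal nonempty support; it has two elements `i ≠ j` in the support (the `v_i` are nonzero); apply `r` and subtract `± ` the relation: a smaller nonempty support, contradiction. (Or use the projections `(1/|R|) ∑ χ_i(r) r`.)
-/

set_option autoImplicit false

namespace Pool.Agent.H49.St

/-- Vectors on which operators act by separating scalars are independent. -/
theorem linInd_of_scalars {ι V : Type*} [AddCommGroup V] [Module ℚ V] (v : ι → V)
    (hv : ∀ i, v i ≠ 0)
    (h : ∀ i j, i ≠ j → ∃ (T : Module.End ℚ V) (χ : ι → ℚ), (∀ k, T (v k) = χ k • v k) ∧ χ i ≠ χ j) :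
    LinearIndependent ℚ v := by
  classical
  rw [linearIndependent_iff']
  intro s
  induction s using Finset.induction_on with
  | empty => intro c _ i hi; simp at hi
  | insert i s his ih =>
    intro c hc
    have hzero : ∀ j ∈ s, c j = 0 := by
      intro j hj
      have hij : i ≠ j := by rintro rfl; exact his hj
      obtain ⟨T, χ, hT, hχ⟩ := h i j hij
      have h1 : ∑ k ∈ insert i s, (c k * (χ k - χ i)) • v k = 0 := by
        have e1 : T (∑ k ∈ insert i s, c k • v k) - χ i • (∑ k ∈ insert i s, c k • v k) = 0 := by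
          rw [hc]; simp
        rw [map_sum, Finset.smul_sum, ← Finset.sum_sub_distrib] at e1
        rw [← e1]
        refine Finset.sum_congr rfl fun k _ => ?_
        rw [map_smul, hT k, smul_smul, smul_smul, ← sub_smul]
        congr 1
        ring
      rw [Finset.sum_insert his, sub_self, mul_zero, zero_smul, zero_add] at h1
      have h2 := ih (fun k => c k * (χ k - χ i)) h1 j hj
      rcases mul_eq_zero.1 h2 with h3 | h3
      · exact h3
      · exact absurd (sub_eq_zero.1 h3).symm hχ
    intro j hj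
    rcases Finset.mem_insert.1 hj with rfl | hj
    · rw [Finset.sum_insert his, Finset.sum_eq_zero (fun k hk => by rw [hzero k hk, zero_smul]),
        add_zero] at hc
      exact (smul_eq_zero.1 hc).resolve_right (hv _)
    · exact hzero j hj

section

variable {Γ V : Type*} [Group Γ] [AddCommGroup V] [Module ℚ V] (ρ : Γ →* Module.End ℚ V)

/-- `r` fixes `g x` iff `g⁻¹ r g` fixes `x`. -/
theorem conj_fix_iff (r g : Γ) (x : V) : ρ r (ρ g x) = ρ g x ↔ ρ (g⁻¹ * r * g) x = x := by
  have e : ρ (g⁻¹ * r * g) x = ρ g⁻¹ (ρ r (ρ g x)) := by simp [map_mul, Module.End.mul_apply]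
  rw [e]
  constructor
  · intro h
    rw [h, inv_apply_apply]
  · intro h
    rw [← apply_inv_apply ρ g (ρ r (ρ g x)), h]

/-- The stabiliser of the sign character of the kernel. -/
def signStab (a : V) : Subgroup Γ where
  carrier := {g | ∀ r ∈ (lstab ρ a).normalCore, (ρ r (ρ g a) = ρ g a ↔ ρ r a = a)}
  mul_mem' := by
    intro g h hg hh r hr
    have hN : ∀ r ∈ (lstab ρ a).normalCore, g⁻¹ * r * g ∈ (lstab ρ a).normalCore := by
      intro r hr
      have := (Subgroup.normalCore_normal (lstab ρ a)).conj_mem r hr g⁻¹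
      simpa using this
    have e : ρ (g * h) a = ρ g (ρ h a) := by rw [map_mul]; rfl
    rw [e, conj_fix_iff ρ r g (ρ h a), hh _ (hN r hr), ← conj_fix_iff ρ r g a]
    exact hg r hr
  one_mem' := by
    intro r _
    simp
  inv_mem' := by
    intro g hg r hr
    have hN : g * r * g⁻¹ ∈ (lstab ρ a).normalCore :=
      (Subgroup.normalCore_normal (lstab ρ a)).conj_mem r hr g
    have h1 := hg _ hN
    rw [conj_fix_iff ρ (g * r * g⁻¹) g a] at h1
    rw [conj_fix_iff ρ r g⁻¹ a, inv_inv]
    have e : g⁻¹ * (g * r * g⁻¹) * g = r := by group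
    rw [e] at h1
    exact h1.symm

theorem mem_signStab {a : V} {g : Γ} : g ∈ signStab ρ a ↔
    ∀ r ∈ (lstab ρ a).normalCore, (ρ r (ρ g a) = ρ g a ↔ ρ r a = a) := Iff.rfl

theorem lstab_le_signStab (a : V) : lstab ρ a ≤ signStab ρ a := by
  intro h hh r _
  rcases hh with hh | hh
  · rw [hh]
  · rw [hh, map_neg, neg_inj]

/-- The kernel acts on every translate by a sign. -/
theorem core_sign (a : V) (r : Γ) (hr : r ∈ (lstab ρ a).normalCore) (g : Γ) :
    ρ r (ρ g a) = ρ g a ∨ ρ r (ρ g a) = - ρ g a := by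
  have hN : g⁻¹ * r * g ∈ (lstab ρ a).normalCore := by
    have := (Subgroup.normalCore_normal (lstab ρ a)).conj_mem r hr g⁻¹
    simpa using this
  have e : ρ (g⁻¹ * r * g) a = ρ g⁻¹ (ρ r (ρ g a)) := by simp [map_mul, Module.End.mul_apply]
  rcases (Subgroup.normalCore_le _ hN : ρ (g⁻¹ * r * g) a = a ∨ ρ (g⁻¹ * r * g) a = -a) with h | h
  · exact Or.inl ((conj_fix_iff ρ r g a).2 h)
  · right
    rw [e] at h
    rw [← apply_inv_apply ρ g (ρ r (ρ g a)), h, map_neg]

end

/-- Signs of the kernel: all equal, or lines in general position. -/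
theorem signs {Γ V : Type*} [Group Γ] [Finite Γ] [AddCommGroup V] [Module ℚ V] (ρ : Γ →* Module.End ℚ V)
    (a : V) (ha : a ≠ 0) (hmax : IsCoatom (lstab ρ a)) :
    (∀ r ∈ (lstab ρ a).normalCore, (∀ g, ρ r (ρ g a) = ρ g a) ∨ (∀ g, ρ r (ρ g a) = - ρ g a)) ∨
      (∀ g : Fin 4 → Γ, (∀ i j, i ≠ j → (g i)⁻¹ * g j ∉ lstab ρ a) →
        LinearIndependent ℚ (fun i => ρ (g i) a)) := by
  classical
  rcases hmax.le_iff.1 (lstab_le_signStab ρ a) with htop | hS
  · left
    intro r hr
    by_cases h : ρ r a = a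
    · left
      intro g
      have hg : g ∈ signStab ρ a := by rw [htop]; trivial
      exact (hg r hr).2 h
    · right
      intro g
      have hg : g ∈ signStab ρ a := by rw [htop]; trivial
      rcases core_sign ρ a r hr g with h1 | h1
      · exact absurd ((hg r hr).1 h1) h
      · exact h1
  · right
    intro g hg
    have hne : ∀ i, ρ (g i) a ≠ 0 := by
      intro i h0
      apply ha
      rw [← inv_apply_apply ρ (g i) a, h0, map_zero]
    refine linInd_of_scalars _ hne ?_
    intro i j hij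
    have hnot : (g i)⁻¹ * g j ∉ signStab ρ a := by rw [hS]; exact hg i j hij
    rw [mem_signStab] at hnot
    push Not at hnot
    obtain ⟨r', hr', hr2⟩ := hnot
    have hr : g i * r' * (g i)⁻¹ ∈ (lstab ρ a).normalCore :=
      (Subgroup.normalCore_normal (lstab ρ a)).conj_mem r' hr' (g i)
    refine ⟨ρ (g i * r' * (g i)⁻¹), fun k =>
      if ρ (g i * r' * (g i)⁻¹) (ρ (g k) a) = ρ (g k) a then 1 else -1, ?_, ?_⟩
    · intro k
      dsimp only
      by_cases hk : ρ (g i * r' * (g i)⁻¹) (ρ (g k) a) = ρ (g k) a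
      · rw [if_pos hk, one_smul, hk]
      · rw [if_neg hk, neg_smul, one_smul]
        exact (core_sign ρ a _ hr (g k)).resolve_left hk
    · have ei : ρ (g i * r' * (g i)⁻¹) (ρ (g i) a) = ρ (g i) a ↔ ρ r' a = a := by
        rw [conj_fix_iff]
        have e : (g i)⁻¹ * (g i * r' * (g i)⁻¹) * g i = r' := by group
        rw [e]
      have ej : ρ (g i * r' * (g i)⁻¹) (ρ (g j) a) = ρ (g j) a ↔
          ρ r' (ρ ((g i)⁻¹ * g j) a) = ρ ((g i)⁻¹ * g j) a := by
        rw [conj_fix_iff, conj_fix_iff]
        have e : (g j)⁻¹ * (g i * r' * (g i)⁻¹) * g j = ((g i)⁻¹ * g j)⁻¹ * r' * ((g i)⁻¹ * g j) := by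
          group
        rw [e]
      intro heq
      dsimp only at heq
      have hne2 : ¬ ((ρ (g i * r' * (g i)⁻¹) (ρ (g i) a) = ρ (g i) a) ↔
          (ρ (g i * r' * (g i)⁻¹) (ρ (g j) a) = ρ (g j) a)) := by
        rw [ei, ej]
        tauto
      by_cases h1 : ρ (g i * r' * (g i)⁻¹) (ρ (g i) a) = ρ (g i) a <;>
        by_cases h2 : ρ (g i * r' * (g i)⁻¹) (ρ (g j) a) = ρ (g j) a
      · exact hne2 ⟨fun _ => h2, fun _ => h1⟩
      · rw [if_pos h1, if_neg h2] at heq; norm_num at heq
      · rw [if_neg h1, if_pos h2] at heq; norm_num at heq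
      · exact hne2 ⟨fun h => absurd h h1, fun h => absurd h h2⟩

end Pool.Agent.H49.St
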