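import Pool.Agent.H49.St.Tri
import Pool.Agent.H49.St.LiftA
import Pool.Agent.H49.St.LiftB
import Pool.Agent.H49.St.Signs
import Pool.Agent.H49.St.Index

/-!
# The primitive case: assembly
-/

set_option autoImplicit false

namespace Pool.Agent.H49.St

section

variable {Γ V : Type*} [Group Γ] [Finite Γ] [AddCommGroup V] [Module ℚ V]

/-- `a` and `ρ s a` are independent unless `s` fixes the line. -/
theorem li_pair (ρ : Γ →* Module.End ℚ V) {a : V} (ha : a ≠ 0) {s : Γ} (hs : s ∉ lstab ρ a) :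
    LinearIndependent ℚ ![a, ρ s a] := by
  rw [LinearIndependent.pair_iff' ha]
  intro c hc
  apply hs
  have hpow : ∀ k : ℕ, ρ (s ^ k) a = c ^ k • a := by
    intro k
    induction k with
    | zero => simp
    | succ k ih =>
      rw [pow_succ', map_mul, Module.End.mul_apply, ih, map_smul, ← hc, smul_smul, pow_succ]
  have h1 := hpow (orderOf s)
  rw [pow_orderOf_eq_one, map_one, Module.End.one_apply] at h1
  have h2 : c ^ orderOf s = 1 := by
    by_contra hne
    have h3 : (c ^ orderOf s - 1) • a = 0 := by rw [sub_smul, one_smul, ← h1, sub_self]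
    rcases smul_eq_zero.mp h3 with h4 | h4
    · exact hne (by linarith)
    · exact ha h4
  have h5 : |c| = 1 := by
    have h6 : |c| ^ orderOf s = 1 := by rw [← abs_pow, h2, abs_one]
    exact (pow_eq_one_iff_of_nonneg (abs_nonneg c) (orderOf_pos s).ne').mp h6
  rw [mem_lstab, ← hc]
  rcases (abs_eq zero_le_one).mp h5 with h7 | h7
  · left; rw [h7, one_smul]
  · right; rw [h7, neg_smul, one_smul]

end

section

variable {P : Type*} [Group P] [Finite P]

/-- The image of `N` in `P ⧸ S` has `S.relIndex N` elements. -/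
theorem card_image_mk (S N : Subgroup P) :
    Nat.card ((fun g : P => (g : P ⧸ S)) '' (N : Set P)) = S.relIndex N := by
  rw [Subgroup.relIndex, Subgroup.index]
  symm
  refine Nat.card_congr (Equiv.ofBijective (fun x => Quotient.liftOn' x
    (fun g : N => (⟨((g : P) : P ⧸ S), ⟨(g : P), g.2, rfl⟩⟩ :
      ((fun g : P => (g : P ⧸ S)) '' (N : Set P)))) ?_) ⟨?_, ?_⟩)
  · intro g h hgh
    apply Subtype.ext
    have := QuotientGroup.leftRel_apply.mp hgh
    rw [Subgroup.mem_subgroupOf] at this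
    exact QuotientGroup.eq.mpr (by simpa using this)
  · intro x y
    induction x using Quotient.inductionOn' with
    | h g =>
      induction y using Quotient.inductionOn' with
      | h h' =>
        intro h
        have h1 := congrArg Subtype.val h
        simp only [Quotient.liftOn'_mk''] at h1
        have h2 := QuotientGroup.eq.mp h1
        apply Quotient.sound'
        rw [QuotientGroup.leftRel_apply, Subgroup.mem_subgroupOf]
        simpa using h2
  · rintro ⟨y, g, hg, rfl⟩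
    exact ⟨Quotient.mk'' ⟨g, hg⟩, rfl⟩

/-- With more than three points in the orbit one can avoid three of them. -/
theorem exists_avoid {S N : Subgroup P} (h : 3 < S.relIndex N) (u v w : P) :
    ∃ t ∈ N, u⁻¹ * t ∉ S ∧ v⁻¹ * t ∉ S ∧ w⁻¹ * t ∉ S := by
  by_contra hcon
  push Not at hcon
  have hsub : (fun g : P => (g : P ⧸ S)) '' (N : Set P) ⊆ {(u : P ⧸ S), (v : P ⧸ S), (w : P ⧸ S)} := by
    rintro _ ⟨t, ht, rfl⟩
    by_cases h1 : u⁻¹ * t ∈ S
    · left
      exact (QuotientGroup.eq.mpr h1).symm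
    · by_cases h2 : v⁻¹ * t ∈ S
      · right; left
        exact (QuotientGroup.eq.mpr h2).symm
      · right; right
        exact (QuotientGroup.eq.mpr (hcon t ht h1 h2)).symm
  have h3 : Nat.card ((fun g : P => (g : P ⧸ S)) '' (N : Set P)) ≤
      Nat.card ({(u : P ⧸ S), (v : P ⧸ S), (w : P ⧸ S)} : Set (P ⧸ S)) :=
    Nat.card_mono (Set.toFinite _) hsub
  have h4 : Nat.card ({(u : P ⧸ S), (v : P ⧸ S), (w : P ⧸ S)} : Set (P ⧸ S)) ≤ 3 := by
    rw [Nat.card_coe_set_eq]
    have h5 := Set.ncard_insert_le (u : P ⧸ S) {(v : P ⧸ S), (w : P ⧸ S)}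
    have h6 := Set.ncard_insert_le (v : P ⧸ S) {(w : P ⧸ S)}
    have h7 := Set.ncard_singleton (w : P ⧸ S)
    omega
  rw [card_image_mk] at h3
  omega

end

section

variable {Γ V : Type*} [Group Γ] [Finite Γ] [AddCommGroup V] [Module ℚ V]

/-- The primitive case. -/
theorem gamma (ρ : Γ →* Module.End ℚ V) (a : V) (ha : a ≠ 0)
    (hspan : Submodule.span ℚ (Set.range fun g => ρ g a) = ⊤) (hmax : IsCoatom (lstab ρ a)) (X2 X4 q0 : ℝ)
    (H2 : ∀ s, LinearIndependent ℚ ![a, ρ s a] → X2 < ((stab ρ a ⊓ stab ρ (ρ s a)).index : ℝ))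
    (H4 : ∀ s t u, LinearIndependent ℚ ![a, ρ s a, ρ t a, ρ u a] →
      X4 < ((stab ρ a ⊓ stab ρ (ρ s a) ⊓ stab ρ (ρ t a) ⊓ stab ρ (ρ u a)).index : ℝ))
    (h4 : 16 * (((2 * Nat.log 2 (lstab ρ a).index) ^ 2 : ℕ) : ℝ) * ((lstab ρ a).index : ℝ) ^ 3 ≤ X4)
    (h2 : 4 * (((2 * Nat.log 2 (lstab ρ a).index) ^ 2 : ℕ) : ℝ) * ((lstab ρ a).index : ℝ) * q0 ≤ X2)
    (hq : (3 : ℝ) ^ 9 ≤ q0) (hqb : 2 * ((lstab ρ a).index : ℝ) ≤ q0 ^ 2)
    (hb : 3 ^ 9 * 2 ^ (3 ^ 9) < (lstab ρ a).index) :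
    AlmostSimple (Γ ⧸ (lstab ρ a).normalCore) := by
  set S0 := lstab ρ a with hS0
  have hRS : S0.normalCore ≤ S0 := Subgroup.normalCore_le S0
  set R := S0.normalCore with hRdef
  set S := S0.map (QuotientGroup.mk' R) with hSdef
  have hbS : S.index = S0.index := index_quot R S0 hRS
  have hSco : IsCoatom S := coatom_quot R S0 hRS hmax
  have hScore : S.normalCore = ⊥ := core_quot S0
  set b := S0.index with hbdef
  set L : ℕ := (2 * Nat.log 2 b) ^ 2 with hLdef
  have hq0pos : (0 : ℝ) < q0 := lt_of_lt_of_le (by positivity) hq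
  -- key claim on orbits
  have K2 : ∀ P1 N : Subgroup (Γ ⧸ R), P1.index ≤ L → (∀ g ∈ P1, ∀ x ∈ N, g * x * g⁻¹ ∈ N) → ¬ N ≤ S →
      q0 < (S.relIndex N : ℝ) := by
    intro P1 N hP1 hN hNS
    obtain ⟨x, hxN, hxS⟩ := SetLike.not_le_iff_exists.mp hNS
    obtain ⟨s, rfl⟩ := QuotientGroup.mk_surjective x
    have hs : s ∉ S0 := fun h => hxS ⟨s, h, rfl⟩
    have e1 := H2 s (li_pair ρ ha hs)
    have e2 := index_pair_le ρ a s
    rw [← hS0, index_pair_quot R S0 hRS s, ← hSdef] at e2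
    have e3 := count2 (S := S) hN hxN
    rw [hbS] at e3
    have e4 : (stab ρ a ⊓ stab ρ (ρ s a)).index ≤ 4 * (L * b * S.relIndex N) :=
      e2.trans (Nat.mul_le_mul_left 4 (e3.trans (Nat.mul_le_mul_right _ (Nat.mul_le_mul_right _ hP1))))
    have e5 : ((stab ρ a ⊓ stab ρ (ρ s a)).index : ℝ) ≤ 4 * ((L : ℝ) * b * S.relIndex N) := by
      exact_mod_cast e4
    by_contra hcon
    push Not at hcon
    have e6 : 4 * ((L : ℝ) * b * S.relIndex N) ≤ 4 * (L : ℝ) * b * q0 := by
      have : (0 : ℝ) ≤ 4 * (L : ℝ) * b := by positivity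
      nlinarith
    linarith
  -- key claim on quadruples
  have K4 : ∀ P1 N1 N2 : Subgroup (Γ ⧸ R), P1.index ≤ L → (∀ g ∈ P1, ∀ x ∈ N1, g * x * g⁻¹ ∈ N1) →
      (∀ g ∈ P1, ∀ x ∈ N2, g * x * g⁻¹ ∈ N2) → (∀ x ∈ N1, ∀ y ∈ N2, x * y = y * x) →
      ∀ s t : Γ, (s : Γ ⧸ R) ∈ N1 → (t : Γ ⧸ R) ∈ N2 →
        ¬ LinearIndependent ℚ ![a, ρ s a, ρ t a, ρ (s * t) a] := by
    intro P1 N1 N2 hP1 hN1 hN2 hc s t hs ht hli
    have e1 := H4 s t (s * t) hli
    have e2 := index_quad_le ρ a s t (s * t)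
    rw [← hS0, index_quad_quot R S0 hRS s t (s * t), ← hSdef] at e2
    have e3 := count4 (S := S) hN1 hN2 hc hs ht
    rw [hbS] at e3
    have e4 : (stab ρ a ⊓ stab ρ (ρ s a) ⊓ stab ρ (ρ t a) ⊓ stab ρ (ρ (s * t) a)).index ≤ 16 * (L * b ^ 3) := by
      refine e2.trans (Nat.mul_le_mul_left 16 (le_trans ?_ (e3.trans (Nat.mul_le_mul_right _ hP1))))
      rw [QuotientGroup.mk_mul]
    have e5 : ((stab ρ a ⊓ stab ρ (ρ s a) ⊓ stab ρ (ρ t a) ⊓ stab ρ (ρ (s * t) a)).index : ℝ) ≤
        16 * ((L : ℝ) * (b : ℝ) ^ 3) := by exact_mod_cast e4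
    linarith
  -- the distinct signs alternative is impossible
  have KS : ∀ P1 N1 N2 : Subgroup (Γ ⧸ R), P1.index ≤ L → (∀ g ∈ P1, ∀ x ∈ N1, g * x * g⁻¹ ∈ N1) →
      (∀ g ∈ P1, ∀ x ∈ N2, g * x * g⁻¹ ∈ N2) → (∀ x ∈ N1, ∀ y ∈ N2, x * y = y * x) → ¬ N1 ≤ S → ¬ N2 ≤ S →
      ∀ r ∈ R, (∀ v, ρ r v = v) ∨ (∀ v, ρ r v = - v) := by
    intro P1 N1 N2 hP1 hN1 hN2 hc h1S h2S
    rcases signs ρ a ha hmax with hsg | hsg
    · intro r hr
      rcases hsg r hr with h | h
      · left
        intro v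
        have hv : v ∈ Submodule.span ℚ (Set.range fun g => ρ g a) := by rw [hspan]; trivial
        induction hv using Submodule.span_induction with
        | mem x hx => obtain ⟨g, rfl⟩ := hx; exact h g
        | zero => simp
        | add x y _ _ hx hy => rw [map_add, hx, hy]
        | smul c x _ hx => rw [map_smul, hx]
      · right
        intro v
        have hv : v ∈ Submodule.span ℚ (Set.range fun g => ρ g a) := by rw [hspan]; trivial
        induction hv using Submodule.span_induction with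
        | mem x hx => obtain ⟨g, rfl⟩ := hx; exact h g
        | zero => simp
        | add x y _ _ hx hy => rw [map_add, hx, hy, neg_add]
        | smul c x _ hx => rw [map_smul, hx, smul_neg]
    · exfalso
      obtain ⟨x, hxN, hxS⟩ := SetLike.not_le_iff_exists.mp h1S
      obtain ⟨s, rfl⟩ := QuotientGroup.mk_surjective x
      have hq2 := K2 P1 N2 hP1 hN2 h2S
      have hq3 : 3 < S.relIndex N2 := by
        have : (3 : ℝ) < S.relIndex N2 := by
          have h39 : (3 : ℝ) ≤ 3 ^ 9 := by norm_num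
          linarith
        exact_mod_cast this
      obtain ⟨y, hyN, hy1, hy2, hy3⟩ := exists_avoid hq3 1 (s : Γ ⧸ R) (s : Γ ⧸ R)⁻¹
      obtain ⟨t, rfl⟩ := QuotientGroup.mk_surjective y
      have hst := hc _ hxN _ hyN
      have hmem : ∀ g : Γ, g ∈ S0 → (g : Γ ⧸ R) ∈ S := fun g h => ⟨g, h, rfl⟩
      refine K4 P1 N1 N2 hP1 hN1 hN2 hc s t hxN hyN ?_
      have hfun : (![a, ρ s a, ρ t a, ρ (s * t) a] : Fin 4 → V) =
          fun i => ρ ((![1, s, t, s * t] : Fin 4 → Γ) i) a := by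
        funext i
        fin_cases i <;> simp
      rw [hfun]
      apply hsg
      have hinv : ∀ g : Γ ⧸ R, g ∉ S → g⁻¹ ∉ S := by
        intro g hg h
        have := S.inv_mem h
        rw [inv_inv] at this
        exact hg this
      have a1 : (s : Γ ⧸ R) ∉ S := hxS
      have a2 : (t : Γ ⧸ R) ∉ S := by simpa using hy1
      have a3 : (s : Γ ⧸ R)⁻¹ * t ∉ S := hy2
      have a4 : (s : Γ ⧸ R) * t ∉ S := by rw [inv_inv] at hy3; exact hy3
      have key : ∀ i j : Fin 4, i ≠ j →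
          (((![1, s, t, s * t] : Fin 4 → Γ) i : Γ) : Γ ⧸ R)⁻¹ * (((![1, s, t, s * t] : Fin 4 → Γ) j : Γ) : Γ ⧸ R) ∉ S := by
        have b1 : (s : Γ ⧸ R)⁻¹ * (s * t) = t := by group
        have b2 : (t : Γ ⧸ R)⁻¹ * (s * t) = s := by rw [hst]; group
        have b3 : (t : Γ ⧸ R)⁻¹ * s = ((s : Γ ⧸ R)⁻¹ * t)⁻¹ := by group
        have b4 : ((s : Γ ⧸ R) * t)⁻¹ * s = (t : Γ ⧸ R)⁻¹ := by group
        have b5 : ((s : Γ ⧸ R) * t)⁻¹ * t = (s : Γ ⧸ R)⁻¹ := by rw [hst]; group
        intro i j hij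
        fin_cases i <;> fin_cases j <;> first | (exact absurd rfl hij) | skip
        · simpa using a1
        · simpa using a2
        · simpa using a4
        · simpa using hinv _ a1
        · simpa using a3
        · simpa [b1] using a2
        · simpa using hinv _ a2
        · have := hinv _ a3
          rw [← b3] at this
          simpa using this
        · simp only [Fin.reduceFinMk, Matrix.cons_val, QuotientGroup.mk_mul, b2]
          exact a1
        · have := hinv _ a4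
          simpa using this
        · have : ((s : Γ ⧸ R) * t)⁻¹ * s ∉ S := by rw [b4]; exact hinv _ a2
          simpa using this
        · have : ((s : Γ ⧸ R) * t)⁻¹ * t ∉ S := by rw [b5]; exact hinv _ a1
          simpa using this
      intro i j hij hmem'
      apply key i j hij
      have := hmem _ hmem'
      simpa using this
  rcases trichotomy hSco hScore with hAS | ⟨A, hAn, hAb, hAc⟩ | ⟨P1, N1, N2, hP1, hN1, hN2, hc, hp1, hp2, h1S, h2S⟩
  · exact hAS
  · exfalso
    have hb2 : 1 ≤ Nat.log 2 b := by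
      apply Nat.le_log_of_pow_le (by norm_num)
      have h9 : 2 ^ 1 ≤ 3 ^ 9 * 2 ^ (3 ^ 9) := by
        exact le_trans (by norm_num : 2 ^ 1 ≤ 3 ^ 9) (Nat.le_mul_of_pos_right _ (Nat.pow_pos (by norm_num)))
      exact h9.trans hb.le
    have hL1 : (⊤ : Subgroup (Γ ⧸ R)).index ≤ L := by
      rw [Subgroup.index_top, hLdef]
      exact Nat.one_le_pow _ _ (by omega)
    have hAnS : ¬ A ≤ S := by
      intro hle
      have := (Subgroup.normal_le_normalCore (N := A) (H := S)).mpr hle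
      rw [hScore] at this
      exact hAb (le_bot_iff.mp this)
    have hAconj : ∀ g ∈ (⊤ : Subgroup (Γ ⧸ R)), ∀ x ∈ A, g * x * g⁻¹ ∈ A :=
      fun g _ x hx => hAn.conj_mem x hx g
    have hR := KS ⊤ A A hL1 hAconj hAconj hAc hAnS hAnS
    have hsup : S ⊔ A = ⊤ := by
      apply hSco.2
      refine lt_of_le_of_ne le_sup_left ?_
      intro h
      exact hAnS (h ▸ le_sup_right)
    have htr : ∀ g : Γ ⧸ R, ∃ x ∈ A, ∃ s ∈ S, g = x * s := by
      intro g
      have : g ∈ A ⊔ S := by rw [sup_comm, hsup]; trivial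
      obtain ⟨x, hx, s, hs, h⟩ := Subgroup.mem_sup_of_normal_left.mp this
      exact ⟨x, hx, s, hs, h.symm⟩
    have hreg : ∀ x ∈ A, x ∈ S → x = 1 := by
      intro x hx hxS
      have hcore : x ∈ S.normalCore := by
        intro g
        obtain ⟨y, hy, s, hs, hg⟩ := htr g⁻¹
        have hg' : g = s⁻¹ * y⁻¹ := by
          rw [← inv_inv g, hg]; group
        have h5 : g * x * g⁻¹ = s⁻¹ * x * s := by
          rw [hg']
          have := hAc _ (A.inv_mem hy) x hx
          calc s⁻¹ * y⁻¹ * x * (s⁻¹ * y⁻¹)⁻¹ = s⁻¹ * (y⁻¹ * x) * y * s := by group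
            _ = s⁻¹ * x * s := by rw [this]; group
        rw [h5]
        exact S.mul_mem (S.mul_mem (S.inv_mem hs) hxS) hs
      rw [hScore] at hcore
      exact hcore
    have hfin := liftA ρ a R hRS hR A hAc hreg htr (fun s t hs ht _ =>
      K4 ⊤ A A hL1 hAconj hAconj hAc s t hs ht)
    rw [← hS0, ← hSdef, hbS] at hfin
    exact absurd hb (not_lt.mpr hfin)
  · exfalso
    rw [hbS] at hP1
    have hR := KS P1 N1 N2 hP1 hN1 hN2 hc h1S h2S
    have q1 := K2 P1 N1 hP1 hN1 h1S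
    have q2 := K2 P1 N2 hP1 hN2 h2S
    rcases liftB ρ a R hRS hR N1 N2 hc hp1 hp2 (fun s t hs ht =>
      K4 P1 N1 N2 hP1 hN1 hN2 hc s t hs ht) with h | h
    · rw [← hS0, ← hSdef] at h
      have : (S.relIndex N2 : ℝ) ≤ 3 ^ 9 := by exact_mod_cast h
      linarith
    · rw [← hS0, ← hSdef, hbS] at h
      have h' : (S.relIndex N1 : ℝ) * S.relIndex N2 ≤ 2 * b := by exact_mod_cast h
      have : q0 ^ 2 < (S.relIndex N1 : ℝ) * S.relIndex N2 := by nlinarith
      linarith

end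

end Pool.Agent.H49.St
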