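import Mathlib

/-!
# Finite groups acting on a rational space of dimension at most 3 (Minkowski)

Proof. Let `U` be a finite dimensional rational space with a linear action of a finite group `M`, `d = dim U ≤ 3`. Let `Λ` be the `ℤ`-span of the (finite) set of all
`ρ m u_i` for a basis `u_i`: a finitely generated torsion-free `ℤ`-module, so free, of rank `d` (its rational span is `U`; linear independence over `ℤ` implies
linear independence over `ℚ`), stable under `M`. `Λ / 3 Λ` has `3^d ≤ 27` elements, so there are at most `(3^d)^d ≤ 3^9` additive endomorphisms of it.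
It remains to see: if `m, m' ∈ M` induce the same map of `Λ/3Λ` then `ρ m = ρ m'` (then `ρ m ↦` induced map is injective on the range of `ρ`).
So let `g = ρ (m⁻¹ m')`, `g ≡ 1 mod 3` on `Λ`. Claim `g = 1`. Otherwise some power `h` of `g` has prime order `p` (as a linear map), and `h ≡ 1 mod 3`.
Write `h = 1 + 3^k A` on `Λ`, `k ≥ 1`, `A` an endomorphism of `Λ` (or an integer matrix) not divisible by `3` (`h ≠ 1`, so such a maximal `k` exists).
`h^p = 1` gives `p A + C(p,2) 3^k A^2 + ... + 3^{(p-1)k} A^p = 0` (after division by `3^k`). If `p ≠ 3`: mod 3 this is `p A ≡ 0`, so `A ≡ 0`. If `p = 3`: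
`3 A + 3 3^k A^2 + 3^{2k} A^3 = 0`, divide by 3: `A ≡ 0 mod 3` (as `k ≥ 1`). Contradiction.
(Any other proof of the bound, even with a larger explicit constant instead of `3 ^ 9`, is fine: tell helper49 about the constant.)
A convenient form: integer `d x d` matrices: `h` finite order in `Matrix (Fin d) (Fin d) ℤ`, `h ≡ 1 mod 3` implies `h = 1`.
-/

set_option autoImplicit false

namespace Pool.Agent.H49.St

/-- Binomial expansion up to the second order, in any ring. -/
theorem mink_pow {R : Type*} [Ring R] (y : R) (n : ℕ) :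
    ∃ z : R, (1 + y) ^ n = 1 + (n : ℤ) • y + y * (y * z) := by
  induction n with
  | zero => exact ⟨0, by simp⟩
  | succ n ih =>
    obtain ⟨z, hz⟩ := ih
    refine ⟨(n : ℤ) • 1 + z + y * z, ?_⟩
    rw [pow_succ', hz]
    push_cast
    simp only [mul_add, add_mul, one_mul, mul_one, add_smul, one_smul, mul_smul_comm]
    abel_nf
    simp only [smul_add]
    abel

/-- A congruence modulo `3 ^ k` for an element of order 3 improves. -/
theorem mink_cube {R : Type*} [Ring R] (h3 : ∀ x : R, (3 : ℤ) • x = 0 → x = 0)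
    (sep : ∀ x : R, (∀ k : ℕ, ∃ a : R, x = ((3 : ℤ) ^ k) • a) → x = 0) {g : R}
    (hg : g ^ 3 = 1) (h1 : ∃ a : R, g = 1 + (3 : ℤ) • a) : g = 1 := by
  have h3k : ∀ (k : ℕ) (x : R), ((3 : ℤ) ^ k) • x = 0 → x = 0 := by
    intro k
    induction k with
    | zero => intro x hx; simpa using hx
    | succ k ih =>
      intro x hx
      rw [pow_succ, mul_smul] at hx
      exact h3 x (ih _ hx)
  have key : ∀ k : ℕ, ∃ a : R, g = 1 + ((3 : ℤ) ^ (k + 1)) • a := by
    intro k
    induction k with
    | zero => simpa using h1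
    | succ k ih =>
      obtain ⟨a, ha⟩ := ih
      refine ⟨-(((3 : ℤ) ^ k) • (a * a) + ((3 : ℤ) ^ (2 * k)) • (a * a * a)), ?_⟩
      rw [ha] at hg ⊢
      have h2 : ((3 : ℤ) ^ (k + 2)) •
          (a + ((3 : ℤ) ^ (k + 1)) • (a * a) + ((3 : ℤ) ^ (2 * k + 1)) • (a * a * a)) = 0 := by
        have e1 : (1 + ((3 : ℤ) ^ (k + 1)) • a) ^ 3 = 1 + ((3 : ℤ) ^ (k + 2)) •
            (a + ((3 : ℤ) ^ (k + 1)) • (a * a) + ((3 : ℤ) ^ (2 * k + 1)) • (a * a * a)) := by
          simp only [pow_succ, pow_zero, one_mul, mul_add, add_mul, mul_one, smul_add,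
            smul_mul_assoc, mul_smul_comm, smul_smul]
          module
        rw [e1] at hg
        simpa using hg
      have h4 := h3k _ _ h2
      have h5 : a = (3 : ℤ) • -(((3 : ℤ) ^ k) • (a * a) + ((3 : ℤ) ^ (2 * k)) • (a * a * a)) := by
        have h6 : a = -(((3 : ℤ) ^ (k + 1)) • (a * a) + ((3 : ℤ) ^ (2 * k + 1)) • (a * a * a)) := by
          rw [add_assoc] at h4
          exact eq_neg_of_add_eq_zero_left h4
        conv_lhs => rw [h6]
        module
      conv_lhs => rw [h5]
      rw [smul_smul, ← pow_succ]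
  have h4 : g - 1 = 0 := by
    refine sep _ fun k => ?_
    obtain ⟨a, ha⟩ := key k
    refine ⟨(3 : ℤ) • a, ?_⟩
    rw [ha, smul_smul, ← pow_succ, add_sub_cancel_left]
  exact sub_eq_zero.1 h4

/-- Minkowski: an element of finite order that is congruent to `1` modulo `3` is `1`. -/
theorem mink_ring {R : Type*} [Ring R] (h3 : ∀ x : R, (3 : ℤ) • x = 0 → x = 0)
    (sep : ∀ x : R, (∀ k : ℕ, ∃ a : R, x = ((3 : ℤ) ^ k) • a) → x = 0) (n : ℕ) :
    0 < n → ∀ g : R, g ^ n = 1 → (∃ a : R, g = 1 + (3 : ℤ) • a) → g = 1 := by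
  have h3k : ∀ (k : ℕ) (x : R), ((3 : ℤ) ^ k) • x = 0 → x = 0 := by
    intro k
    induction k with
    | zero => intro x hx; simpa using hx
    | succ k ih =>
      intro x hx
      rw [pow_succ, mul_smul] at hx
      exact h3 x (ih _ hx)
  induction n using Nat.strong_induction_on with
  | _ n ih =>
    intro hn g hg h1
    by_cases hdvd : 3 ∣ n
    · obtain ⟨m, rfl⟩ := hdvd
      have hm : 0 < m := by omega
      refine ih m (by omega) hm g (mink_cube h3 sep ?_ ?_) h1
      · rw [← pow_mul, mul_comm]; exact hg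
      · obtain ⟨a, rfl⟩ := h1
        obtain ⟨z, hz⟩ := mink_pow ((3 : ℤ) • a) m
        refine ⟨(m : ℤ) • a + a * ((3 : ℤ) • a * z), ?_⟩
        rw [hz]
        simp only [smul_add, smul_mul_assoc, smul_smul]
        rw [add_assoc, mul_comm (m : ℤ) 3]
    · have hcop : IsCoprime (n : ℤ) 3 := by
        rw [Int.isCoprime_iff_gcd_eq_one]
        have h2 : Nat.Coprime n 3 := ((Nat.Prime.coprime_iff_not_dvd Nat.prime_three).2 hdvd).symm
        exact_mod_cast h2
      obtain ⟨u, v, huv⟩ := hcop
      have key : ∀ k : ℕ, ∃ a : R, g = 1 + ((3 : ℤ) ^ (k + 1)) • a := by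
        intro k
        induction k with
        | zero => simpa using h1
        | succ k ihk =>
          obtain ⟨a, ha⟩ := ihk
          obtain ⟨z, hz⟩ := mink_pow (((3 : ℤ) ^ (k + 1)) • a) n
          rw [← ha, hg] at hz
          have h2 : ((3 : ℤ) ^ (k + 1)) • ((n : ℤ) • a + ((3 : ℤ) ^ (k + 1)) • (a * (a * z))) = 0 := by
            have h4 : (n : ℤ) • ((3 : ℤ) ^ (k + 1)) • a +
                ((3 : ℤ) ^ (k + 1)) • a * (((3 : ℤ) ^ (k + 1)) • a * z) = 0 := by
              rw [add_assoc] at hz
              simpa using hz.symm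
            rw [← h4]
            simp only [smul_add, smul_mul_assoc, mul_smul_comm, smul_smul]
            rw [mul_comm (n : ℤ)]
          have h4 := h3k _ _ h2
          have h5 : (n : ℤ) • a = (3 : ℤ) • (-(((3 : ℤ) ^ k) • (a * (a * z)))) := by
            have h6 := eq_neg_of_add_eq_zero_left h4
            rw [h6, smul_neg, smul_smul, ← pow_succ']
          refine ⟨u • (-(((3 : ℤ) ^ k) • (a * (a * z)))) + v • a, ?_⟩
          have h7 : a = (3 : ℤ) • (u • (-(((3 : ℤ) ^ k) • (a * (a * z)))) + v • a) := by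
            have h8 : a = u • ((n : ℤ) • a) + (v * 3) • a := by
              rw [smul_smul, ← add_smul, huv, one_smul]
            conv_lhs => rw [h8, h5]
            rw [smul_add, smul_comm u (3 : ℤ), mul_comm v 3, mul_smul]
          rw [ha]
          conv_lhs => rw [h7]
          rw [smul_smul, ← pow_succ]
      have h4 : g - 1 = 0 := by
        refine sep _ fun k => ?_
        obtain ⟨a, ha⟩ := key k
        refine ⟨(3 : ℤ) • a, ?_⟩
        rw [ha, smul_smul, ← pow_succ, add_sub_cancel_left]
      exact sub_eq_zero.1 h4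

/-- Integer matrices. -/
theorem mink_matrix {ι : Type*} [Fintype ι] [DecidableEq ι] {n : ℕ} (hn : 0 < n)
    (g : Matrix ι ι ℤ) (hg : g ^ n = 1)
    (h1 : g.map (Int.cast : ℤ → ZMod 3) = (1 : Matrix ι ι (ZMod 3))) : g = 1 := by
  refine mink_ring (R := Matrix ι ι ℤ) ?_ ?_ n hn g hg ?_
  · intro x hx
    ext i j
    have h2 : (3 : ℤ) * x i j = 0 := congrFun (congrFun hx i) j
    simpa using h2
  · intro x hx
    ext i j
    have h2 : ∀ k : ℕ, (3 : ℤ) ^ k ∣ x i j := by
      intro k
      obtain ⟨a, ha⟩ := hx k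
      exact ⟨a i j, congrFun (congrFun ha i) j⟩
    by_contra h0
    have h4 := Int.le_of_dvd (abs_pos.2 h0) ((dvd_abs _ _).2 (h2 (x i j).natAbs))
    have h5 : (x i j).natAbs < 3 ^ (x i j).natAbs := Nat.lt_pow_self (by norm_num)
    rw [Int.abs_eq_natAbs] at h4
    have h6 : (3 : ℕ) ^ (x i j).natAbs ≤ (x i j).natAbs := by exact_mod_cast h4
    omega
  · have h2 : ∀ i j, (3 : ℤ) ∣ g i j - (1 : Matrix ι ι ℤ) i j := by
      intro i j
      have h4 : ((g i j : ℤ) : ZMod 3) = (1 : Matrix ι ι (ZMod 3)) i j :=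
        congrFun (congrFun h1 i) j
      have h5 : (((1 : Matrix ι ι ℤ) i j : ℤ) : ZMod 3) = (1 : Matrix ι ι (ZMod 3)) i j := by
        by_cases hij : i = j
        · subst hij; simp
        · simp [hij]
      rw [← h5] at h4
      exact (ZMod.intCast_eq_intCast_iff_dvd_sub _ _ 3).1 h4.symm
    choose a ha using h2
    refine ⟨Matrix.of a, ?_⟩
    ext i j
    have h4 := ha i j
    show g i j = (1 : Matrix ι ι ℤ) i j + (3 : ℤ) * a i j
    linarith

/-- Minkowski: the image of a finite group in `GL(U)`, `dim U ≤ 3` over `ℚ`, has at most `3 ^ 9` elements. -/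
theorem card_range_le {M U : Type*} [Group M] [Finite M] [AddCommGroup U] [Module ℚ U]
    [FiniteDimensional ℚ U] (ρ : M →* Module.End ℚ U) (hU : Module.finrank ℚ U ≤ 3) :
    Nat.card (Set.range ρ) ≤ 3 ^ 9 := by
  classical
  let u := Module.finBasis ℚ U
  let T : Set U := Set.range fun p : M × Fin (Module.finrank ℚ U) => ρ p.1 (u p.2)
  let L : Submodule ℤ U := Submodule.span ℤ T
  have hstab : ∀ (m : M) (x : U), x ∈ L → ρ m x ∈ L := by
    intro m x hx
    induction hx using Submodule.span_induction with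
    | mem x hx =>
      obtain ⟨p, rfl⟩ := hx
      refine Submodule.subset_span ⟨(m * p.1, p.2), ?_⟩
      simp only [map_mul]
      rfl
    | zero => rw [map_zero]; exact Submodule.zero_mem _
    | add x y _ _ h1 h2 => rw [map_add]; exact Submodule.add_mem _ h1 h2
    | smul c x _ h1 =>
      rw [map_zsmul]
      exact Submodule.smul_mem _ _ h1
  have hfin : Module.Finite ℤ L := Module.Finite.span_of_finite ℤ (Set.finite_range _)
  have hatf : IsAddTorsionFree U := .of_module_rat U
  have htf : Module.IsTorsionFree ℤ L := inferInstance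
  have hfree : Module.Free ℤ L := inferInstance
  let b := Module.finBasis ℤ L
  have hd : Module.finrank ℤ L ≤ 3 := by
    have h1 : LinearIndependent ℤ (fun i => (b i : U)) :=
      b.linearIndependent.map' L.subtype (Submodule.ker_subtype L)
    have h2 : LinearIndependent ℚ (fun i => (b i : U)) :=
      (LinearIndependent.iff_fractionRing ℤ ℚ).1 h1
    have h4 := h2.fintype_card_le_finrank
    rw [Fintype.card_fin] at h4
    exact h4.trans hU
  let res : M →* Module.End ℤ L :=
    { toFun := fun m => ((ρ m).restrictScalars ℤ).restrict (hstab m)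
      map_one' := by
        ext x
        show ρ 1 (x : U) = x
        rw [map_one]; rfl
      map_mul' := fun m m' => by
        ext x
        show ρ (m * m') (x : U) = ρ m (ρ m' x)
        rw [map_mul]; rfl }
  have hres : ∀ m m', res m = res m' → ρ m = ρ m' := by
    intro m m' h
    refine u.ext fun i => ?_
    have hi : u i ∈ L := Submodule.subset_span ⟨(1, i), by simp⟩
    have h1 := congrArg (fun f : Module.End ℤ L => ((f ⟨u i, hi⟩ : L) : U)) h
    exact h1
  let A : M →* Matrix (Fin (Module.finrank ℤ L)) (Fin (Module.finrank ℤ L)) ℤ :=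
    ((LinearMap.toMatrixAlgEquiv b : Module.End ℤ L ≃ₐ[ℤ] _) :
      Module.End ℤ L →* Matrix (Fin (Module.finrank ℤ L)) (Fin (Module.finrank ℤ L)) ℤ).comp res
  have hA : ∀ m m', A m = A m' → ρ m = ρ m' := by
    intro m m' h
    exact hres m m' ((LinearMap.toMatrixAlgEquiv b).injective h)
  let ψ : M →* Matrix (Fin (Module.finrank ℤ L)) (Fin (Module.finrank ℤ L)) (ZMod 3) :=
    (((Int.castRingHom (ZMod 3)).mapMatrix :
      Matrix (Fin (Module.finrank ℤ L)) (Fin (Module.finrank ℤ L)) ℤ →+* _) :
      Matrix (Fin (Module.finrank ℤ L)) (Fin (Module.finrank ℤ L)) ℤ →*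
        Matrix (Fin (Module.finrank ℤ L)) (Fin (Module.finrank ℤ L)) (ZMod 3)).comp A
  have hψ : ∀ m m', ψ m = ψ m' → ρ m = ρ m' := by
    intro m m' h
    apply hA
    have h1 : ψ (m⁻¹ * m') = 1 := by
      rw [map_mul, ← h, ← map_mul, inv_mul_cancel, map_one]
    have h2 : A (m⁻¹ * m') = 1 := by
      refine mink_matrix (n := Nat.card M) Nat.card_pos _ ?_ h1
      rw [← map_pow, pow_card_eq_one', map_one]
    have h4 : A m' = A m * A (m⁻¹ * m') := by
      rw [← map_mul, mul_inv_cancel_left]
    rw [h4, h2, mul_one]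
  have hcard : Nat.card (Matrix (Fin (Module.finrank ℤ L)) (Fin (Module.finrank ℤ L)) (ZMod 3)) ≤
      3 ^ 9 := by
    have h1 : Nat.card (Matrix (Fin (Module.finrank ℤ L)) (Fin (Module.finrank ℤ L)) (ZMod 3)) =
        3 ^ (Module.finrank ℤ L * Module.finrank ℤ L) := by
      change Nat.card (Fin (Module.finrank ℤ L) → Fin (Module.finrank ℤ L) → ZMod 3) = _
      rw [Nat.card_fun, Nat.card_fun, Nat.card_zmod, Nat.card_fin, ← pow_mul]
    rw [h1]
    refine Nat.pow_le_pow_right (by norm_num) ?_
    calc Module.finrank ℤ L * Module.finrank ℤ L ≤ 3 * 3 := Nat.mul_le_mul hd hd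
      _ = 9 := by norm_num
  refine le_trans (Nat.card_le_card_of_injective
    (fun x : Set.range ρ => ψ x.2.choose) ?_) hcard
  intro x y hxy
  have h1 := hψ _ _ hxy
  rw [x.2.choose_spec, y.2.choose_spec] at h1
  exact Subtype.ext h1

/-- If the orbit of `a` lies in a space of dimension at most 3, it has at most `3 ^ 9` elements.
Proof: the span `W` of the orbit is invariant, finite dimensional, of dimension `≤ 3`; restrict `ρ` to `W` and apply `card_range_le`;
`ρ m a` is the value at `a` of the restricted map. -/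
theorem card_orbit_le {M V : Type*} [Group M] [Finite M] [AddCommGroup V] [Module ℚ V]
    (ρ : M →* Module.End ℚ V) (a : V) (U : Submodule ℚ V) (hfin : FiniteDimensional ℚ U)
    (hU : Module.finrank ℚ U ≤ 3) (h : ∀ m, ρ m a ∈ U) :
    Nat.card (Set.range fun m => ρ m a) ≤ 3 ^ 9 := by
  let W : Submodule ℚ V := Submodule.span ℚ (Set.range fun m => ρ m a)
  have hWU : W ≤ U := Submodule.span_le.2 (by rintro _ ⟨m, rfl⟩; exact h m)
  have hWfin : FiniteDimensional ℚ W := Submodule.finiteDimensional_of_le hWU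
  have hWd : Module.finrank ℚ W ≤ 3 := (Submodule.finrank_mono hWU).trans hU
  have hstab : ∀ (m : M) (x : V), x ∈ W → ρ m x ∈ W := by
    intro m x hx
    induction hx using Submodule.span_induction with
    | mem x hx =>
      obtain ⟨p, rfl⟩ := hx
      refine Submodule.subset_span ⟨m * p, ?_⟩
      simp only [map_mul]
      rfl
    | zero => rw [map_zero]; exact Submodule.zero_mem _
    | add x y _ _ h1 h2 => rw [map_add]; exact Submodule.add_mem _ h1 h2
    | smul c x _ h1 =>
      rw [map_smul]
      exact Submodule.smul_mem _ _ h1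
  let res : M →* Module.End ℚ W :=
    { toFun := fun m => (ρ m).restrict (hstab m)
      map_one' := by
        ext x
        show ρ 1 (x : V) = x
        rw [map_one]; rfl
      map_mul' := fun m m' => by
        ext x
        show ρ (m * m') (x : V) = ρ m (ρ m' x)
        rw [map_mul]; rfl }
  have ha : a ∈ W := Submodule.subset_span ⟨1, by simp⟩
  have h1 := card_range_le res hWd
  have h2 : (Set.range fun m => ρ m a) =
      (fun f : Module.End ℚ W => ((f ⟨a, ha⟩ : W) : V)) '' Set.range res := by
    rw [← Set.range_comp]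
    rfl
  rw [Nat.card_coe_set_eq] at h1 ⊢
  rw [h2]
  exact (Set.ncard_image_le (Set.finite_range _)).trans h1

end Pool.Agent.H49.St
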