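import Pool.Agent.H49.St.Planes
import Pool.Agent.H49.St.Mink

/-!
# A commutative group, four dependent vectors

`D` a finite group acting on `V` by commuting linear maps, `a ∈ V` with `a, s a, t a, s t a` linearly dependent for all `s, t ∈ D`. Then the orbit of `a` has at most `3 ^ 9` elements.

Proof. `a = 0` is trivial; let `a ≠ 0`. A rational eigenvalue of `ρ s` is `± 1` (finite order). Call `s` scalar if `ρ s a = a` or `ρ s a = - a`.
(1) Let `s` be not scalar: `a, s a` are independent, `E = span {a, s a}`, the planes `ρ t E`, `t ∈ D`, meet pairwise (as in `LinB`), so by `planes` either all `ρ t E` lie in a space of dimension `≤ 3`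
 (then `card_orbit_le` finishes), or `I = ⨅ ρ t E ≠ ⊥` is `D`-stable, `I ≤ E`; if `dim I = 2`, `I = E` is `D`-stable: `card_orbit_le` finishes. If `dim I = 1`, `I = span w`, `w = x a + y s a ≠ 0`, `ρ t w = ± w` for all `t ∈ D`.
 So from now on: (*) for every nonscalar `s` there are `x, y`, not both zero, with `w = x a + y s a` an eigenvector (with eigenvalues `± 1`) of all of `D`. Then `x ≠ 0` and `y ≠ 0` (if `y = 0` then `a` is an eigenvector of `s`; if `x = 0` then
 `s a` is an eigenvector of `s`, so `a` is).
(2) `d^2 a = a` for all `d ∈ D` (if there is a nonscalar `s`; if there is none the orbit is inside `{a, -a}`): put `v = d^2 a - a`. `d^2 w = w` gives `x v + y s v = 0`, so `s v = - (x/y) v`, for every nonscalar `s`; scalar `s` also act on `v` by `± 1`.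
 So `v` is an eigenvector (eigenvalues `± 1`, or `v = 0`) of all of `D`; in particular `d^2 v = v`, so `(d^2)^k a = a + k v` for all `k`; finite order gives `v = 0`.
(3) Let `s` be nonscalar. `s w = ± w` and `s^2 a = a`: `x s a + y a = ± (x a + y s a)`, so `y = ± x`: after scaling `u_s := a + σ_s s a`, `σ_s = ± 1`, is a `D`-eigenvector (eigenvalues `± 1`), nonzero. So `σ_s s a = u_s - a`.
(4) Let `s, t` be nonscalar with `t a ≠ ± s a`. Then `s t` is nonscalar (`s t a = ± a` gives `t a = ± s⁻¹ a = ± s a`). We get `u_s, u_t, u_{st}` and `s t a = σ_{st} (u_{st} - a)`, also `s (t a) = s σ_t (u_t - a) = σ_t (± u_t) - σ_t σ_s (u_s - a)`.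
 So `u_{st} - a = ± u_t ± (u_s - a)`: case plus: `u_{st} = ± u_t + u_s`; case minus: `2 a = u_{st} + u_s ∓ u_t`.
 Case minus: `a` is a combination of three `D`-eigenvectors with eigenvalues `± 1`, so the orbit of `a` has at most `8` elements. 
 Case plus: `u_s` and `u_t` are independent: if `u_t = c u_s`: `s` acts on `u_s = a + σ_s s a` by `σ_s` (as `s^2 a = a`), `t` acts on `u_t` by `σ_t`; so both act on the line by `σ_s`, `σ_t`. `a - u_s/2 = (a - σ_s s a)/2` is in the `-σ_s`-eigenspace of `s`,
  `a - u_t/2` in the `-σ_t`-eigenspace of `t`. Apply `(1 + σ_t t)` to `a = u_s/2 + (a - u_s/2)`: `u_t = (1 + σ_t t) a = u_s + (1 + σ_t t)(a - u_s/2)` where the last vector is in the `-σ_s`-eigenspace of `s` and `u_t - u_s` is in the `σ_s`-eigenspace, so `u_t = u_s`;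
  then `σ_t t a = σ_s s a`, contradiction.
  `u_{st} = ± u_t + u_s` with all three eigenvectors and `u_s`, `u_t` independent: every `d ∈ D` acts on `u_s` and `u_t` by the same sign as on `u_{st}`; but then `D` acts on the span of `u_s, u_t` by signs; `s` acts on `u_t` by its sign on `u_s`, which is `σ_s`, `t` acts on `u_s` by `σ_t`;
  as before `u_t = (1 + σ_t t) a = (1 + σ_t t)(u_s/2) + (1 + σ_t t)(a - u_s/2) = u_s + (in the -σ_s eigenspace of s)`, so `u_t - u_s` is in both eigenspaces of `s`, so `u_t = u_s`, contradiction.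
(5) If there are no such `s, t` then the orbit is contained in `{± a, ± s a}`: at most 4 elements.
-/

set_option autoImplicit false

namespace Pool.Agent.H49.St

section LinA

variable {D V : Type*} [Group D] [AddCommGroup V] [Module ℚ V]

/-- sign vectors -/
def LinA_SV (ρ : D →* Module.End ℚ V) (v : V) : Prop := ∀ d, ρ d v = v ∨ ρ d v = -v

theorem LinA_mul (ρ : D →* Module.End ℚ V) (s t : D) (v : V) : ρ (s * t) v = ρ s (ρ t v) := by
  rw [map_mul, Module.End.mul_apply]

theorem LinA_inv (ρ : D →* Module.End ℚ V) (s : D) (v : V) : ρ s (ρ s⁻¹ v) = v := by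
  rw [← LinA_mul, mul_inv_cancel, map_one, Module.End.one_apply]

theorem LinA_inv' (ρ : D →* Module.End ℚ V) (s : D) (v : V) : ρ s⁻¹ (ρ s v) = v := by
  rw [← LinA_mul, inv_mul_cancel, map_one, Module.End.one_apply]

theorem LinA_inj (ρ : D →* Module.End ℚ V) (s : D) : Function.Injective (ρ s) := by
  intro v w h
  have := congrArg (ρ s⁻¹) h
  rwa [LinA_inv', LinA_inv'] at this

theorem LinA_eig [Finite D] (ρ : D →* Module.End ℚ V) {s : D} {c : ℚ} {v : V} (hv : v ≠ 0)
    (h : ρ s v = c • v) : c = 1 ∨ c = -1 := by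
  have hpow : ∀ n : ℕ, ρ (s ^ n) v = c ^ n • v := by
    intro n
    induction n with
    | zero => simp
    | succ n ih =>
      rw [pow_succ', LinA_mul, ih, map_smul, h, smul_smul, pow_succ]
  have h1 := hpow (orderOf s)
  rw [pow_orderOf_eq_one, map_one, Module.End.one_apply] at h1
  have h2 : (1 - c ^ orderOf s) • v = 0 := by rw [sub_smul, one_smul, ← h1, sub_self]
  have h3 : c ^ orderOf s = 1 := by
    rcases smul_eq_zero.mp h2 with h | h
    · linarith
    · exact absurd h hv
  have h4 : |c| ^ orderOf s = 1 := by rw [← abs_pow, h3, abs_one]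
  have h5 : |c| = 1 := (pow_eq_one_iff_of_nonneg (abs_nonneg c) (orderOf_pos s).ne').mp h4
  exact (abs_eq zero_le_one).mp h5

theorem LinA_eig' [Finite D] (ρ : D →* Module.End ℚ V) {s : D} {c : ℚ} {v : V}
    (h : ρ s v = c • v) : ρ s v = v ∨ ρ s v = -v := by
  by_cases hv : v = 0
  · left; rw [hv, map_zero]
  · rcases LinA_eig ρ hv h with hc | hc
    · left; rw [h, hc, one_smul]
    · right; rw [h, hc, neg_one_smul]

/-- nonscalar elements give independent vectors -/
theorem LinA_indep [Finite D] (ρ : D →* Module.End ℚ V) {s : D} {a : V} (ha : a ≠ 0)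
    (hs : ¬ (ρ s a = a ∨ ρ s a = -a)) : ∀ x y : ℚ, x • a + y • ρ s a = 0 → x = 0 ∧ y = 0 := by
  intro x y h
  have hy : y = 0 := by
    by_contra hy
    apply hs
    apply LinA_eig' ρ (c := -(x / y))
    have h1 : ρ s a = y⁻¹ • (y • ρ s a) := by rw [smul_smul, inv_mul_cancel₀ hy, one_smul]
    have h2 : y • ρ s a = - (x • a) := by
      rw [eq_neg_iff_add_eq_zero, add_comm]; exact h
    rw [h1, h2, smul_neg, smul_smul, neg_smul]
    congr 2
    field_simp
  subst hy
  rw [zero_smul, add_zero] at h
  rcases smul_eq_zero.mp h with h | h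
  · exact ⟨h, rfl⟩
  · exact absurd h ha

/-- the common plane argument -/
theorem LinA_step1 [Finite D] (ρ : D →* Module.End ℚ V)
    (hc : ∀ s t, ρ s * ρ t = ρ t * ρ s) {a : V} (ha : a ≠ 0)
    (hdep : ∀ s t, ¬ LinearIndependent ℚ ![a, ρ s a, ρ t a, ρ s (ρ t a)])
    {s : D} (hs : ¬ (ρ s a = a ∨ ρ s a = -a)) :
    (∃ U : Submodule ℚ V, FiniteDimensional ℚ U ∧ Module.finrank ℚ U ≤ 3 ∧ ∀ t, ρ t a ∈ U) ∨
    ∃ x y : ℚ, x • a + y • ρ s a ≠ 0 ∧ LinA_SV ρ (x • a + y • ρ s a) := by
  have hcc : ∀ s t v, ρ s (ρ t v) = ρ t (ρ s v) := by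
    intro s t v
    rw [← Module.End.mul_apply, hc, Module.End.mul_apply]
  have hind := LinA_indep ρ ha hs
  have hli : LinearIndependent ℚ ![a, ρ s a] := LinearIndependent.pair_iff.mpr hind
  set E0 : Submodule ℚ V := Submodule.span ℚ {a, ρ s a} with hE0
  have hrank0 : Module.finrank ℚ E0 = 2 := by
    have h := finrank_span_eq_card hli
    have hr : Set.range ![a, ρ s a] = {a, ρ s a} := by simp [Set.pair_comm]
    rw [hr] at h
    rw [hE0, h]
    simp
  have hfin0 : FiniteDimensional ℚ E0 := by
    rw [hE0]
    exact FiniteDimensional.span_of_finite ℚ (Set.toFinite _)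
  set E : D → Submodule ℚ V := fun t => E0.map (ρ t) with hE
  have hrank : ∀ t, Module.finrank ℚ (E t) = 2 := by
    intro t
    rw [hE]
    rw [← hrank0]
    exact (Submodule.equivMapOfInjective (ρ t) (LinA_inj ρ t) E0).finrank_eq.symm
  have hmemE : ∀ t v, v ∈ E0 → ρ t v ∈ E t := fun t v hv => Submodule.mem_map_of_mem hv
  have hmemE' : ∀ t v, v ∈ E t → ρ t⁻¹ v ∈ E0 := by
    intro t v hv
    obtain ⟨u, hu, rfl⟩ := Submodule.mem_map.mp hv
    rw [LinA_inv']
    exact hu
  have hmemE'' : ∀ r t v, v ∈ E (r⁻¹ * t) → ρ r v ∈ E t := by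
    intro r t v hv
    have h1 := hmemE' _ _ hv
    have h2 := hmemE t _ h1
    rw [← LinA_mul] at h2
    have h3 : t * (r⁻¹ * t)⁻¹ = r := by group
    rwa [h3] at h2
  have hE1 : ∀ v, v ∈ E 1 → v ∈ E0 := by
    intro v hv
    have := hmemE' 1 v hv
    simpa using this
  have hmeet : ∀ i j, E i ⊓ E j ≠ ⊥ := by
    intro i j
    have hd := hdep s (i⁻¹ * j)
    rw [Fintype.linearIndependent_iff] at hd
    push Not at hd
    obtain ⟨g, hg0, k, hk⟩ := hd
    simp only [Fin.sum_univ_four, Matrix.cons_val_zero, Matrix.cons_val_one, Matrix.cons_val] at hg0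
    set r := i⁻¹ * j with hr
    have hwne : g 0 • a + g 1 • ρ s a ≠ 0 := by
      intro h0
      obtain ⟨h1, h2⟩ := hind _ _ h0
      rw [h0, zero_add] at hg0
      have h3 : ρ r (g 2 • a + g 3 • ρ s a) = 0 := by
        rw [map_add, map_smul, map_smul, hcc r s]
        exact hg0
      have h4 : g 2 • a + g 3 • ρ s a = 0 := LinA_inj ρ r (by rw [h3, map_zero])
      obtain ⟨h5, h6⟩ := hind _ _ h4
      fin_cases k
      · exact hk h1
      · exact hk h2
      · exact hk h5
      · exact hk h6
    have hw0 : g 0 • a + g 1 • ρ s a ∈ E0 := by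
      rw [hE0]
      exact Submodule.add_mem _ (Submodule.smul_mem _ _ (Submodule.subset_span (by simp)))
        (Submodule.smul_mem _ _ (Submodule.subset_span (by simp)))
    have hw1 : g 0 • a + g 1 • ρ s a ∈ E r := by
      have h1 : g 0 • a + g 1 • ρ s a = ρ r ((- g 2) • a + (- g 3) • ρ s a) := by
        rw [map_add, map_smul, map_smul, hcc r s]
        linear_combination (norm := module) hg0
      rw [h1]
      apply hmemE
      rw [hE0]
      exact Submodule.add_mem _ (Submodule.smul_mem _ _ (Submodule.subset_span (by simp)))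
        (Submodule.smul_mem _ _ (Submodule.subset_span (by simp)))
    rw [Submodule.ne_bot_iff]
    refine ⟨ρ i (g 0 • a + g 1 • ρ s a), ⟨hmemE i _ hw0, hmemE'' i j _ hw1⟩, ?_⟩
    intro h0
    exact hwne (LinA_inj ρ i (by rw [h0, map_zero]))
  have haE0 : a ∈ E0 := Submodule.subset_span (by simp)
  rcases planes E hrank hmeet with ⟨w, hw, hwE⟩ | ⟨U, hU, hU3, hEU⟩
  · have hstab : ∀ t i, ρ t w ∈ E i := fun t i => hmemE'' t i w (hwE _)
    by_cases hall : ∀ t, ∃ c : ℚ, ρ t w = c • w
    · right
      have hw0 := hE1 w (hwE 1)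
      rw [hE0, Submodule.mem_span_pair] at hw0
      obtain ⟨x, y, hxy⟩ := hw0
      refine ⟨x, y, by rw [hxy]; exact hw, ?_⟩
      rw [hxy]
      intro t
      obtain ⟨c, hc'⟩ := hall t
      exact LinA_eig' ρ hc'
    · left
      push Not at hall
      obtain ⟨t0, ht0⟩ := hall
      have hli2 : LinearIndependent ℚ ![w, ρ t0 w] := by
        rw [LinearIndependent.pair_iff]
        intro x y h
        have hy : y = 0 := by
          by_contra hy
          apply ht0 (-(x / y))
          have h1 : ρ t0 w = y⁻¹ • (y • ρ t0 w) := by rw [smul_smul, inv_mul_cancel₀ hy, one_smul]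
          have h2 : y • ρ t0 w = - (x • w) := by
            rw [eq_neg_iff_add_eq_zero, add_comm]; exact h
          rw [h1, h2, smul_neg, smul_smul, neg_smul]
          congr 2
          field_simp
        subst hy
        rw [zero_smul, add_zero] at h
        rcases smul_eq_zero.mp h with h | h
        · exact ⟨h, rfl⟩
        · exact absurd h hw
      have hspan : Submodule.span ℚ {w, ρ t0 w} = E0 := by
        have hle : Submodule.span ℚ {w, ρ t0 w} ≤ E0 := by
          rw [Submodule.span_le]
          intro v hv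
          rcases hv with rfl | rfl
          · exact hE1 _ (hwE 1)
          · exact hE1 _ (hstab t0 1)
        apply Submodule.eq_of_le_of_finrank_eq hle
        have h := finrank_span_eq_card hli2
        have hr : Set.range ![w, ρ t0 w] = {w, ρ t0 w} := by simp [Set.pair_comm]
        rw [hr] at h
        rw [h, hrank0]
        simp
      refine ⟨E0, hfin0, by omega, ?_⟩
      intro t
      have h1 : a ∈ E t⁻¹ := by
        have h2 : Submodule.span ℚ {w, ρ t0 w} ≤ E t⁻¹ := by
          rw [Submodule.span_le]
          intro v hv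
          rcases hv with rfl | rfl
          · exact hwE _
          · exact hstab _ _
        rw [hspan] at h2
        exact h2 haE0
      have h2 := hmemE' _ _ h1
      rwa [inv_inv] at h2
  · left
    exact ⟨U, hU, hU3, fun t => hEU t (hmemE t a haE0)⟩

theorem LinA_dim3 (u v w : V) : FiniteDimensional ℚ (Submodule.span ℚ ({u, v, w} : Set V)) ∧
    Module.finrank ℚ (Submodule.span ℚ ({u, v, w} : Set V)) ≤ 3 := by
  classical
  refine ⟨FiniteDimensional.span_of_finite ℚ (Set.toFinite _), ?_⟩
  have h := finrank_span_finset_le_card (R := ℚ) ({u, v, w} : Finset V)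
  have h2 : ((({u, v, w} : Finset V) : Set V)) = {u, v, w} := by simp
  rw [Set.finrank, h2] at h
  exact h.trans Finset.card_le_three

theorem LinA_final {a A B C : V} {ε : ℚ} (hε : ε = 1 ∨ ε = -1)
    (e1 : B + C = a + A ∨ B + C = -(a + A)) (e2 : A + C = a + B ∨ A + C = -(a + B))
    (e3 : A + ε • B = a + ε • C ∨ A + ε • B = -(a + ε • C))
    (n1 : a + A ≠ 0) (n2 : a + B ≠ 0) (hAB : B ≠ A) : ε • C + (a + A + B) = 0 := by
  rcases e1 with e1 | e1 <;> rcases e2 with e2 | e2
  · exfalso
    apply hAB
    linear_combination (norm := module) (1 / 2 : ℚ) • e1 - (1 / 2 : ℚ) • e2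
  · exfalso
    apply n1
    linear_combination (norm := module) (1 / 2 : ℚ) • e2 - (1 / 2 : ℚ) • e1
  · exfalso
    apply n2
    linear_combination (norm := module) (1 / 2 : ℚ) • e1 - (1 / 2 : ℚ) • e2
  · rcases hε with rfl | rfl
    · linear_combination (norm := module) e1
    · exfalso
      rcases e3 with e3 | e3
      · apply n2
        linear_combination (norm := module) (1 / 2 : ℚ) • e1 - (1 / 2 : ℚ) • e3
      · apply n1
        linear_combination (norm := module) (1 / 2 : ℚ) • e1 + (1 / 2 : ℚ) • e3

/-- the orbit lies in a space of dimension at most three -/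
theorem LinA_space [Finite D] (ρ : D →* Module.End ℚ V)
    (hc : ∀ s t, ρ s * ρ t = ρ t * ρ s) {a : V} (ha : a ≠ 0)
    (hdep : ∀ s t, ¬ LinearIndependent ℚ ![a, ρ s a, ρ t a, ρ s (ρ t a)]) :
    ∃ U : Submodule ℚ V, FiniteDimensional ℚ U ∧ Module.finrank ℚ U ≤ 3 ∧ ∀ t, ρ t a ∈ U := by
  by_contra hno
  have hcc : ∀ s t v, ρ s (ρ t v) = ρ t (ρ s v) := by
    intro s t v
    rw [← Module.End.mul_apply, hc, Module.End.mul_apply]
  -- (1)
  have h1 : ∀ s, ¬ (ρ s a = a ∨ ρ s a = -a) → ∃ z : ℚ, z ≠ 0 ∧ LinA_SV ρ (a + z • ρ s a) := by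
    intro s hs
    rcases LinA_step1 ρ hc ha hdep hs with h | ⟨x, y, hne, hsv⟩
    · exact absurd h hno
    · have hx : x ≠ 0 := by
        intro hx
        rw [hx, zero_smul, zero_add] at hne hsv
        have hy : y ≠ 0 := by
          intro hy
          rw [hy, zero_smul] at hne
          exact hne rfl
        have h := hsv s
        apply hs
        rcases h with h | h
        · left
          rw [map_smul] at h
          exact LinA_inj ρ s (smul_right_injective V hy h)
        · right
          rw [map_smul, ← smul_neg] at h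
          have h' := smul_right_injective V hy h
          apply LinA_inj ρ s
          rw [map_neg]
          exact h'
      have hy : y ≠ 0 := by
        intro hy
        rw [hy, zero_smul, add_zero] at hne hsv
        apply hs
        rcases hsv s with h | h
        · left
          rw [map_smul] at h
          exact smul_right_injective V hx h
        · right
          rw [map_smul, ← smul_neg] at h
          exact smul_right_injective V hx h
      refine ⟨y / x, div_ne_zero hy hx, ?_⟩
      intro d
      have hd := hsv d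
      have he : a + (y / x) • ρ s a = x⁻¹ • (x • a + y • ρ s a) := by
        rw [smul_add, smul_smul, smul_smul, inv_mul_cancel₀ hx, one_smul]
        congr 2
        field_simp
      rw [he, map_smul]
      rcases hd with hd | hd
      · left; rw [hd]
      · right; rw [hd, smul_neg]
  -- (2)
  have h2 : ∀ d, ρ d (ρ d a) = a := by
    intro d
    have hv : ∀ s, ∃ c : ℚ, ρ s (ρ d (ρ d a) - a) = c • (ρ d (ρ d a) - a) := by
      intro s
      by_cases hs : ρ s a = a ∨ ρ s a = -a
      · rcases hs with hs | hs
        · refine ⟨1, ?_⟩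
          rw [map_sub, hcc s d, hcc s d, hs, one_smul]
        · refine ⟨-1, ?_⟩
          rw [map_sub, hcc s d, hcc s d, hs, map_neg, map_neg]
          module
      · obtain ⟨z, hz, hsv⟩ := h1 s hs
        refine ⟨-z⁻¹, ?_⟩
        have hdd : ρ d (ρ d (a + z • ρ s a)) = a + z • ρ s a := by
          rcases hsv d with h | h
          · rw [h, h]
          · rw [h, map_neg, h, neg_neg]
        have h3 : z • ρ s (ρ d (ρ d a) - a) = - (ρ d (ρ d a) - a) := by
          rw [map_add, map_add, map_smul, map_smul] at hdd
          rw [map_sub, hcc s d, hcc s d]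
          linear_combination (norm := module) hdd
        have h4 : ρ s (ρ d (ρ d a) - a) = z⁻¹ • (z • ρ s (ρ d (ρ d a) - a)) := by
          rw [smul_smul, inv_mul_cancel₀ hz, one_smul]
        rw [h4, h3]
        module
    set v := ρ d (ρ d a) - a with hvdef
    obtain ⟨c, hcv⟩ := hv d
    have hvv : ρ d (ρ d v) = v := by
      rcases LinA_eig' ρ hcv with h | h
      · rw [h, h]
      · rw [h, map_neg, h, neg_neg]
    have hpow : ∀ n : ℕ, ρ ((d * d) ^ n) a = a + (n : ℚ) • v := by
      intro n
      induction n with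
      | zero => simp
      | succ n ih =>
        rw [pow_succ', LinA_mul, ih, LinA_mul, map_add, map_add, map_smul, map_smul, hvv]
        push_cast
        rw [hvdef]
        module
    have h3 := hpow (orderOf (d * d))
    rw [pow_orderOf_eq_one, map_one, Module.End.one_apply] at h3
    have h4 : ((orderOf (d * d) : ℕ) : ℚ) • v = 0 := by
      rw [left_eq_add] at h3
      exact h3
    have h5 : v = 0 := by
      rcases smul_eq_zero.mp h4 with h | h
      · exact absurd h (by exact_mod_cast (orderOf_pos (d * d)).ne')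
      · exact h
    rw [hvdef] at h5
    exact sub_eq_zero.mp h5
  -- (3)
  have h3 : ∀ s, ¬ (ρ s a = a ∨ ρ s a = -a) →
      ∃ z : ℚ, (z = 1 ∨ z = -1) ∧ LinA_SV ρ (a + z • ρ s a) ∧ a + z • ρ s a ≠ 0 := by
    intro s hs
    obtain ⟨z, hz, hsv⟩ := h1 s hs
    have hind := LinA_indep ρ ha hs
    refine ⟨z, ?_, hsv, ?_⟩
    · rcases hsv s with h | h
      · rw [map_add, map_smul, h2] at h
        have h4 : (z - 1) • a + (1 - z) • ρ s a = 0 := by
          linear_combination (norm := module) h
        left
        linarith [(hind _ _ h4).1]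
      · rw [map_add, map_smul, h2] at h
        have h4 : (z + 1) • a + (1 + z) • ρ s a = 0 := by
          linear_combination (norm := module) h
        right
        linarith [(hind _ _ h4).1]
    · intro h0
      have h4 : (1 : ℚ) • a + z • ρ s a = 0 := by rw [one_smul]; exact h0
      exact one_ne_zero (hind _ _ h4).1
  -- there is a nonscalar element
  have h4 : ∃ s, ¬ (ρ s a = a ∨ ρ s a = -a) := by
    by_contra hcon
    push Not at hcon
    apply hno
    refine ⟨Submodule.span ℚ {a, a, a}, (LinA_dim3 a a a).1, (LinA_dim3 a a a).2, ?_⟩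
    intro t
    have haa : a ∈ Submodule.span ℚ ({a, a, a} : Set V) := Submodule.subset_span (by simp)
    rcases hcon t with ht | ht
    · rw [ht]; exact haa
    · rw [ht]; exact Submodule.neg_mem _ haa
  obtain ⟨s, hs⟩ := h4
  have h5 : ∃ t, ¬ (ρ t a = a ∨ ρ t a = -a) ∧ ¬ (ρ t a = ρ s a ∨ ρ t a = - ρ s a) := by
    by_contra hcon
    push Not at hcon
    apply hno
    refine ⟨Submodule.span ℚ {a, a, ρ s a}, (LinA_dim3 _ _ _).1, (LinA_dim3 _ _ _).2, ?_⟩
    intro t
    have haa : a ∈ Submodule.span ℚ ({a, a, ρ s a} : Set V) := Submodule.subset_span (by simp)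
    have hsa : ρ s a ∈ Submodule.span ℚ ({a, a, ρ s a} : Set V) := Submodule.subset_span (by simp)
    by_cases ht : ρ t a = a
    · rw [ht]; exact haa
    by_cases ht' : ρ t a = -a
    · rw [ht']; exact Submodule.neg_mem _ haa
    rcases hcon t ⟨ht, ht'⟩ with hts | hts
    · rw [hts]; exact hsa
    · rw [hts]; exact Submodule.neg_mem _ hsa
  obtain ⟨t, ht, hts⟩ := h5
  have hst : ¬ (ρ (s * t) a = a ∨ ρ (s * t) a = -a) := by
    intro h
    apply hts
    rw [LinA_mul] at h
    have h6 : ρ s (ρ s (ρ t a)) = ρ t a := by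
      rw [hcc s t, hcc s t, h2]
    rcases h with h | h
    · left; rw [← h6, h]
    · right; rw [← h6, h, map_neg]
  obtain ⟨z1, hz1, hsv1, hne1⟩ := h3 s hs
  obtain ⟨z2, hz2, hsv2, hne2⟩ := h3 t ht
  obtain ⟨z3, hz3, hsv3, hne3⟩ := h3 (s * t) hst
  -- three sign vectors with sum `2 a`
  have hsum : (1 / 2 : ℚ) • (a + z1 • ρ s a) + (1 / 2 : ℚ) • (a + z2 • ρ t a) +
      (1 / 2 : ℚ) • (a + z3 • ρ (s * t) a) = a := by
    have e1 := hsv1 t
    have e2 := hsv2 s
    have e3 := hsv3 s
    rw [map_add, map_smul] at e1 e2 e3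
    rw [LinA_mul] at e3 hne3 ⊢
    have hss : ρ s (ρ s (ρ t a)) = ρ t a := by
      rw [hcc s t, hcc s t, h2]
    rw [hss] at e3
    rw [hcc t s] at e1
    set A := ρ s a with hA
    set B := ρ t a with hB
    set C := ρ s B with hC
    have hf := LinA_final (a := a) (A := z1 • A) (B := z2 • B) (C := (z1 * z2) • C)
      (ε := z1 * z2 * z3) (by
        rcases hz1 with rfl | rfl <;> rcases hz2 with rfl | rfl <;> rcases hz3 with rfl | rfl <;>
          norm_num)
      (by
        rcases hz1 with rfl | rfl <;> rcases hz2 with rfl | rfl <;> rcases e1 with e | e <;>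
        first
        | (left; linear_combination (norm := module) e)
        | (right; linear_combination (norm := module) e)
        | (left; linear_combination (norm := module) (-1 : ℚ) • e)
        | (right; linear_combination (norm := module) (-1 : ℚ) • e))
      (by
        rcases hz1 with rfl | rfl <;> rcases hz2 with rfl | rfl <;> rcases e2 with e | e <;>
        first
        | (left; linear_combination (norm := module) e)
        | (right; linear_combination (norm := module) e)
        | (left; linear_combination (norm := module) (-1 : ℚ) • e)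
        | (right; linear_combination (norm := module) (-1 : ℚ) • e))
      (by
        rcases hz1 with rfl | rfl <;> rcases hz2 with rfl | rfl <;> rcases hz3 with rfl | rfl <;>
          rcases e3 with e | e <;>
        first
        | (left; linear_combination (norm := module) e)
        | (right; linear_combination (norm := module) e)
        | (left; linear_combination (norm := module) (-1 : ℚ) • e)
        | (right; linear_combination (norm := module) (-1 : ℚ) • e))
      hne1 hne2
      (by
        intro h
        apply hts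
        rcases hz1 with rfl | rfl <;> rcases hz2 with rfl | rfl <;>
        first
        | (left; linear_combination (norm := module) h)
        | (right; linear_combination (norm := module) h)
        | (left; linear_combination (norm := module) (-1 : ℚ) • h)
        | (right; linear_combination (norm := module) (-1 : ℚ) • h))
    have hz : (z1 * z2 * z3) • (z1 * z2) • C = z3 • C := by
      rw [smul_smul]
      congr 1
      rcases hz1 with rfl | rfl <;> rcases hz2 with rfl | rfl <;> ring
    rw [hz] at hf
    linear_combination (norm := module) (1 / 2 : ℚ) • hf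
  apply hno
  refine ⟨Submodule.span ℚ {a + z1 • ρ s a, a + z2 • ρ t a, a + z3 • ρ (s * t) a},
    (LinA_dim3 _ _ _).1, (LinA_dim3 _ _ _).2, ?_⟩
  intro d
  have hda := congrArg (ρ d) hsum
  rw [map_add, map_add, map_smul, map_smul, map_smul] at hda
  rw [← hda]
  refine Submodule.add_mem _ (Submodule.add_mem _ (Submodule.smul_mem _ _ ?_)
    (Submodule.smul_mem _ _ ?_)) (Submodule.smul_mem _ _ ?_)
  · have hm : a + z1 • ρ s a ∈ Submodule.span ℚ
        ({a + z1 • ρ s a, a + z2 • ρ t a, a + z3 • ρ (s * t) a} : Set V) :=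
      Submodule.subset_span (by simp)
    rcases hsv1 d with h | h
    · rw [h]; exact hm
    · rw [h]; exact Submodule.neg_mem _ hm
  · have hm : a + z2 • ρ t a ∈ Submodule.span ℚ
        ({a + z1 • ρ s a, a + z2 • ρ t a, a + z3 • ρ (s * t) a} : Set V) :=
      Submodule.subset_span (by simp)
    rcases hsv2 d with h | h
    · rw [h]; exact hm
    · rw [h]; exact Submodule.neg_mem _ hm
  · have hm : a + z3 • ρ (s * t) a ∈ Submodule.span ℚ
        ({a + z1 • ρ s a, a + z2 • ρ t a, a + z3 • ρ (s * t) a} : Set V) :=
      Submodule.subset_span (by simp)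
    rcases hsv3 d with h | h
    · rw [h]; exact hm
    · rw [h]; exact Submodule.neg_mem _ hm

end LinA

/-- A finite group of commuting maps such that `a, s a, t a, s t a` are always dependent has a small orbit. -/
theorem linA {D V : Type*} [Group D] [Finite D] [AddCommGroup V] [Module ℚ V] (ρ : D →* Module.End ℚ V)
    (hc : ∀ s t, ρ s * ρ t = ρ t * ρ s) (a : V)
    (hdep : ∀ s t, ¬ LinearIndependent ℚ ![a, ρ s a, ρ t a, ρ s (ρ t a)]) :
    Nat.card (Set.range fun s => ρ s a) ≤ 3 ^ 9 := by
  by_cases ha : a = 0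
  · subst ha
    have h : (Set.range fun s : D => ρ s (0 : V)) = {0} := by
      ext v
      simp
    rw [h]
    simp
  · obtain ⟨U, hU, hU3, hmem⟩ := LinA_space ρ hc ha hdep
    exact card_orbit_le ρ a U hU hU3 hmem

end Pool.Agent.H49.St
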