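import Pool.Agent.H49.St.Planes
import Pool.Agent.H49.St.Mink

/-!
# Two commuting groups, four dependent vectors

`M1`, `M2` finite groups acting on `V` by commuting linear maps, `a ∈ V`, and for all `s ∈ M1`, `t ∈ M2` the vectors `a, s a, t a, s t a` are linearly dependent.
Then the `M2`-orbit of `a` is small, or the derived groups `M1' = commutator M1`, `M2'` satisfy `|M1' a| |M2' a| ≤ |M1' M2' a|`.

Proof. If `a = 0` everything is trivial. Let `p = (1/|M2'|) ∑_{t ∈ M2'} ρ2 t` (the projection onto the `M2'`-fixed vectors), `a'' = p a`, `a' = a - a''`; `p` commutes with all `ρ1 s`.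
CLAIM: either the first alternative holds, or for every `s ∈ M1`: `ρ1 s a' = a'` or `ρ1 s a' = - a'`.
 Let `s ∈ M1`. If `ρ1 s a = c a` with `c` rational, then `c = ± 1` (finite order) and `ρ1 s a' = c a'`. Otherwise `a, s a` are linearly independent; `E = span {a, s a}`, `E_t = ρ2 t E`.
 For `t, t'` in `M2` the intersection `E_t ⊓ E_t'` is nonzero: apply `ρ2 t`, it is enough that `E ⊓ ρ2 (t⁻¹ t') E ≠ ⊥`, which follows from the dependence of `a, sa, ta, sta` (both pairs being independent).
 `planes`: either all `E_t` lie in `U` with `dim U ≤ 3`: then `ρ2 t a ∈ U`, first alternative by `card_orbit_le`. Or `I = ⨅ E_t ≠ ⊥`; `I` is stable under all `ρ2 t`, `I ≤ E`.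
 If `dim I = 2` then `I = E` is stable and contains `a`: first alternative again (`U = E`). If `dim I = 1`: `I = span w`, `w = x a + y s a ≠ 0`, `ρ2 t w = ε(t) w`, `ε(t)` rational,
 multiplicative, so `ρ2 t w = w` for `t ∈ M2'` (commutators act trivially on a line), so `p w = w`, and `0 = w - p w = x a' + y (ρ1 s a')`.
 If `y = 0` then `x ≠ 0`, `a' = 0`, fine. Else `ρ1 s a' = - (x/y) a'`, and `- (x/y) = ± 1` by finite order (if `a' ≠ 0`).
END: so `M1` acts on `a'` by signs, `M1'` trivially. For `s ∈ M1'`, `t ∈ M2'`: `ρ1 s (ρ2 t a) = ρ2 t a' + ρ1 s a''` [`ρ2 t a'' = a''`, `ρ1 s a' = a'`], where the first summand is killed by `p` and the second is fixed by `p`.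
 So the orbit `{ρ1 s (ρ2 t a)}` is in bijection with `{ρ2 t a'} × {ρ1 s a''}`, `ρ2 t a = ρ2 t a' + a''`, `ρ1 s a = a' + ρ1 s a''` show that the two factors have the cardinalities of `M2' a` and `M1' a`.
-/

set_option autoImplicit false

namespace Pool.Agent.H49.St

namespace LinB

/-- an eigenvalue of a finite group element is a sign -/
theorem eig_sign {M V : Type*} [Group M] [Finite M] [AddCommGroup V] [Module ℚ V]
    (ρ : M →* Module.End ℚ V) (s : M) (v : V) (c : ℚ) (h : ρ s v = c • v) :
    ρ s v = v ∨ ρ s v = -v := by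
  by_cases hv : v = 0
  · left
    simp [hv]
  · have hpow : ∀ n : ℕ, (ρ (s ^ n)) v = c ^ n • v := by
      intro n
      induction n with
      | zero => simp
      | succ n ih =>
        rw [pow_succ, map_mul, Module.End.mul_apply, h, map_smul, ih, smul_smul, pow_succ, mul_comm]
    have h1 : c ^ (orderOf s) = 1 := by
      have := hpow (orderOf s)
      rw [pow_orderOf_eq_one, map_one, Module.End.one_apply] at this
      have h2 : (c ^ (orderOf s) - 1) • v = 0 := by
        rw [sub_smul, one_smul, ← this, sub_self]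
      rcases smul_eq_zero.1 h2 with h3 | h3
      · linarith
      · exact absurd h3 hv
    rcases (pow_eq_one_iff_cases).1 h1 with h2 | h2 | h2
    · exact absurd h2 (orderOf_pos s).ne'
    · left
      rw [h, h2, one_smul]
    · right
      rw [h, h2.1, neg_smul, one_smul]

/-- the fixed subgroup of a vector -/
def fixer {M V : Type*} [Group M] [AddCommGroup V] [Module ℚ V] (ρ : M →* Module.End ℚ V) (x : V) :
    Subgroup M where
  carrier := {g | ρ g x = x}
  mul_mem' := by
    intro g h hg hh
    simp only [Set.mem_ofPred_eq, map_mul, Module.End.mul_apply] at *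
    rw [hh, hg]
  one_mem' := by simp
  inv_mem' := by
    intro g hg
    simp only [Set.mem_ofPred_eq] at *
    calc ρ g⁻¹ x = ρ g⁻¹ (ρ g x) := by rw [hg]
      _ = (ρ g⁻¹ * ρ g) x := rfl
      _ = x := by rw [← map_mul]; simp

/-- commutators act trivially on an invariant line -/
theorem comm_fix {M V : Type*} [Group M] [AddCommGroup V] [Module ℚ V]
    (ρ : M →* Module.End ℚ V) (w : V) (h : ∀ t, ∃ c : ℚ, ρ t w = c • w) :
    ∀ t ∈ commutator M, ρ t w = w := by
  have key : commutator M ≤ fixer ρ w := by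
    rw [commutator_def, Subgroup.commutator_le]
    intro x _ y _
    change ρ (x * y * x⁻¹ * y⁻¹) w = w
    have hxy : ρ (x * y) w = ρ (y * x) w := by
      obtain ⟨c, hc⟩ := h x
      obtain ⟨d, hd⟩ := h y
      rw [map_mul, map_mul, Module.End.mul_apply, Module.End.mul_apply, hc, hd, map_smul, map_smul,
        hc, hd, smul_smul, smul_smul, mul_comm]
    have h2 : ρ (x * y) (ρ ((y * x)⁻¹) w) = ρ (y * x) (ρ ((y * x)⁻¹) w) := by
      obtain ⟨c, hc⟩ := h ((y * x)⁻¹)
      rw [hc, map_smul, map_smul, hxy]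
    have h3 : x * y * x⁻¹ * y⁻¹ = (x * y) * (y * x)⁻¹ := by
      group
    rw [h3, map_mul, Module.End.mul_apply, h2, ← Module.End.mul_apply, ← map_mul, mul_inv_cancel,
      map_one, Module.End.one_apply]
  intro t ht
  exact key ht

section avg

variable {M V : Type*} [Group M] [AddCommGroup V] [Module ℚ V]

/-- average over the commutator subgroup -/
noncomputable def avg [Fintype (commutator M)] (ρ : M →* Module.End ℚ V) : Module.End ℚ V :=
  ((Fintype.card (commutator M) : ℚ))⁻¹ • ∑ t : commutator M, ρ t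

theorem avg_apply [Fintype (commutator M)] (ρ : M →* Module.End ℚ V) (x : V) :
    avg ρ x = ((Fintype.card (commutator M) : ℚ))⁻¹ • ∑ t : commutator M, ρ t x := by
  simp [avg, LinearMap.sum_apply]

theorem avg_smul_vec [Fintype (commutator M)] (ρ : M →* Module.End ℚ V) (t : commutator M) (x : V) :
    avg ρ (ρ t x) = avg ρ x := by
  rw [avg_apply, avg_apply]
  congr 1
  rw [← Equiv.sum_comp (Equiv.mulRight t) (fun u : commutator M => ρ u x)]
  apply Finset.sum_congr rfl
  intro u _
  simp only [Equiv.coe_mulRight, Subgroup.coe_mul, map_mul, Module.End.mul_apply]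

theorem smul_avg [Fintype (commutator M)] (ρ : M →* Module.End ℚ V) (t : commutator M) (x : V) :
    ρ t (avg ρ x) = avg ρ x := by
  rw [avg_apply, map_smul, map_sum]
  congr 1
  rw [← Equiv.sum_comp (Equiv.mulLeft t) (fun u : commutator M => ρ u x)]
  apply Finset.sum_congr rfl
  intro u _
  simp only [Equiv.coe_mulLeft, Subgroup.coe_mul, map_mul, Module.End.mul_apply]

theorem avg_fixed [Fintype (commutator M)] (ρ : M →* Module.End ℚ V) (x : V)
    (h : ∀ t ∈ commutator M, ρ t x = x) : avg ρ x = x := by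
  rw [avg_apply]
  have : ∑ t : commutator M, ρ t x = (Fintype.card (commutator M) : ℚ) • x := by
    rw [Finset.sum_congr rfl (fun (t : commutator M) _ => h t t.2)]
    simp [Finset.sum_const, Nat.cast_smul_eq_nsmul]
  rw [this, smul_smul, inv_mul_cancel₀, one_smul]
  exact_mod_cast Fintype.card_ne_zero

theorem avg_comm [Fintype (commutator M)] {M1 : Type*} [Group M1] (ρ1 : M1 →* Module.End ℚ V)
    (ρ : M →* Module.End ℚ V) (hc : ∀ s t, ρ1 s * ρ t = ρ t * ρ1 s) (s : M1) (x : V) :
    ρ1 s (avg ρ x) = avg ρ (ρ1 s x) := by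
  rw [avg_apply, avg_apply, map_smul, map_sum]
  congr 1
  apply Finset.sum_congr rfl
  intro u _
  have := congrArg (fun f : Module.End ℚ V => f x) (hc s (u : M))
  simpa [Module.End.mul_apply] using this

end avg

theorem inv_apply {M V : Type*} [Group M] [AddCommGroup V] [Module ℚ V]
    (ρ : M →* Module.End ℚ V) (g : M) (x : V) : ρ g⁻¹ (ρ g x) = x := by
  calc ρ g⁻¹ (ρ g x) = (ρ g⁻¹ * ρ g) x := rfl
    _ = x := by rw [← map_mul]; simp

theorem apply_inj {M V : Type*} [Group M] [AddCommGroup V] [Module ℚ V]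
    (ρ : M →* Module.End ℚ V) (g : M) : Function.Injective (ρ g) := by
  intro x y h
  rw [← inv_apply ρ g x, h, inv_apply]

/-- the planes spanned by the translates -/
def pl {V : Type*} [AddCommGroup V] [Module ℚ V] (x y : V) : Submodule ℚ V :=
  Submodule.span ℚ (Set.range ![x, y])

theorem mem_pl {V : Type*} [AddCommGroup V] [Module ℚ V] {x y w : V} :
    w ∈ pl x y ↔ ∃ α β : ℚ, w = α • x + β • y := by
  unfold pl
  have : Set.range ![x, y] = {x, y} := by
    simp [Matrix.range_cons, Set.pair_comm]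
  rw [this, Submodule.mem_span_pair]
  constructor
  · rintro ⟨α, β, h⟩
    exact ⟨α, β, h.symm⟩
  · rintro ⟨α, β, h⟩
    exact ⟨α, β, h.symm⟩

theorem finrank_pl {V : Type*} [AddCommGroup V] [Module ℚ V] {x y : V}
    (h : LinearIndependent ℚ ![x, y]) : Module.finrank ℚ (pl x y) = 2 := by
  unfold pl
  rw [finrank_span_eq_card h]
  simp

instance pl_fin {V : Type*} [AddCommGroup V] [Module ℚ V] (x y : V) : FiniteDimensional ℚ (pl x y) := by
  unfold pl
  exact FiniteDimensional.span_of_finite ℚ (Set.finite_range _)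

/-- the claim for one `s` -/
theorem sign_step {M1 M2 V : Type*} [Group M1] [Group M2] [Finite M1] [Finite M2] [AddCommGroup V]
    [Module ℚ V] [Fintype (commutator M2)]
    (ρ1 : M1 →* Module.End ℚ V) (ρ2 : M2 →* Module.End ℚ V)
    (hc : ∀ s t, ρ1 s * ρ2 t = ρ2 t * ρ1 s) (a : V) (s : M1)
    (hdep : ∀ t, ¬ LinearIndependent ℚ ![a, ρ1 s a, ρ2 t a, ρ1 s (ρ2 t a)])
    (hbig : ¬ Nat.card (Set.range fun t => ρ2 t a) ≤ 3 ^ 9) :
    ∃ c : ℚ, ρ1 s (a - avg ρ2 a) = c • (a - avg ρ2 a) := by
  have hc' : ∀ s t x, ρ1 s (ρ2 t x) = ρ2 t (ρ1 s x) := by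
    intro s t x
    have := congrArg (fun f : Module.End ℚ V => f x) (hc s t)
    simpa [Module.End.mul_apply] using this
  by_cases hind : LinearIndependent ℚ ![a, ρ1 s a]
  · -- independent case
    have hpair : ∀ α β : ℚ, α • a + β • ρ1 s a = 0 → α = 0 ∧ β = 0 :=
      fun α β h => (LinearIndependent.pair_iff.1 hind) α β h
    have hindt : ∀ t, LinearIndependent ℚ ![ρ2 t a, ρ2 t (ρ1 s a)] := by
      intro t
      rw [LinearIndependent.pair_iff]
      intro α β h
      apply hpair
      apply apply_inj ρ2 t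
      rw [map_add, map_smul, map_smul, h, map_zero]
    let E : M2 → Submodule ℚ V := fun t => pl (ρ2 t a) (ρ2 t (ρ1 s a))
    have hEmul : ∀ t t' x, x ∈ E t' → ρ2 t x ∈ E (t * t') := by
      intro t t' x hx
      obtain ⟨α, β, rfl⟩ := mem_pl.1 hx
      refine mem_pl.2 ⟨α, β, ?_⟩
      rw [map_add, map_smul, map_smul, map_mul, Module.End.mul_apply, Module.End.mul_apply]
    have hmeet1 : ∀ u, ∃ x, x ≠ 0 ∧ x ∈ E 1 ∧ x ∈ E u := by
      intro u
      have hd := hdep u
      rw [Fintype.not_linearIndependent_iff] at hd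
      obtain ⟨g, hg, i, hi⟩ := hd
      simp only [Fin.sum_univ_four, Matrix.cons_val_zero, Matrix.cons_val_one, Matrix.cons_val] at hg
      rw [hc' s u a] at hg
      refine ⟨g 0 • a + g 1 • ρ1 s a, ?_, ?_, ?_⟩
      · intro h0
        obtain ⟨h00, h01⟩ := hpair _ _ h0
        have h1 : g 2 • ρ2 u a + g 3 • ρ2 u (ρ1 s a) = 0 := by
          have := hg
          rw [add_assoc, h0, zero_add] at this
          exact this
        obtain ⟨h02, h03⟩ := (LinearIndependent.pair_iff.1 (hindt u)) _ _ h1
        apply hi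
        fin_cases i
        · exact h00
        · exact h01
        · exact h02
        · exact h03
      · refine mem_pl.2 ⟨g 0, g 1, ?_⟩
        simp
      · refine mem_pl.2 ⟨-g 2, -g 3, ?_⟩
        have : g 0 • a + g 1 • ρ1 s a = -(g 2 • ρ2 u a + g 3 • ρ2 u (ρ1 s a)) := by
          rw [eq_neg_iff_add_eq_zero, ← add_assoc]
          exact hg
        rw [this]
        simp only [neg_smul]
        abel
    have hmeet : ∀ t t', E t ⊓ E t' ≠ ⊥ := by
      intro t t'
      obtain ⟨x, hx0, hx1, hx2⟩ := hmeet1 (t⁻¹ * t')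
      have h1 := hEmul t 1 x hx1
      have h2 := hEmul t (t⁻¹ * t') x hx2
      rw [mul_one] at h1
      rw [mul_inv_cancel_left] at h2
      intro hbot
      have h3 : ρ2 t x ∈ E t ⊓ E t' := ⟨h1, h2⟩
      rw [hbot, Submodule.mem_bot] at h3
      apply hx0
      apply apply_inj ρ2 t
      rw [h3, map_zero]
    have haE : ∀ t, ρ2 t a ∈ E t := fun t => mem_pl.2 ⟨1, 0, by simp⟩
    rcases planes E (fun t => finrank_pl (hindt t)) hmeet with ⟨w, hw0, hw⟩ | ⟨U, hUf, hU3, hU⟩
    · -- common vector
      have hstab : ∀ t t', ρ2 t w ∈ E t' := by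
        intro t t'
        have := hEmul t (t⁻¹ * t') w (hw _)
        rwa [mul_inv_cancel_left] at this
      by_cases hline : ∀ t, ∃ c : ℚ, ρ2 t w = c • w
      · have hfix := comm_fix ρ2 w hline
        have hp := avg_fixed ρ2 w hfix
        obtain ⟨x, y, hxy⟩ := mem_pl.1 (hw 1)
        simp only [map_one, Module.End.one_apply] at hxy
        have h0 : x • (a - avg ρ2 a) + y • ρ1 s (a - avg ρ2 a) = 0 := by
          have h1 : avg ρ2 w = x • avg ρ2 a + y • ρ1 s (avg ρ2 a) := by
            rw [hxy, map_add, map_smul, map_smul, avg_comm ρ1 ρ2 hc]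
          have h2 : w - avg ρ2 w = 0 := by rw [hp, sub_self]
          rw [h1, hxy] at h2
          rw [map_sub, smul_sub, smul_sub, ← h2]
          abel
        by_cases hy : y = 0
        · rw [hy, zero_smul, add_zero] at h0
          have hx : x ≠ 0 := by
            intro hx
            apply hw0
            rw [hxy, hx, hy]
            simp
          rcases smul_eq_zero.1 h0 with h | h
          · exact absurd h hx
          · exact ⟨1, by rw [h]; simp⟩
        · refine ⟨-(x / y), ?_⟩
          have h1 : y • ρ1 s (a - avg ρ2 a) = -(x • (a - avg ρ2 a)) := by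
            rw [eq_neg_iff_add_eq_zero, add_comm]
            exact h0
          have h2 : ρ1 s (a - avg ρ2 a) = y⁻¹ • (y • ρ1 s (a - avg ρ2 a)) := by
            rw [smul_smul, inv_mul_cancel₀ hy, one_smul]
          rw [h2, h1, smul_neg, smul_smul, neg_smul, div_eq_inv_mul]
      · exfalso
        push Not at hline
        obtain ⟨t, ht⟩ := hline
        have hwi : LinearIndependent ℚ ![w, ρ2 t w] := by
          rw [LinearIndependent.pair_iff]
          intro α β h
          by_cases hβ : β = 0
          · rw [hβ, zero_smul, add_zero] at h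
            rcases smul_eq_zero.1 h with h1 | h1
            · exact ⟨h1, hβ⟩
            · exact absurd h1 hw0
          · exfalso
            apply ht (-(α / β))
            have h1 : β • ρ2 t w = -(α • w) := by
              rw [eq_neg_iff_add_eq_zero, add_comm]
              exact h
            have h2 : ρ2 t w = β⁻¹ • (β • ρ2 t w) := by
              rw [smul_smul, inv_mul_cancel₀ hβ, one_smul]
            rw [h2, h1, smul_neg, smul_smul, neg_smul, div_eq_inv_mul]
        have hle : ∀ t', pl w (ρ2 t w) ≤ E t' := by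
          intro t' v hv
          obtain ⟨α, β, rfl⟩ := mem_pl.1 hv
          exact Submodule.add_mem _ (Submodule.smul_mem _ _ (hw t'))
            (Submodule.smul_mem _ _ (hstab t t'))
        have heq : ∀ t', pl w (ρ2 t w) = E t' := by
          intro t'
          apply Submodule.eq_of_le_of_finrank_eq (hle t')
          rw [finrank_pl hwi]
          exact (finrank_pl (hindt t')).symm
        apply hbig
        apply card_orbit_le ρ2 a (pl w (ρ2 t w)) inferInstance (by rw [finrank_pl hwi]; norm_num)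
        intro m
        rw [heq m]
        exact haE m
    · exfalso
      apply hbig
      exact card_orbit_le ρ2 a U hUf hU3 (fun m => hU m (haE m))
  · -- dependent case
    rw [LinearIndependent.pair_iff] at hind
    push Not at hind
    obtain ⟨α, β, h0, hne⟩ := hind
    by_cases hβ : β = 0
    · have hα : α ≠ 0 := fun h => hne h hβ
      rw [hβ, zero_smul, add_zero] at h0
      rcases smul_eq_zero.1 h0 with h | h
      · exact absurd h hα
      · exact ⟨1, by rw [h]; simp⟩
    · refine ⟨-(α / β), ?_⟩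
      have h1 : β • ρ1 s a = -(α • a) := by
        rw [eq_neg_iff_add_eq_zero, add_comm]
        exact h0
      have h2 : ρ1 s a = (-(α / β)) • a := by
        have h2 : ρ1 s a = β⁻¹ • (β • ρ1 s a) := by
          rw [smul_smul, inv_mul_cancel₀ hβ, one_smul]
        rw [h2, h1, smul_neg, smul_smul, neg_smul, div_eq_inv_mul]
      rw [map_sub, avg_comm ρ1 ρ2 hc, h2, map_smul, smul_sub]

end LinB

open LinB in
/-- Two commuting finite groups such that `a, s a, t a, s t a` are always dependent. -/
theorem linB {M1 M2 V : Type*} [Group M1] [Group M2] [Finite M1] [Finite M2] [AddCommGroup V] [Module ℚ V]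
    (ρ1 : M1 →* Module.End ℚ V) (ρ2 : M2 →* Module.End ℚ V)
    (hc : ∀ s t, ρ1 s * ρ2 t = ρ2 t * ρ1 s) (a : V)
    (hdep : ∀ s t, ¬ LinearIndependent ℚ ![a, ρ1 s a, ρ2 t a, ρ1 s (ρ2 t a)]) :
    Nat.card (Set.range fun t => ρ2 t a) ≤ 3 ^ 9 ∨
      Nat.card (Set.range fun s : commutator M1 => ρ1 s a) * Nat.card (Set.range fun t : commutator M2 => ρ2 t a) ≤
        Nat.card (Set.range fun p : commutator M1 × commutator M2 => ρ1 p.1 (ρ2 p.2 a)) := by
  classical
  let _ : Fintype (commutator M2) := Fintype.ofFinite _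
  by_cases hbig : Nat.card (Set.range fun t => ρ2 t a) ≤ 3 ^ 9
  · exact Or.inl hbig
  right
  have hc' : ∀ s t x, ρ1 s (ρ2 t x) = ρ2 t (ρ1 s x) := by
    intro s t x
    have := congrArg (fun f : Module.End ℚ V => f x) (hc s t)
    simpa [Module.End.mul_apply] using this
  have hfix : ∀ s ∈ commutator M1, ρ1 s (a - avg ρ2 a) = a - avg ρ2 a :=
    comm_fix ρ1 _ (fun s => sign_step ρ1 ρ2 hc a s (hdep s) hbig)
  -- key formulas
  have hkey : ∀ (s : commutator M1) (t : commutator M2),
      ρ1 s (ρ2 t a) = ρ1 s a + ρ2 t a - a := by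
    intro s t
    have h1 : ρ1 s a = (a - avg ρ2 a) + ρ1 s (avg ρ2 a) := by
      have := hfix s s.2
      rw [map_sub] at this
      rw [← this]
      abel
    have h2 : ρ2 t (ρ1 s (avg ρ2 a)) = ρ1 s (avg ρ2 a) := by
      rw [← hc', smul_avg]
    have h3 : ρ2 t (avg ρ2 a) = avg ρ2 a := smul_avg ρ2 t a
    rw [hc' s t a, h1, map_add, h2, map_sub, h3]
    abel
  have hp1 : ∀ (s : commutator M1), avg ρ2 (ρ1 s a) = ρ1 s a - (a - avg ρ2 a) := by
    intro s
    have := hfix s s.2
    rw [map_sub] at this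
    rw [← avg_comm ρ1 ρ2 hc]
    rw [← this]
    abel
  have hp2 : ∀ (t : commutator M2), avg ρ2 (ρ2 t a) = avg ρ2 a := fun t => avg_smul_vec ρ2 t a
  rw [← Nat.card_prod]
  let A := Set.range fun s : commutator M1 => ρ1 s a
  let B := Set.range fun t : commutator M2 => ρ2 t a
  let C := Set.range fun p : commutator M1 × commutator M2 => ρ1 p.1 (ρ2 p.2 a)
  have hmem : ∀ x : A × B, (x.1 : V) + x.2 - a ∈ C := by
    rintro ⟨⟨u, s, rfl⟩, ⟨v, t, rfl⟩⟩
    refine ⟨(s, t), ?_⟩
    simp only
    rw [hkey]
  have : Finite C := Set.finite_coe_iff.2 (Set.finite_range _)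
  refine Nat.card_le_card_of_injective (fun x : A × B => (⟨(x.1 : V) + x.2 - a, hmem x⟩ : C)) ?_
  rintro ⟨⟨u, s, rfl⟩, ⟨v, t, rfl⟩⟩ ⟨⟨u', s', rfl⟩, ⟨v', t', rfl⟩⟩ h
  simp only [Subtype.mk.injEq] at h
  have hap := congrArg (avg ρ2) h
  rw [map_sub, map_sub, map_add, map_add, hp1, hp1, hp2, hp2] at hap
  have hu : ρ1 (s : M1) a = ρ1 (s' : M1) a := by
    have h1 : ρ1 (s : M1) a - (a - avg ρ2 a) = ρ1 (s' : M1) a - (a - avg ρ2 a) := by
      have h2 := congrArg (fun z => z + avg ρ2 a - avg ρ2 a) hap
      simp only [add_sub_cancel_right] at h2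
      simpa using hap
    exact sub_left_injective h1
  have hv : ρ2 (t : M2) a = ρ2 (t' : M2) a := by
    rw [hu] at h
    simpa using h
  exact Prod.ext (Subtype.ext hu) (Subtype.ext hv)

end Pool.Agent.H49.St
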