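import Pool.Agent.H49.St.Mink

/-!
# Finite groups acting on a rational space of dimension at most `d` (Minkowski)
-/

set_option autoImplicit false

namespace Pool.Agent.H49.St

/-- Minkowski: the image of a finite group in `GL(U)`, `dim U ≤ 3` over `ℚ`, has at most `3 ^ 9` elements. -/
theorem card_range_le_dim {M U : Type*} [Group M] [Finite M] [AddCommGroup U] [Module ℚ U]
    [FiniteDimensional ℚ U] (ρ : M →* Module.End ℚ U) (d : ℕ) (hU : Module.finrank ℚ U ≤ d) :
    Nat.card (Set.range ρ) ≤ 3 ^ (d * d) := by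
  classical
  let u := Module.finBasis ℚ U
  let T : Set U := Set.range fun p : M × Fin (Module.finrank ℚ U) => ρ p.1 (u p.2)
  let L : Submodule ℤ U := Submodule.span ℤ T
  have hstab : ∀ (m : M) (x : U), x ∈ L → ρ m x ∈ L := by
    intro m x hx
    induction hx using Submodule.span_induction with
    | mem x hx =>
      obtain ⟨p, rfl⟩ := hx
      refine Submodule.subset_span ⟨(m * p.1, p.2), ?_⟩
      simp only [map_mul]
      rfl
    | zero => rw [map_zero]; exact Submodule.zero_mem _
    | add x y _ _ h1 h2 => rw [map_add]; exact Submodule.add_mem _ h1 h2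
    | smul c x _ h1 =>
      rw [map_zsmul]
      exact Submodule.smul_mem _ _ h1
  have hfin : Module.Finite ℤ L := Module.Finite.span_of_finite ℤ (Set.finite_range _)
  have hatf : IsAddTorsionFree U := .of_module_rat U
  have htf : Module.IsTorsionFree ℤ L := inferInstance
  have hfree : Module.Free ℤ L := inferInstance
  let b := Module.finBasis ℤ L
  have hd : Module.finrank ℤ L ≤ d := by
    have h1 : LinearIndependent ℤ (fun i => (b i : U)) :=
      b.linearIndependent.map' L.subtype (Submodule.ker_subtype L)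
    have h2 : LinearIndependent ℚ (fun i => (b i : U)) :=
      (LinearIndependent.iff_fractionRing ℤ ℚ).1 h1
    have h4 := h2.fintype_card_le_finrank
    rw [Fintype.card_fin] at h4
    exact h4.trans hU
  let res : M →* Module.End ℤ L :=
    { toFun := fun m => ((ρ m).restrictScalars ℤ).restrict (hstab m)
      map_one' := by
        ext x
        show ρ 1 (x : U) = x
        rw [map_one]; rfl
      map_mul' := fun m m' => by
        ext x
        show ρ (m * m') (x : U) = ρ m (ρ m' x)
        rw [map_mul]; rfl }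
  have hres : ∀ m m', res m = res m' → ρ m = ρ m' := by
    intro m m' h
    refine u.ext fun i => ?_
    have hi : u i ∈ L := Submodule.subset_span ⟨(1, i), by simp⟩
    have h1 := congrArg (fun f : Module.End ℤ L => ((f ⟨u i, hi⟩ : L) : U)) h
    exact h1
  let A : M →* Matrix (Fin (Module.finrank ℤ L)) (Fin (Module.finrank ℤ L)) ℤ :=
    ((LinearMap.toMatrixAlgEquiv b : Module.End ℤ L ≃ₐ[ℤ] _) :
      Module.End ℤ L →* Matrix (Fin (Module.finrank ℤ L)) (Fin (Module.finrank ℤ L)) ℤ).comp res
  have hA : ∀ m m', A m = A m' → ρ m = ρ m' := by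
    intro m m' h
    exact hres m m' ((LinearMap.toMatrixAlgEquiv b).injective h)
  let ψ : M →* Matrix (Fin (Module.finrank ℤ L)) (Fin (Module.finrank ℤ L)) (ZMod 3) :=
    (((Int.castRingHom (ZMod 3)).mapMatrix :
      Matrix (Fin (Module.finrank ℤ L)) (Fin (Module.finrank ℤ L)) ℤ →+* _) :
      Matrix (Fin (Module.finrank ℤ L)) (Fin (Module.finrank ℤ L)) ℤ →*
        Matrix (Fin (Module.finrank ℤ L)) (Fin (Module.finrank ℤ L)) (ZMod 3)).comp A
  have hψ : ∀ m m', ψ m = ψ m' → ρ m = ρ m' := by
    intro m m' h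
    apply hA
    have h1 : ψ (m⁻¹ * m') = 1 := by
      rw [map_mul, ← h, ← map_mul, inv_mul_cancel, map_one]
    have h2 : A (m⁻¹ * m') = 1 := by
      refine mink_matrix (n := Nat.card M) Nat.card_pos _ ?_ h1
      rw [← map_pow, pow_card_eq_one', map_one]
    have h4 : A m' = A m * A (m⁻¹ * m') := by
      rw [← map_mul, mul_inv_cancel_left]
    rw [h4, h2, mul_one]
  have hcard : Nat.card (Matrix (Fin (Module.finrank ℤ L)) (Fin (Module.finrank ℤ L)) (ZMod 3)) ≤
      3 ^ (d * d) := by
    have h1 : Nat.card (Matrix (Fin (Module.finrank ℤ L)) (Fin (Module.finrank ℤ L)) (ZMod 3)) =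
        3 ^ (Module.finrank ℤ L * Module.finrank ℤ L) := by
      change Nat.card (Fin (Module.finrank ℤ L) → Fin (Module.finrank ℤ L) → ZMod 3) = _
      rw [Nat.card_fun, Nat.card_fun, Nat.card_zmod, Nat.card_fin, ← pow_mul]
    rw [h1]
    refine Nat.pow_le_pow_right (by norm_num) ?_
    exact Nat.mul_le_mul hd hd
  refine le_trans (Nat.card_le_card_of_injective
    (fun x : Set.range ρ => ψ x.2.choose) ?_) hcard
  intro x y hxy
  have h1 := hψ _ _ hxy
  rw [x.2.choose_spec, y.2.choose_spec] at h1
  exact Subtype.ext h1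


end Pool.Agent.H49.St
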