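import Mathlib

/-!
# Numerical inequalities for the structure theorem
-/

set_option autoImplicit false

namespace Pool.Agent.H49.St

open Filter Asymptotics

/-- `(log x)^2` times a constant is at most a small power. -/
theorem log_sq_le {δ : ℝ} (hδ : 0 < δ) : ∀ᶠ x : ℝ in atTop, 256 * (Real.log x) ^ 2 ≤ x ^ δ := by
  have h1 := (isLittleO_log_rpow_atTop (r := δ / 2) (by linarith)).bound (c := 1 / 16) (by norm_num)
  filter_upwards [h1, eventually_gt_atTop (1 : ℝ)] with x hx hx1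
  have hl : 0 < Real.log x := Real.log_pos hx1
  have hx0 : 0 < x := by linarith
  rw [Real.norm_of_nonneg hl.le, Real.norm_of_nonneg (Real.rpow_nonneg hx0.le _)] at hx
  have h2 : x ^ δ = (x ^ (δ / 2)) ^ 2 := by
    rw [← Real.rpow_natCast, ← Real.rpow_mul hx0.le]
    congr 1
    push_cast
    ring
  rw [h2]
  have h3 : 0 < x ^ (δ / 2) := Real.rpow_pos_of_pos hx0 _
  nlinarith

theorem natlog_sq_le {n b : ℕ} (hb : b ≤ n) (hn : 1 ≤ n) :
    (((2 * Nat.log 2 b) ^ 2 : ℕ) : ℝ) ≤ 16 * (Real.log n) ^ 2 := by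
  have h1 : (Nat.log 2 b : ℝ) ≤ Real.log n / Real.log 2 := by
    have h2 : (Nat.log 2 b : ℝ) ≤ Nat.log 2 n := by exact_mod_cast Nat.log_mono_right hb
    refine h2.trans ?_
    have h3 : (Nat.log 2 n : ℝ) ≤ Real.logb 2 n := by
      have := Real.natLog_le_logb n 2
      exact_mod_cast this
    rwa [Real.logb] at h3
  have hl : 0 ≤ Real.log n := Real.log_nonneg (by exact_mod_cast hn)
  have hl2 : (1 / 2 : ℝ) < Real.log 2 := by
    have := Real.log_two_gt_d9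
    linarith
  have h4 : Real.log n / Real.log 2 ≤ 2 * Real.log n := by
    rw [div_le_iff₀ (by linarith)]
    nlinarith
  have h5 : (0 : ℝ) ≤ (Nat.log 2 b : ℝ) := by positivity
  push_cast
  nlinarith

/-- All the numerical conditions of `gamma` for `n` large. -/
theorem numerics {ε : ℝ} (hε : 0 < ε) (hε' : ε ≤ 1 / 12) (C : ℕ) :
    ∃ n0 : ℕ, 3 ≤ n0 ∧ ∀ n b : ℕ, n0 ≤ n → (n : ℝ) ^ (1 - ε) ≤ 2 * b → b ≤ n →
      16 * (((2 * Nat.log 2 b) ^ 2 : ℕ) : ℝ) * (b : ℝ) ^ 3 ≤ (n : ℝ) ^ (7 / 2 - ε) ∧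
      4 * (((2 * Nat.log 2 b) ^ 2 : ℕ) : ℝ) * (b : ℝ) * (n : ℝ) ^ (1 - 4 * ε) ≤ (n : ℝ) ^ (2 - 2 * ε) ∧
      (3 : ℝ) ^ 9 ≤ (n : ℝ) ^ (1 - 4 * ε) ∧ 2 * (b : ℝ) ≤ ((n : ℝ) ^ (1 - 4 * ε)) ^ 2 ∧ C < b := by
  have e1 := log_sq_le (δ := 1 / 2 - ε) (by linarith)
  have e2 := log_sq_le (δ := 2 * ε) (by linarith)
  have e3 := (tendsto_rpow_atTop (y := 1 - 4 * ε) (by linarith)).eventually_ge_atTop ((3 : ℝ) ^ 9)
  have e4 := (tendsto_rpow_atTop (y := 1 - 8 * ε) (by linarith)).eventually_ge_atTop (2 : ℝ)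
  have e5 := (tendsto_rpow_atTop (y := 1 - ε) (by linarith)).eventually_ge_atTop (2 * (C : ℝ) + 1)
  have e := e1.and (e2.and (e3.and (e4.and e5)))
  have e' := tendsto_natCast_atTop_atTop.eventually e
  obtain ⟨n0, hn0⟩ := eventually_atTop.mp e'
  refine ⟨max n0 3, le_max_right _ _, ?_⟩
  intro n b hn hb hbn
  obtain ⟨f1, f2, f3, f4, f5⟩ := hn0 n (le_trans (le_max_left _ _) hn)
  have hn3 : 3 ≤ n := le_trans (le_max_right _ _) hn
  have hnpos : (0 : ℝ) < n := by exact_mod_cast (by omega : 0 < n)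
  have hL := natlog_sq_le hbn (by omega)
  have hbn' : (b : ℝ) ≤ n := by exact_mod_cast hbn
  have hb0 : (0 : ℝ) ≤ b := by positivity
  set L : ℝ := (((2 * Nat.log 2 b) ^ 2 : ℕ) : ℝ) with hLdef
  have hL0 : 0 ≤ L := by positivity
  refine ⟨?_, ?_, f3, ?_, ?_⟩
  · have g1 : (n : ℝ) ^ (7 / 2 - ε) = (n : ℝ) ^ (1 / 2 - ε) * (n : ℝ) ^ 3 := by
      rw [← Real.rpow_natCast, ← Real.rpow_add hnpos]
      congr 1
      push_cast
      ring
    rw [g1]
    have g2 : (b : ℝ) ^ 3 ≤ (n : ℝ) ^ 3 := pow_le_pow_left₀ hb0 hbn' 3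
    have g3 : 16 * L ≤ (n : ℝ) ^ (1 / 2 - ε) := by linarith
    exact mul_le_mul g3 g2 (by positivity) (by positivity)
  · have g1 : (n : ℝ) ^ (2 - 2 * ε) = (n : ℝ) ^ (2 * ε) * (n : ℝ) * (n : ℝ) ^ (1 - 4 * ε) := by
      rw [mul_assoc, ← Real.rpow_one_add' hnpos.le (by linarith), ← Real.rpow_add hnpos]
      congr 1
      ring
    rw [g1]
    have g3 : 4 * L ≤ (n : ℝ) ^ (2 * ε) := by nlinarith [sq_nonneg (Real.log (n : ℝ))]
    exact mul_le_mul_of_nonneg_right (mul_le_mul g3 hbn' hb0 (by positivity)) (by positivity)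
  · have g1 : ((n : ℝ) ^ (1 - 4 * ε)) ^ 2 = (n : ℝ) ^ (1 - 8 * ε) * n := by
      rw [← Real.rpow_natCast, ← Real.rpow_mul hnpos.le, ← Real.rpow_add_one hnpos.ne']
      congr 1
      push_cast
      ring
    rw [g1]
    nlinarith
  · have : (C : ℝ) < b := by linarith
    exact_mod_cast this

end Pool.Agent.H49.St
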