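import Pool.Agent.H49.St.Pure
import Pool.Agent.H49.St.MinkD

/-!
# The order of the group: if `r`-tuples have large orbits then the permutation group is large
-/

set_option autoImplicit false

namespace Pool.Agent.H49.St

variable {Γ V : Type*} [Group Γ] [Finite Γ] [AddCommGroup V] [Module ℚ V]

/-- Bound of the index of the stabiliser of a tuple of vectors by the order of the permutation group. -/
theorem index_iInf_stab_le (ρ : Γ →* Module.End ℚ V) (a : V) {r : ℕ} (g : Fin r → Γ) :
    (⨅ i, stab ρ (ρ (g i) a)).index ≤ 2 ^ r * Nat.card (Γ ⧸ (lstab ρ a).normalCore) := by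
  classical
  set R := (lstab ρ a).normalCore with hR
  set W : Subgroup Γ := ⨅ i, stab ρ (ρ (g i) a) with hW
  have hsign : ∀ x ∈ R, ∀ i, ρ x (ρ (g i) a) = ρ (g i) a ∨ ρ x (ρ (g i) a) = - ρ (g i) a := by
    intro x hx i
    have h1 : (g i)⁻¹ * x * (g i)⁻¹⁻¹ ∈ lstab ρ a := hx (g i)⁻¹
    rw [inv_inv] at h1
    have h2 : ρ x (ρ (g i) a) = ρ (g i) (ρ ((g i)⁻¹ * x * g i) a) := by
      rw [map_mul, map_mul, Module.End.mul_apply, Module.End.mul_apply, apply_inv_apply]
    rcases h1 with h1 | h1
    · left; rw [h2, h1]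
    · right; rw [h2, h1, map_neg]
  have h1 : W.index ≤ (W ⊓ R).index :=
    Nat.le_of_dvd (Nat.pos_of_ne_zero Subgroup.index_ne_zero_of_finite) (Subgroup.index_dvd_of_le inf_le_left)
  have h2 : (W ⊓ R).relIndex R * R.index = (W ⊓ R).index := Subgroup.relIndex_mul_index inf_le_right
  rw [Subgroup.inf_relIndex_right] at h2
  have h3 : W.relIndex R ≤ 2 ^ r := by
    have h4 : Nat.card (Fin r → Bool) = 2 ^ r := by
      rw [Nat.card_eq_fintype_card, Fintype.card_fun, Fintype.card_bool, Fintype.card_fin]
    rw [← h4, Subgroup.relIndex, Subgroup.index]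
    let f : R → (Fin r → Bool) := fun x i => decide (ρ (x : Γ) (ρ (g i) a) = ρ (g i) a)
    refine Nat.card_le_card_of_injective (fun q : R ⧸ W.subgroupOf R => f q.out) ?_
    intro q q' hqq
    rw [← q.out_eq, ← q'.out_eq]
    have hWmem : ∀ x : Γ, (∀ i, ρ x (ρ (g i) a) = ρ (g i) a) → x ∈ W := by
      intro x hx
      rw [hW, Subgroup.mem_iInf]
      exact hx
    have h5 : (QuotientGroup.mk (s := W.subgroupOf R) q.out) = QuotientGroup.mk (s := W.subgroupOf R) q'.out := by
      rw [QuotientGroup.eq, Subgroup.mem_subgroupOf]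
      apply hWmem
      intro i
      have h6 : decide (ρ (q.out : Γ) (ρ (g i) a) = ρ (g i) a) = decide (ρ (q'.out : Γ) (ρ (g i) a) = ρ (g i) a) :=
        congrFun hqq i
      rw [decide_eq_decide] at h6
      rw [Subgroup.coe_mul, Subgroup.coe_inv, map_mul, Module.End.mul_apply]
      by_cases h7 : ρ (q.out : Γ) (ρ (g i) a) = ρ (g i) a
      · rw [h6.mp h7]
        have := inv_apply_apply ρ (q.out : Γ) (ρ (g i) a)
        rwa [h7] at this
      · have h8 := (hsign _ q.out.2 i).resolve_left h7
        have h9 := (hsign _ q'.out.2 i).resolve_left (fun h => h7 (h6.mpr h))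
        rw [h9, map_neg]
        have := inv_apply_apply ρ (q.out : Γ) (ρ (g i) a)
        rw [h8, map_neg] at this
        exact this
    exact h5
  calc W.index ≤ W.relIndex R * R.index := by rw [h2]; exact h1
    _ ≤ 2 ^ r * R.index := Nat.mul_le_mul_right _ h3
    _ = 2 ^ r * Nat.card (Γ ⧸ R) := rfl

theorem spanOrbit_finite (ρ : Γ →* Module.End ℚ V) (a : V) : FiniteDimensional ℚ (spanOrbit ρ a) :=
  FiniteDimensional.span_of_finite ℚ (Set.finite_range _)

/-- Either the number of lines is bounded or the permutation group has large order. -/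
theorem order_alternative (ρ : Γ →* Module.End ℚ V) (a : V) (r : ℕ) (X : ℝ)
    (HX : ∀ g : Fin r → Γ, LinearIndependent ℚ (fun i => ρ (g i) a) →
      X < ((⨅ i, stab ρ (ρ (g i) a)).index : ℝ)) :
    (stab ρ a).index ≤ 3 ^ (r * r) ∨ X < 2 ^ r * (Nat.card (Γ ⧸ (lstab ρ a).normalCore) : ℝ) := by
  classical
  have hfin := spanOrbit_finite ρ a
  by_cases hd : Module.finrank ℚ (spanOrbit ρ a) ≤ r
  · left
    have h1 := card_range_le_dim (resRep ρ a) r hd
    refine le_trans ?_ h1
    rw [Subgroup.index]
    refine Nat.card_le_card_of_injective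
      (fun q : Γ ⧸ stab ρ a => (⟨resRep ρ a q.out, ⟨q.out, rfl⟩⟩ : Set.range (resRep ρ a))) ?_
    intro q q' hqq
    have h2 : resRep ρ a q.out = resRep ρ a q'.out := congrArg Subtype.val hqq
    have h3 := congrArg (fun f : Module.End ℚ (spanOrbit ρ a) => ((f (base ρ a) : spanOrbit ρ a) : V)) h2
    simp only [resRep_coe] at h3
    have h4 : ρ q.out a = ρ q'.out a := h3
    have h5 : QuotientGroup.mk (s := stab ρ a) q.out = QuotientGroup.mk (s := stab ρ a) q'.out := by
      rw [QuotientGroup.eq, mem_stab, map_mul, Module.End.mul_apply, ← h4, inv_apply_apply]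
    rw [← q.out_eq, ← q'.out_eq]
    exact h5
  · right
    push Not at hd
    obtain ⟨b, hbS, hbspan, hbli⟩ := exists_linearIndependent ℚ (Set.range fun g => ρ g a)
    have hbfin : b.Finite := (Set.finite_range _).subset hbS
    have : Fintype b := hbfin.fintype
    have hcard : r < Fintype.card b := by
      have h1 := finrank_span_eq_card (R := ℚ) (b := (Subtype.val : b → V)) hbli
      rw [Subtype.range_coe_subtype, Set.ofPred_mem_eq] at h1
      rw [← h1, hbspan]
      exact hd
    let e : Fin r ↪ b := (Fin.castLEEmb hcard.le).trans (Fintype.equivFin b).symm.toEmbedding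
    have hg : ∀ i : Fin r, ∃ g : Γ, ρ g a = (e i : V) := fun i => hbS (e i).2
    choose g hg using hg
    have hli : LinearIndependent ℚ (fun i => ρ (g i) a) := by
      have h1 : LinearIndependent ℚ (fun i : Fin r => ((e i : b) : V)) := hbli.comp e e.injective
      have h2 : (fun i => ρ (g i) a) = fun i : Fin r => ((e i : b) : V) := funext hg
      rw [h2]
      exact h1
    refine lt_of_lt_of_le (HX g hli) ?_
    exact_mod_cast index_iInf_stab_le ρ a g

end Pool.Agent.H49.St
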