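import Mathlib

/-!
# Pairwise meeting planes

A family of two dimensional subspaces, any two of which meet nontrivially, has a common nonzero vector or lies in a subspace of dimension at most 3.

Proof. If all `E i` are equal: both. Otherwise take `E1 ≠ E2`; `Λ = E1 ⊓ E2` is a line (dimension 1), `U = E1 ⊔ E2` has dimension 3. If every member contains `Λ` there is a common vector.
Otherwise some `E3` does not contain `Λ`: `E3` meets `E1` and `E2` in nonzero subspaces, `x1 ∈ E3 ⊓ E1`, `x2 ∈ E3 ⊓ E2` nonzero; they are not proportional (if `x2 = c x1`, then `x1 ∈ E1 ⊓ E2 ⊓ E3`,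
so `Λ = span x1 ≤ E3`), so `E3 = span {x1, x2} ≤ U`. Let `E4` be any member. If `Λ ≤ E4` fails then `E4 ≤ U` by the same argument. If `Λ ≤ E4`: `E4` meets `E3` in a nonzero `x`, `x ∉ Λ`
(else `Λ = span x ≤ E3`), so `E4 = Λ ⊔ span x ≤ U`.
-/

set_option autoImplicit false

namespace Pool.Agent.H49.St

/-- A plane containing two independent vectors of `U` lies in `U`. -/
theorem plane_le {K V : Type*} [Field K] [AddCommGroup V] [Module K V]
    (P U : Submodule K V) (hP : Module.finrank K P = 2) (x y : V) (hx : x ∈ P) (hy : y ∈ P)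
    (hx0 : x ≠ 0) (hxy : ∀ c : K, c • x ≠ y) (hxU : x ∈ U) (hyU : y ∈ U) : P ≤ U := by
  have : FiniteDimensional K P := FiniteDimensional.of_finrank_pos (by omega)
  have hli : LinearIndependent K ![x, y] := (LinearIndependent.pair_iff' hx0).2 hxy
  have hle : Submodule.span K (Set.range ![x, y]) ≤ P := by
    rw [Submodule.span_le]
    rintro _ ⟨i, rfl⟩
    fin_cases i
    · exact hx
    · exact hy
  have hfr : Module.finrank K (Submodule.span K (Set.range ![x, y])) = 2 := by
    rw [finrank_span_eq_card hli]; simp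
  have heq : Submodule.span K (Set.range ![x, y]) = P :=
    Submodule.eq_of_le_of_finrank_eq hle (by rw [hfr, hP])
  rw [← heq, Submodule.span_le]
  rintro _ ⟨i, rfl⟩
  fin_cases i
  · exact hxU
  · exact hyU

/-- Pairwise meeting planes have a common vector or lie in a three dimensional space. -/
theorem planes {ι K V : Type*} [Nonempty ι] [Field K] [AddCommGroup V] [Module K V]
    (E : ι → Submodule K V) (hE : ∀ i, Module.finrank K (E i) = 2) (hmeet : ∀ i j, E i ⊓ E j ≠ ⊥) :
    (∃ w : V, w ≠ 0 ∧ ∀ i, w ∈ E i) ∨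
      ∃ U : Submodule K V, FiniteDimensional K U ∧ Module.finrank K U ≤ 3 ∧ ∀ i, E i ≤ U := by
  classical
  have hfd : ∀ i, FiniteDimensional K (E i) := fun i =>
    FiniteDimensional.of_finrank_pos (by rw [hE i]; omega)
  by_cases hall : ∀ i j, E i = E j
  · obtain ⟨i0⟩ := ‹Nonempty ι›
    exact Or.inr ⟨E i0, hfd i0, by rw [hE i0]; omega, fun i => le_of_eq (hall i i0)⟩
  push Not at hall
  obtain ⟨i, j, hij⟩ := hall
  -- the intersection is a line
  obtain ⟨w, hw, hw0⟩ := Submodule.exists_mem_ne_zero_of_ne_bot (hmeet i j)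
  have : FiniteDimensional K (E i ⊓ E j : Submodule K V) :=
    Submodule.finiteDimensional_of_le inf_le_left
  have hlt : Module.finrank K (E i ⊓ E j : Submodule K V) < 2 := by
    rw [← hE i]
    refine Submodule.finrank_lt_finrank_of_lt (lt_of_le_of_ne inf_le_left ?_)
    intro h
    have hle : E i ≤ E j := inf_eq_left.1 h
    exact hij (Submodule.eq_of_le_of_finrank_eq hle (by rw [hE i, hE j]))
  have hline : ∀ x ∈ (E i ⊓ E j : Submodule K V), ∃ c : K, c • w = x := by
    have hspan : Submodule.span K {w} = (E i ⊓ E j : Submodule K V) := by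
      refine Submodule.eq_of_le_of_finrank_le ?_ ?_
      · rw [Submodule.span_singleton_le_iff_mem]; exact hw
      · rw [finrank_span_singleton hw0]; omega
    intro x hx
    rw [← hspan] at hx
    exact Submodule.mem_span_singleton.1 hx
  by_cases hcommon : ∀ k, w ∈ E k
  · exact Or.inl ⟨w, hw0, hcommon⟩
  push Not at hcommon
  obtain ⟨k, hk⟩ := hcommon
  have hfrU : Module.finrank K (E i ⊔ E j : Submodule K V) ≤ 3 := by
    have h1 := Submodule.finrank_sup_add_finrank_inf_eq (E i) (E j)
    rw [hE i, hE j] at h1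
    have h2 : 0 < Module.finrank K (E i ⊓ E j : Submodule K V) := by
      rw [Module.finrank_pos_iff_exists_ne_zero]
      exact ⟨⟨w, hw⟩, fun h => hw0 (by simpa using congrArg Subtype.val h)⟩
    omega
  -- members not containing `w`
  have hA : ∀ l, w ∉ E l → E l ≤ E i ⊔ E j := by
    intro l hl
    obtain ⟨x, hx, hx0⟩ := Submodule.exists_mem_ne_zero_of_ne_bot (hmeet l i)
    obtain ⟨y, hy, hy0⟩ := Submodule.exists_mem_ne_zero_of_ne_bot (hmeet l j)
    refine plane_le (E l) _ (hE l) x y hx.1 hy.1 hx0 ?_ (Submodule.mem_sup_left hx.2)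
      (Submodule.mem_sup_right hy.2)
    intro c hc
    have hc0 : c ≠ 0 := by
      rintro rfl
      rw [zero_smul] at hc
      exact hy0 hc.symm
    have hxj : x ∈ E j := by
      have : x = c⁻¹ • y := by rw [← hc, smul_smul, inv_mul_cancel₀ hc0, one_smul]
      rw [this]
      exact (E j).smul_mem _ hy.2
    obtain ⟨d, hd⟩ := hline x ⟨hx.2, hxj⟩
    have hd0 : d ≠ 0 := by
      rintro rfl
      rw [zero_smul] at hd
      exact hx0 hd.symm
    apply hl
    have : w = d⁻¹ • x := by rw [← hd, smul_smul, inv_mul_cancel₀ hd0, one_smul]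
    rw [this]
    exact (E l).smul_mem _ hx.1
  have hwU : w ∈ (E i ⊔ E j : Submodule K V) := Submodule.mem_sup_left hw.1
  refine Or.inr ⟨E i ⊔ E j, inferInstance, hfrU, fun l => ?_⟩
  by_cases hl : w ∈ E l
  · obtain ⟨x, hx, hx0⟩ := Submodule.exists_mem_ne_zero_of_ne_bot (hmeet l k)
    refine plane_le (E l) _ (hE l) x w hx.1 hl hx0 ?_ (hA k hk hx.2) hwU
    intro c hc
    apply hk
    rw [← hc]
    exact (E k).smul_mem _ hx.2
  · exact hA l hl

end Pool.Agent.H49.St
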