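import Pool.Agent.H49.St.Gamma
import Pool.Agent.H49.St.Num

/-!
# The structure theorem, pure form
-/

set_option autoImplicit false

namespace Pool.Agent.H49.St

section transfer

variable {Γ V : Type*} [Group Γ] [Finite Γ] [AddCommGroup V] [Module ℚ V]

/-- The span of the orbit. -/
def spanOrbit (ρ : Γ →* Module.End ℚ V) (a : V) : Submodule ℚ V :=
  Submodule.span ℚ (Set.range fun g => ρ g a)

theorem spanOrbit_stable (ρ : Γ →* Module.End ℚ V) (a : V) (g : Γ) :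
    ∀ v ∈ spanOrbit ρ a, ρ g v ∈ spanOrbit ρ a := by
  intro v hv
  induction hv using Submodule.span_induction with
  | mem x hx =>
    obtain ⟨h, rfl⟩ := hx
    apply Submodule.subset_span
    refine ⟨g * h, ?_⟩
    change ρ (g * h) a = ρ g (ρ h a)
    rw [map_mul]
    rfl
  | zero => simp
  | add x y _ _ hx hy => rw [map_add]; exact Submodule.add_mem _ hx hy
  | smul c x _ hx => rw [map_smul]; exact Submodule.smul_mem _ c hx

/-- The action on the span of the orbit. -/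
def resRep (ρ : Γ →* Module.End ℚ V) (a : V) : Γ →* Module.End ℚ (spanOrbit ρ a) where
  toFun g := (ρ g).restrict (spanOrbit_stable ρ a g)
  map_one' := by
    ext x
    simp
  map_mul' g h := by
    ext x
    simp

theorem resRep_coe (ρ : Γ →* Module.End ℚ V) (a : V) (g : Γ) (v : spanOrbit ρ a) :
    ((resRep ρ a g v : spanOrbit ρ a) : V) = ρ g v := rfl

/-- The base vector. -/
def base (ρ : Γ →* Module.End ℚ V) (a : V) : spanOrbit ρ a :=
  ⟨a, Submodule.subset_span ⟨1, by simp⟩⟩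

theorem stab_res (ρ : Γ →* Module.End ℚ V) (a : V) (v : spanOrbit ρ a) :
    stab (resRep ρ a) v = stab ρ (v : V) := by
  ext g
  rw [mem_stab, mem_stab, Subtype.ext_iff, resRep_coe]

theorem lstab_res (ρ : Γ →* Module.End ℚ V) (a : V) (v : spanOrbit ρ a) :
    lstab (resRep ρ a) v = lstab ρ (v : V) := by
  ext g
  rw [mem_lstab, mem_lstab, Subtype.ext_iff, Subtype.ext_iff, resRep_coe, Submodule.coe_neg]

theorem span_res (ρ : Γ →* Module.End ℚ V) (a : V) :
    Submodule.span ℚ (Set.range fun g => resRep ρ a g (base ρ a)) = ⊤ := by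
  apply Submodule.map_injective_of_injective (spanOrbit ρ a).injective_subtype
  rw [Submodule.map_span, Submodule.map_top, Submodule.range_subtype, ← Set.range_comp]
  rfl

/-- `gamma` without the spanning hypothesis. -/
theorem gamma' (ρ : Γ →* Module.End ℚ V) (a : V) (ha : a ≠ 0)
    (hmax : IsCoatom (lstab ρ a)) (X2 X4 q0 : ℝ)
    (H2 : ∀ s, LinearIndependent ℚ ![a, ρ s a] → X2 < ((stab ρ a ⊓ stab ρ (ρ s a)).index : ℝ))
    (H4 : ∀ s t u, LinearIndependent ℚ ![a, ρ s a, ρ t a, ρ u a] →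
      X4 < ((stab ρ a ⊓ stab ρ (ρ s a) ⊓ stab ρ (ρ t a) ⊓ stab ρ (ρ u a)).index : ℝ))
    (h4 : 16 * (((2 * Nat.log 2 (lstab ρ a).index) ^ 2 : ℕ) : ℝ) * ((lstab ρ a).index : ℝ) ^ 3 ≤ X4)
    (h2 : 4 * (((2 * Nat.log 2 (lstab ρ a).index) ^ 2 : ℕ) : ℝ) * ((lstab ρ a).index : ℝ) * q0 ≤ X2)
    (hq : (3 : ℝ) ^ 9 ≤ q0) (hqb : 2 * ((lstab ρ a).index : ℝ) ≤ q0 ^ 2)
    (hb : 3 ^ 9 * 2 ^ (3 ^ 9) < (lstab ρ a).index) :
    AlmostSimple (Γ ⧸ (lstab ρ a).normalCore) := by
  have e1 : lstab (resRep ρ a) (base ρ a) = lstab ρ a := lstab_res ρ a (base ρ a)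
  have e2 : stab (resRep ρ a) (base ρ a) = stab ρ a := stab_res ρ a (base ρ a)
  have e3 : ∀ s, stab (resRep ρ a) (resRep ρ a s (base ρ a)) = stab ρ (ρ s a) :=
    fun s => stab_res ρ a _
  have hli2 : ∀ s, LinearIndependent ℚ ![base ρ a, resRep ρ a s (base ρ a)] →
      LinearIndependent ℚ ![a, ρ s a] := by
    intro s h
    have h' := h.map' (spanOrbit ρ a).subtype (Submodule.ker_subtype _)
    have e : (⇑(spanOrbit ρ a).subtype ∘ ![base ρ a, resRep ρ a s (base ρ a)]) = ![a, ρ s a] := by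
      funext i
      fin_cases i <;> rfl
    rw [e] at h'
    exact h'
  have hli4 : ∀ s t u, LinearIndependent ℚ ![base ρ a, resRep ρ a s (base ρ a), resRep ρ a t (base ρ a),
      resRep ρ a u (base ρ a)] → LinearIndependent ℚ ![a, ρ s a, ρ t a, ρ u a] := by
    intro s t u h
    have h' := h.map' (spanOrbit ρ a).subtype (Submodule.ker_subtype _)
    have e : (⇑(spanOrbit ρ a).subtype ∘ ![base ρ a, resRep ρ a s (base ρ a), resRep ρ a t (base ρ a),
        resRep ρ a u (base ρ a)]) = ![a, ρ s a, ρ t a, ρ u a] := by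
      funext i
      fin_cases i <;> rfl
    rw [e] at h'
    exact h'
  have key := gamma (resRep ρ a) (base ρ a) (fun h => ha (congrArg Subtype.val h)) (span_res ρ a)
    (by rw [e1]; exact hmax) X2 X4 q0
    (fun s h => by rw [e2, e3]; exact H2 s (hli2 s h))
    (fun s t u h => by rw [e2, e3, e3, e3]; exact H4 s t u (hli4 s t u h))
    (by rw [e1]; exact h4) (by rw [e1]; exact h2) hq (by rw [e1]; exact hqb) (by rw [e1]; exact hb)
  rw [e1] at key
  exact key

end transfer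

section pure

variable {G V : Type*} [Group G] [Finite G] [AddCommGroup V] [Module ℚ V]

/-- Intermediate subgroups. -/
theorem intermediate (ρ : G →* Module.End ℚ V) {a : V} (ha : a ≠ 0) {ε : ℝ}
    (H2 : ∀ s, LinearIndependent ℚ ![a, ρ s a] →
      ((stab ρ a).index : ℝ) ^ (2 - ε) < ((stab ρ a ⊓ stab ρ (ρ s a)).index : ℝ))
    {J : Subgroup G} (h1 : stab ρ a ≤ J) (h2 : ¬ J ≤ lstab ρ a) :
    (J.index : ℝ) < ((stab ρ a).index : ℝ) ^ ε := by
  obtain ⟨g, hgJ, hg⟩ := SetLike.not_le_iff_exists.mp h2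
  have e1 := H2 g (li_pair ρ ha hg)
  set n := (stab ρ a).index with hn
  have hcj : stab ρ (ρ g a) = cj g (stab ρ a) := by
    ext x
    rw [mem_cj, mem_stab, mem_stab, map_mul, map_mul, Module.End.mul_apply, Module.End.mul_apply]
    constructor
    · intro h
      rw [h, inv_apply_apply]
    · intro h
      have := congrArg (ρ g) h
      rwa [apply_inv_apply] at this
  have hle : stab ρ (ρ g a) ≤ J := by
    rw [hcj]
    intro x hx
    rw [mem_cj] at hx
    have h3 := h1 hx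
    have h4 : x = g * (g⁻¹ * x * g) * g⁻¹ := by group
    rw [h4]
    exact J.mul_mem (J.mul_mem hgJ h3) (J.inv_mem hgJ)
  have hidx : (stab ρ (ρ g a)).index = n := by
    rw [hcj, hn, cj]
    exact Subgroup.index_map_of_bijective (MulAut.conj g).bijective _
  have m1 : (stab ρ a).relIndex J * J.index = n := Subgroup.relIndex_mul_index h1
  have m2 : (stab ρ (ρ g a)).relIndex J * J.index = n := by
    rw [Subgroup.relIndex_mul_index hle, hidx]
  have m3 : (stab ρ a ⊓ stab ρ (ρ g a)).index ≤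
      (stab ρ a).relIndex J * (stab ρ (ρ g a)).relIndex J * J.index := by
    rw [← Subgroup.relIndex_mul_index (inf_le_left.trans h1 : stab ρ a ⊓ stab ρ (ρ g a) ≤ J)]
    exact Nat.mul_le_mul_right _ Subgroup.relIndex_inf_le
  have hJ0 : 0 < J.index := Nat.pos_of_ne_zero Subgroup.index_ne_zero_of_finite
  have m4 : (stab ρ (ρ g a)).relIndex J = (stab ρ a).relIndex J :=
    Nat.eq_of_mul_eq_mul_right hJ0 (m2.trans m1.symm)
  rw [m4] at m3
  set m := (stab ρ a).relIndex J with hm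
  have hn0 : 0 < n := Nat.pos_of_ne_zero Subgroup.index_ne_zero_of_finite
  have hnR : (0 : ℝ) < n := by exact_mod_cast hn0
  have hJR : (0 : ℝ) < J.index := by exact_mod_cast hJ0
  have m5 : (n : ℝ) ^ (2 - ε) < (m : ℝ) * m * J.index := by
    refine lt_of_lt_of_le e1 ?_
    exact_mod_cast m3
  have m6 : (m : ℝ) * J.index = n := by exact_mod_cast m1
  have m7 : (J.index : ℝ) * (n : ℝ) ^ (2 - ε) < (n : ℝ) ^ 2 := by
    have h8 : (n : ℝ) ^ 2 = J.index * ((m : ℝ) * m * J.index) := by rw [← m6]; ring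
    rw [h8]
    exact mul_lt_mul_of_pos_left m5 hJR
  have m8 : (n : ℝ) ^ 2 = (n : ℝ) ^ ε * (n : ℝ) ^ (2 - ε) := by
    rw [← Real.rpow_natCast, ← Real.rpow_add hnR]
    congr 1
    push_cast
    ring
  rw [m8] at m7
  exact lt_of_mul_lt_mul_right m7 (by positivity)

/-- THE STRUCTURE THEOREM, pure form. -/
theorem structure_pure {ε : ℝ} (hε : 0 < ε) (hε' : ε ≤ 1 / 12) : ∃ n0 : ℕ, ∀ (G : Type*) (V : Type*) [Group G] [Finite G]
    [AddCommGroup V] [Module ℚ V] (ρ : G →* Module.End ℚ V) (a : V), a ≠ 0 → n0 ≤ (stab ρ a).index →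
    (∀ s, LinearIndependent ℚ ![a, ρ s a] →
      ((stab ρ a).index : ℝ) ^ (2 - ε) < ((stab ρ a ⊓ stab ρ (ρ s a)).index : ℝ)) →
    (∀ s t u, LinearIndependent ℚ ![a, ρ s a, ρ t a, ρ u a] →
      ((stab ρ a).index : ℝ) ^ (7 / 2 : ℝ) <
        ((stab ρ a ⊓ stab ρ (ρ s a) ⊓ stab ρ (ρ t a) ⊓ stab ρ (ρ u a)).index : ℝ)) →
    (∀ J : Subgroup G, stab ρ a ≤ J → ¬ J ≤ lstab ρ a → (J.index : ℝ) < ((stab ρ a).index : ℝ) ^ ε) ∧
    ∃ G0 : Subgroup G, lstab ρ a ⋖ G0 ∧ (G0.index : ℝ) < ((stab ρ a).index : ℝ) ^ ε ∧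
      AlmostSimple (G0 ⧸ ((lstab ρ a).subgroupOf G0).normalCore) := by
  obtain ⟨n0, hn3, hnum⟩ := numerics hε hε' (3 ^ 9 * 2 ^ (3 ^ 9))
  refine ⟨n0, ?_⟩
  intro G V _ _ _ _ ρ a ha hn H2 H4
  refine ⟨fun J h1 h2 => intermediate ρ ha H2 h1 h2, ?_⟩
  set n := (stab ρ a).index with hndef
  have hstab2 : n ≤ 2 * (lstab ρ a).index := index_stab_le ρ a
  have hne : lstab ρ a ≠ ⊤ := by
    intro h
    rw [h, Subgroup.index_top] at hstab2
    omega
  obtain ⟨G0, hG0⟩ := exists_covBy_of_wellFoundedLT (a := lstab ρ a) (by rwa [isMax_iff_eq_top])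
  have hlt := hG0.lt
  have hG0i : (G0.index : ℝ) < (n : ℝ) ^ ε :=
    intermediate ρ ha H2 (stab_le_lstab.trans hlt.le) (not_le_of_gt hlt)
  refine ⟨G0, hG0, hG0i, ?_⟩
  have hG00 : 0 < G0.index := Nat.pos_of_ne_zero Subgroup.index_ne_zero_of_finite
  have hn0 : 0 < n := by omega
  have hnR : (0 : ℝ) < n := by exact_mod_cast hn0
  set ρ0 : G0 →* Module.End ℚ V := ρ.comp G0.subtype with hρ0
  have hst : ∀ v, stab ρ0 v = (stab ρ v).subgroupOf G0 := fun v => by ext g; rfl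
  have hlst : lstab ρ0 a = (lstab ρ a).subgroupOf G0 := by ext g; rfl
  have hrel : (lstab ρ0 a).index * G0.index = (lstab ρ a).index := by
    rw [hlst]
    exact Subgroup.relIndex_mul_index hlt.le
  set b := (lstab ρ0 a).index with hbdef
  have hbn : b ≤ n := by
    have h1 : (lstab ρ a).index ≤ n := by
      have := Subgroup.index_dvd_of_le (stab_le_lstab (ρ := ρ) (x := a))
      exact Nat.le_of_dvd hn0 this
    calc b ≤ b * G0.index := Nat.le_mul_of_pos_right _ hG00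
      _ = (lstab ρ a).index := hrel
      _ ≤ n := h1
  have hblow : (n : ℝ) ^ (1 - ε) ≤ 2 * b := by
    have h1 : (n : ℝ) ≤ 2 * b * G0.index := by
      rw [mul_assoc]
      have : n ≤ 2 * (b * G0.index) := by rw [hrel]; exact hstab2
      exact_mod_cast this
    have h2 : (n : ℝ) ^ (1 - ε) * (n : ℝ) ^ ε = n := by
      rw [← Real.rpow_add hnR]; simp
    have h3 : (n : ℝ) ^ (1 - ε) * (n : ℝ) ^ ε ≤ 2 * b * (n : ℝ) ^ ε := by
      rw [h2]
      refine h1.trans (mul_le_mul_of_nonneg_left hG0i.le (by positivity))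
    exact le_of_mul_le_mul_right h3 (Real.rpow_pos_of_pos hnR _)
  obtain ⟨c1, c2, c3, c4, c5⟩ := hnum n b hn hblow hbn
  have hmax : IsCoatom (lstab ρ0 a) := by
    constructor
    · intro h
      rw [hlst, Subgroup.subgroupOf_eq_top] at h
      exact absurd h (not_le_of_gt hlt)
    · intro K hK
      have h1 : lstab ρ a < K.map G0.subtype := by
        refine lt_of_le_of_ne ?_ ?_
        · intro x hx
          refine ⟨⟨x, hlt.le hx⟩, hK.le ?_, rfl⟩
          rw [hlst]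
          exact hx
        · intro h
          apply hK.not_ge
          rw [hlst, h]
          intro x hx
          exact ⟨x, hx, rfl⟩
      have h2 : K.map G0.subtype ≤ G0 := by
        rintro _ ⟨x, _, rfl⟩
        exact x.2
      have h3 := (hG0.eq_or_eq h1.le h2).resolve_left h1.ne'
      rw [eq_top_iff]
      intro x _
      have : (x : G) ∈ K.map G0.subtype := by rw [h3]; exact x.2
      obtain ⟨y, hy, hyx⟩ := this
      have : y = x := Subtype.ext hyx
      rwa [← this]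
  have hidx : ∀ A : Subgroup G, (A.index : ℝ) ≤ ((A.subgroupOf G0).index : ℝ) * G0.index := by
    intro A
    have h1 : A.index ≤ (A ⊓ G0).index :=
      Nat.le_of_dvd (Nat.pos_of_ne_zero Subgroup.index_ne_zero_of_finite) (Subgroup.index_dvd_of_le inf_le_left)
    have h2 : (A ⊓ G0).relIndex G0 * G0.index = (A ⊓ G0).index := Subgroup.relIndex_mul_index inf_le_right
    rw [Subgroup.inf_relIndex_right] at h2
    have h3 : A.index ≤ (A.subgroupOf G0).index * G0.index := by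
      rw [← h2] at h1
      exact h1
    exact_mod_cast h3
  have key := gamma' ρ0 a ha hmax ((n : ℝ) ^ (2 - 2 * ε)) ((n : ℝ) ^ (7 / 2 - ε)) ((n : ℝ) ^ (1 - 4 * ε)) ?_ ?_
    c1 c2 c3 c4 c5
  · rw [← hlst]
    exact key
  · intro s hs
    have h1 := H2 s hs
    have h2 := hidx (stab ρ a ⊓ stab ρ (ρ s a))
    have h3 : (stab ρ a ⊓ stab ρ (ρ s a)).subgroupOf G0 = stab ρ0 a ⊓ stab ρ0 (ρ0 s a) := by
      ext g; rfl
    rw [h3] at h2
    have h4 : (n : ℝ) ^ (2 - ε) = (n : ℝ) ^ (2 - 2 * ε) * (n : ℝ) ^ ε := by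
      rw [← Real.rpow_add hnR]; congr 1; ring
    have h5 : (0 : ℝ) ≤ ((stab ρ0 a ⊓ stab ρ0 (ρ0 s a)).index : ℝ) := by positivity
    have h6 : (n : ℝ) ^ (2 - 2 * ε) * (n : ℝ) ^ ε < ((stab ρ0 a ⊓ stab ρ0 (ρ0 s a)).index : ℝ) * (n : ℝ) ^ ε := by
      rw [← h4]
      exact lt_of_lt_of_le h1 (h2.trans (mul_le_mul_of_nonneg_left hG0i.le h5))
    exact lt_of_mul_lt_mul_right h6 (by positivity)
  · intro s t u hs
    have h1 := H4 s t u hs
    have h2 := hidx (stab ρ a ⊓ stab ρ (ρ s a) ⊓ stab ρ (ρ t a) ⊓ stab ρ (ρ u a))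
    have h3 : (stab ρ a ⊓ stab ρ (ρ s a) ⊓ stab ρ (ρ t a) ⊓ stab ρ (ρ u a)).subgroupOf G0 =
        stab ρ0 a ⊓ stab ρ0 (ρ0 s a) ⊓ stab ρ0 (ρ0 t a) ⊓ stab ρ0 (ρ0 u a) := by
      ext g; rfl
    rw [h3] at h2
    have h4 : (n : ℝ) ^ (7 / 2 : ℝ) = (n : ℝ) ^ (7 / 2 - ε) * (n : ℝ) ^ ε := by
      rw [← Real.rpow_add hnR]; congr 1; ring
    have h5 : (0 : ℝ) ≤ ((stab ρ0 a ⊓ stab ρ0 (ρ0 s a) ⊓ stab ρ0 (ρ0 t a) ⊓ stab ρ0 (ρ0 u a)).index : ℝ) := by
      positivity
    have h6 : (n : ℝ) ^ (7 / 2 - ε) * (n : ℝ) ^ ε <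
        ((stab ρ0 a ⊓ stab ρ0 (ρ0 s a) ⊓ stab ρ0 (ρ0 t a) ⊓ stab ρ0 (ρ0 u a)).index : ℝ) * (n : ℝ) ^ ε := by
      rw [← h4]
      exact lt_of_lt_of_le h1 (h2.trans (mul_le_mul_of_nonneg_left hG0i.le h5))
    exact lt_of_mul_lt_mul_right h6 (by positivity)

end pure

end Pool.Agent.H49.St
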