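import Pool.Agent.H49.St.Fam

/-!
# Trichotomy for primitive groups

`P` finite, `S` a maximal subgroup with trivial core (a primitive group with point stabiliser `S`). Then `P` is almost simple, or has a nontrivial
commutative normal subgroup, or there are `P1` of index `≤ (2 log_2 [P:S])^2` and perfect commuting `N1`, `N2`, normalised by `P1` and not inside `S`.

Proof. (0) A nontrivial normal subgroup `N` is not inside `S` (trivial core), so `N S = P` (maximality): every `g` is `q s`, `q ∈ N`, `s ∈ S`.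
Every nontrivial normal subgroup contains a minimal one (finite). A minimal normal subgroup `N` which is not commutative is perfect: `⁅N, N⁆` is normal in `P`, inside `N`, not trivial.
(1) Let `Q0` be minimal normal in `P`. If it is commutative we are in the second case. So `⁅Q0, Q0⁆ = Q0`.
(2) If `C = centralizer Q0 ≠ ⊥` (it is normal): let `N2 ≤ C` be minimal normal in `P`. Commutative: second case. Else third case with `P1 = ⊤`, `N1 = Q0`, `N2`
 (`1 ≤ (2 log_2 b)^2` since `b = [P:S] ≥ 2`, as `S ≠ ⊤`).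
(3) `C = ⊥`. If `Q0` is a simple group: almost simple. Otherwise there is a subgroup `T` of `P` with `T < Q0`, `T ≠ ⊥`, `Q0` normalises `T`; take `T` minimal among the nontrivial subgroups of `Q0`
 normalised by `Q0`. For `g ∈ P` the conjugate `T^g = g T g⁻¹` is again minimal with this property (`Q0` is normal in `P`). Let `I` = finset of the conjugates of `T`.
 - two different conjugates `T1`, `T2`: `T1 ⊓ T2` is normalised by `Q0`, so it is `⊥` by minimality; for `x ∈ T1`, `y ∈ T2` the commutator `x y x⁻¹ y⁻¹` lies in both (they normalise each other, both are inside `Q0`), so `x y = y x`.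
 - `I.sup id` is normal in `P`, nontrivial, inside `Q0`, so `= Q0`.
 - `T` is not commutative: otherwise all conjugates are, and they commute with each other, so `Q0` would be commutative (induction on the join). So `⁅T, T⁆ = T` by minimality (`⁅T,T⁆` is normalised by `Q0`, nontrivial, inside `T`),
   and the centre of `T` (as the subgroup `T ⊓ centralizer T`, normalised by `Q0`, different from `T`) is `⊥`. Same for all conjugates.
 - `card_le_of_commuting` gives `|I| ≤ 2 log_2 b`.
 - `T` is not normal in `P` (minimality of `Q0`), so there is a conjugate `T' = g T g⁻¹ ≠ T`. `N1 = T`, `N2 = T'`, `P1 = normalizer T ⊓ normalizer T'`; the normaliser of a conjugate of `T` has index `|I|` (orbit-stabiliser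
   for the conjugation action of `P` on subgroups; or: `P ⧸ normalizer T → I` injective). So `[P:P1] ≤ |I|^2`.
 - `T ≤ S` is impossible: every `g = s q` with `s ∈ S`, `q ∈ Q0` (take inverses in (0)), `g T g⁻¹ = s T s⁻¹ ≤ S`, so `Q0 = sup ≤ S`, contradiction to (0). The same for `T'`: if `g T g⁻¹ ≤ S` with `g = s q` then `s T s⁻¹ ≤ S`, so `T ≤ S`.
-/

set_option autoImplicit false

namespace Pool.Agent.H49.St

section Tri

variable {P : Type*} [Group P]

/-- `T` is normalised by `Q`. -/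
def tri_NB (Q T : Subgroup P) : Prop := ∀ q ∈ Q, ∀ x ∈ T, q * x * q⁻¹ ∈ T

/-- `T` is minimal among the nontrivial subgroups normalised by `Q`. -/
def tri_Min (Q T : Subgroup P) : Prop :=
  T ≠ ⊥ ∧ tri_NB Q T ∧ ∀ T' : Subgroup P, T' ≠ ⊥ → tri_NB Q T' → T' ≤ T → T' = T

/-- The conjugate subgroup. -/
def tri_cj (g : P) (T : Subgroup P) : Subgroup P := T.comap (MulAut.conj g⁻¹).toMonoidHom

theorem tri_mem_cj {g x : P} {T : Subgroup P} : x ∈ tri_cj g T ↔ g⁻¹ * x * g ∈ T := by
  simp [tri_cj]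

theorem tri_cj_mul (g h : P) (T : Subgroup P) : tri_cj (g * h) T = tri_cj g (tri_cj h T) := by
  ext x
  simp [tri_mem_cj, mul_assoc]

theorem tri_cj_one (T : Subgroup P) : tri_cj 1 T = T := by
  ext x
  simp [tri_mem_cj]

theorem tri_conj_mem_cj {g x : P} {T : Subgroup P} (h : x ∈ T) : g * x * g⁻¹ ∈ tri_cj g T := by
  rw [tri_mem_cj]
  have e : g⁻¹ * (g * x * g⁻¹) * g = x := by group
  rw [e]
  exact h

theorem tri_cj_inv_cj (g : P) (T : Subgroup P) : tri_cj g⁻¹ (tri_cj g T) = T := by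
  rw [← tri_cj_mul, inv_mul_cancel, tri_cj_one]

theorem tri_cj_cj_inv (g : P) (T : Subgroup P) : tri_cj g (tri_cj g⁻¹ T) = T := by
  rw [← tri_cj_mul, mul_inv_cancel, tri_cj_one]

theorem tri_cj_mono {g : P} {T T' : Subgroup P} (h : T ≤ T') : tri_cj g T ≤ tri_cj g T' := by
  intro x hx
  rw [tri_mem_cj] at hx ⊢
  exact h hx

theorem tri_cj_bot (g : P) : tri_cj g (⊥ : Subgroup P) = ⊥ := by
  ext x
  rw [tri_mem_cj, Subgroup.mem_bot, Subgroup.mem_bot]
  constructor
  · intro h
    have e : x = g * (g⁻¹ * x * g) * g⁻¹ := by group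
    rw [e, h]
    group
  · rintro rfl
    group

theorem tri_cj_ne_bot {g : P} {T : Subgroup P} (h : T ≠ ⊥) : tri_cj g T ≠ ⊥ := by
  intro h1
  apply h
  rw [← tri_cj_inv_cj g T, h1, tri_cj_bot]

theorem tri_cj_eq_of_NB {Q T : Subgroup P} (h : tri_NB Q T) {q : P} (hq : q ∈ Q) :
    tri_cj q T = T := by
  ext x
  rw [tri_mem_cj]
  constructor
  · intro hx
    have := h q hq _ hx
    have e : q * (q⁻¹ * x * q) * q⁻¹ = x := by group
    rwa [e] at this
  · intro hx
    have := h q⁻¹ (Q.inv_mem hq) x hx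
    rwa [inv_inv] at this

theorem tri_normal {T : Subgroup P} (h : tri_NB ⊤ T) : T.Normal :=
  ⟨fun x hx g => h g (Subgroup.mem_top g) x hx⟩

theorem tri_NB_of_normal {T : Subgroup P} (h : T.Normal) (Q : Subgroup P) : tri_NB Q T :=
  fun g _ x hx => h.conj_mem x hx g

theorem tri_exists_min [Finite P] {Q N : Subgroup P} (hne : N ≠ ⊥) (hN : tri_NB Q N) :
    ∃ T, T ≤ N ∧ tri_Min Q T := by
  have hfin : {T : Subgroup P | T ≠ ⊥ ∧ tri_NB Q T}.Finite := Set.toFinite _
  obtain ⟨T, hTN, hT⟩ := hfin.exists_le_minimal (a := N) ⟨hne, hN⟩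
  refine ⟨T, hTN, hT.1.1, hT.1.2, ?_⟩
  intro T' h1 h2 h3
  exact le_antisymm h3 (hT.2 ⟨h1, h2⟩ h3)

open scoped commutatorElement in
theorem tri_NB_comm {Q T T' : Subgroup P} (h : tri_NB Q T) (h' : tri_NB Q T') :
    tri_NB Q ⁅T, T'⁆ := by
  intro q hq
  have hle : ⁅T, T'⁆ ≤ (⁅T, T'⁆).comap (MulAut.conj q).toMonoidHom := by
    rw [Subgroup.commutator_le]
    intro a ha b hb
    rw [Subgroup.mem_comap]
    have e : (MulAut.conj q).toMonoidHom ⁅a, b⁆ = ⁅q * a * q⁻¹, q * b * q⁻¹⁆ := by
      rw [MulEquiv.toMonoidHom_eq_coe, MonoidHom.coe_coe, map_commutatorElement]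
      simp
    rw [e]
    exact Subgroup.commutator_mem_commutator (h q hq a ha) (h' q hq b hb)
  intro x hx
  have := hle hx
  simpa using this

theorem tri_comm_le (T : Subgroup P) : ⁅T, T⁆ ≤ T := by
  rw [Subgroup.commutator_le]
  intro a ha b hb
  rw [commutatorElement_def]
  exact T.mul_mem (T.mul_mem (T.mul_mem ha hb) (T.inv_mem ha)) (T.inv_mem hb)

theorem tri_perf {Q T : Subgroup P} (h : tri_Min Q T)
    (hnc : ¬ ∀ x ∈ T, ∀ y ∈ T, x * y = y * x) : ⁅T, T⁆ = T := by
  apply h.2.2 _ _ (tri_NB_comm h.2.1 h.2.1) (tri_comm_le T)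
  intro h1
  rw [Subgroup.commutator_eq_bot_iff_le_centralizer] at h1
  apply hnc
  intro x hx y hy
  exact ((Subgroup.mem_centralizer_iff.1 (h1 hx)) y hy).symm

theorem tri_centre {Q T : Subgroup P} (h : tri_Min Q T)
    (hnc : ¬ ∀ x ∈ T, ∀ y ∈ T, x * y = y * x) (x : P) (hx : x ∈ T)
    (hxy : ∀ y ∈ T, x * y = y * x) : x = 1 := by
  by_contra hx1
  have h1 : T ⊓ Subgroup.centralizer (T : Set P) = T := by
    apply h.2.2
    · intro h2
      apply hx1
      rw [← Subgroup.mem_bot, ← h2, Subgroup.mem_inf]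
      exact ⟨hx, Subgroup.mem_centralizer_iff.2 fun y hy => (hxy y hy).symm⟩
    · intro q hq z hz
      rw [Subgroup.mem_inf] at hz ⊢
      refine ⟨h.2.1 q hq z hz.1, ?_⟩
      rw [Subgroup.mem_centralizer_iff]
      intro y hy
      have h3 : q⁻¹ * y * q ∈ T := by
        have := h.2.1 q⁻¹ (Q.inv_mem hq) y hy
        rwa [inv_inv] at this
      have h4 := Subgroup.mem_centralizer_iff.1 hz.2 _ h3
      calc y * (q * z * q⁻¹) = q * ((q⁻¹ * y * q) * z) * q⁻¹ := by group
        _ = q * (z * (q⁻¹ * y * q)) * q⁻¹ := by rw [h4]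
        _ = q * z * q⁻¹ * y := by group
    · exact inf_le_left
  apply hnc
  intro a ha b hb
  have h2 : a ∈ T ⊓ Subgroup.centralizer (T : Set P) := by rw [h1]; exact ha
  exact (Subgroup.mem_centralizer_iff.1 (Subgroup.mem_inf.1 h2).2 b hb).symm

theorem tri_disj {Q T1 T2 : Subgroup P} (h1 : tri_Min Q T1) (h2 : tri_Min Q T2)
    (hne : T1 ≠ T2) : T1 ⊓ T2 = ⊥ := by
  by_contra hc
  have hNB : tri_NB Q (T1 ⊓ T2) := by
    intro q hq x hx
    rw [Subgroup.mem_inf] at hx ⊢
    exact ⟨h1.2.1 q hq x hx.1, h2.2.1 q hq x hx.2⟩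
  exact hne ((h1.2.2 _ hc hNB inf_le_left).symm.trans (h2.2.2 _ hc hNB inf_le_right))

theorem tri_comm_pair {Q T1 T2 : Subgroup P} (h1 : tri_Min Q T1) (h2 : tri_Min Q T2)
    (hT1 : T1 ≤ Q) (hT2 : T2 ≤ Q) (hne : T1 ≠ T2) :
    ∀ x ∈ T1, ∀ y ∈ T2, x * y = y * x := by
  intro x hx y hy
  have h3 : x * (y * x⁻¹ * y⁻¹) ∈ T1 := T1.mul_mem hx (h1.2.1 y (hT2 hy) _ (T1.inv_mem hx))
  have h4 : x * y * x⁻¹ * y⁻¹ ∈ T2 := T2.mul_mem (h2.2.1 x (hT1 hx) _ hy) (T2.inv_mem hy)
  have e : x * (y * x⁻¹ * y⁻¹) = x * y * x⁻¹ * y⁻¹ := by group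
  rw [e] at h3
  have h5 : x * y * x⁻¹ * y⁻¹ ∈ T1 ⊓ T2 := Subgroup.mem_inf.2 ⟨h3, h4⟩
  rw [tri_disj h1 h2 hne, Subgroup.mem_bot] at h5
  calc x * y = (x * y * x⁻¹ * y⁻¹) * (y * x) := by group
    _ = y * x := by rw [h5, one_mul]

theorem tri_cj_min {Q T : Subgroup P} (hQ : tri_NB ⊤ Q) (h : tri_Min Q T) (g : P) :
    tri_Min Q (tri_cj g T) := by
  have key : ∀ (g : P) (T : Subgroup P), tri_NB Q T → tri_NB Q (tri_cj g T) := by
    intro g T hT q hq x hx
    rw [tri_mem_cj] at hx ⊢
    have h1 : g⁻¹ * q * g ∈ Q := by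
      have := hQ g⁻¹ (Subgroup.mem_top _) q hq
      rwa [inv_inv] at this
    have h2 := hT _ h1 _ hx
    have e : g⁻¹ * q * g * (g⁻¹ * x * g) * (g⁻¹ * q * g)⁻¹ = g⁻¹ * (q * x * q⁻¹) * g := by group
    rwa [e] at h2
  refine ⟨tri_cj_ne_bot h.1, key g T h.2.1, ?_⟩
  intro T' h1 h2 h3
  have h4 : tri_cj g⁻¹ T' = T := by
    apply h.2.2 _ (tri_cj_ne_bot h1) (key _ _ h2)
    rw [← tri_cj_inv_cj g T]
    exact tri_cj_mono h3
  rw [← h4, tri_cj_cj_inv]

theorem tri_not_le {S N : Subgroup P} (hcore : S.normalCore = ⊥) (hN : N.Normal)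
    (hne : N ≠ ⊥) : ¬ N ≤ S := by
  intro h
  apply hne
  have := Subgroup.normal_le_normalCore.2 h
  rwa [hcore, le_bot_iff] at this

theorem tri_fac {S N : Subgroup P} (hS : IsCoatom S) (hN : N.Normal) (hnle : ¬ N ≤ S) (g : P) :
    ∃ q ∈ N, ∃ s ∈ S, g = q * s := by
  have h1 : N ⊔ S = ⊤ := by
    apply hS.2
    rw [lt_iff_le_not_ge]
    exact ⟨le_sup_right, fun h => hnle (le_sup_left.trans h)⟩
  have h2 : g ∈ N ⊔ S := by rw [h1]; exact Subgroup.mem_top g
  obtain ⟨y, hy, z, hz, h⟩ := Subgroup.mem_sup_of_normal_left.1 h2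
  exact ⟨y, hy, z, hz, h.symm⟩

/-- The conjugation action on subgroups. -/
@[instance_reducible] def tri_act : MulAction P (Subgroup P) where
  smul g T := tri_cj g T
  one_smul T := tri_cj_one T
  mul_smul g h T := tri_cj_mul g h T

/-- The stabiliser of a subgroup under conjugation. -/
def tri_stab (T : Subgroup P) : Subgroup P := @MulAction.stabilizer P (Subgroup P) _ tri_act T

theorem tri_mem_stab {T : Subgroup P} {g : P} : g ∈ tri_stab T ↔ tri_cj g T = T := Iff.rfl

theorem tri_stab_conj {T : Subgroup P} {g : P} (hg : g ∈ tri_stab T) {x : P} (hx : x ∈ T) :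
    g * x * g⁻¹ ∈ T := by
  have := tri_conj_mem_cj (g := g) hx
  rwa [tri_mem_stab.1 hg] at this

theorem tri_index_stab (T : Subgroup P) :
    (tri_stab T).index = (Set.range fun g : P => tri_cj g T).ncard :=
  @MulAction.index_stabilizer P (Subgroup P) _ tri_act T

end Tri

/-- Trichotomy for a finite primitive group `P` with point stabiliser `S`. -/
theorem trichotomy {P : Type*} [Group P] [Finite P] {S : Subgroup P} (hS : IsCoatom S) (hcore : S.normalCore = ⊥) :
    AlmostSimple P ∨ (∃ A : Subgroup P, A.Normal ∧ A ≠ ⊥ ∧ ∀ x ∈ A, ∀ y ∈ A, x * y = y * x) ∨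
    ∃ P1 N1 N2 : Subgroup P, P1.index ≤ (2 * Nat.log 2 S.index) ^ 2 ∧
      (∀ g ∈ P1, ∀ x ∈ N1, g * x * g⁻¹ ∈ N1) ∧ (∀ g ∈ P1, ∀ x ∈ N2, g * x * g⁻¹ ∈ N2) ∧
      (∀ x ∈ N1, ∀ y ∈ N2, x * y = y * x) ∧ ⁅N1, N1⁆ = N1 ∧ ⁅N2, N2⁆ = N2 ∧ ¬ N1 ≤ S ∧ ¬ N2 ≤ S := by
  classical
  -- `P` is nontrivial
  have hST : S ≠ ⊤ := hS.1
  have htop : (⊤ : Subgroup P) ≠ ⊥ := by
    intro h
    apply hST
    rw [eq_top_iff, h]
    exact bot_le
  have hb2 : 2 ≤ S.index := by
    have h0 : S.index ≠ 0 := Subgroup.index_ne_zero_of_finite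
    have h1 : S.index ≠ 1 := fun h => hST (Subgroup.index_eq_one.1 h)
    omega
  obtain ⟨Q0, -, hQ⟩ := tri_exists_min (Q := ⊤) htop (tri_NB_of_normal inferInstance _)
  have hQn : Q0.Normal := tri_normal hQ.2.1
  by_cases hQc : ∀ x ∈ Q0, ∀ y ∈ Q0, x * y = y * x
  · exact Or.inr (Or.inl ⟨Q0, hQn, hQ.1, hQc⟩)
  by_cases hC : Subgroup.centralizer (Q0 : Set P) = ⊥
  swap
  · -- a second minimal normal subgroup
    obtain ⟨N2, hN2C, hN2⟩ := tri_exists_min (Q := ⊤) hC
      (tri_NB_of_normal Subgroup.normal_centralizer _)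
    have hN2n : N2.Normal := tri_normal hN2.2.1
    by_cases hN2c : ∀ x ∈ N2, ∀ y ∈ N2, x * y = y * x
    · exact Or.inr (Or.inl ⟨N2, hN2n, hN2.1, hN2c⟩)
    · refine Or.inr (Or.inr ⟨⊤, Q0, N2, ?_, hQ.2.1, hN2.2.1, ?_, tri_perf hQ hQc,
        tri_perf hN2 hN2c, tri_not_le hcore hQn hQ.1, tri_not_le hcore hN2n hN2.1⟩)
      · rw [Subgroup.index_top]
        have h1 : 1 ≤ Nat.log 2 S.index := Nat.log_pos (by norm_num) hb2
        exact Nat.one_le_pow _ _ (by omega)
      · intro x hx y hy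
        exact Subgroup.mem_centralizer_iff.1 (hN2C hy) x hx
  · by_cases hsimple : IsSimpleGroup Q0
    · left
      refine ⟨Q0, hQn, hsimple, ?_, hC⟩
      by_contra hcon
      apply hQc
      intro x hx y hy
      by_contra hxy
      exact hcon ⟨x, hx, y, hy, hxy⟩
    · right; right
      -- a proper nontrivial normal subgroup of `Q0`
      have hnt : Nontrivial Q0 := (Subgroup.nontrivial_iff_ne_bot Q0).2 hQ.1
      obtain ⟨H, hH, hHb, hHt⟩ : ∃ H : Subgroup Q0, H.Normal ∧ H ≠ ⊥ ∧ H ≠ ⊤ := by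
        by_contra hcon
        apply hsimple
        refine ⟨fun H hH => ?_⟩
        by_contra hc
        rw [not_or] at hc
        exact hcon ⟨H, hH, hc.1, hc.2⟩
      have hT0b : H.map Q0.subtype ≠ ⊥ := by
        intro h
        apply hHb
        rw [← Subgroup.map_bot Q0.subtype] at h
        exact Subgroup.map_injective Q0.subtype_injective h
      have hT0n : tri_NB Q0 (H.map Q0.subtype) := by
        intro q hq x hx
        obtain ⟨y, hy, rfl⟩ := Subgroup.mem_map.1 hx
        refine Subgroup.mem_map.2 ⟨⟨q, hq⟩ * y * ⟨q, hq⟩⁻¹, hH.conj_mem y hy _, rfl⟩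
      obtain ⟨T, hTT0, hT⟩ := tri_exists_min hT0b hT0n
      have hTQ : T ≤ Q0 := hTT0.trans (Subgroup.map_subtype_le H)
      have hTne : T ≠ Q0 := by
        intro h
        apply hHt
        rw [eq_top_iff]
        intro y _
        have h1 : (y : P) ∈ H.map Q0.subtype := hTT0 (h ▸ y.2)
        obtain ⟨z, hz, hzy⟩ := Subgroup.mem_map.1 h1
        have : z = y := Subtype.ext hzy
        rwa [← this]
      have hcjQ : ∀ g : P, tri_cj g T ≤ Q0 := by
        intro g
        have h1 := tri_cj_mono (g := g) hTQ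
        rwa [tri_cj_eq_of_NB hQ.2.1 (Subgroup.mem_top g)] at h1
      have hcjmin : ∀ g : P, tri_Min Q0 (tri_cj g T) := fun g => tri_cj_min hQ.2.1 hT g
      -- the set of the conjugates
      have hfinR : (Set.range fun g : P => tri_cj g T).Finite := Set.toFinite _
      obtain ⟨I, hI⟩ : ∃ I : Finset (Subgroup P), I = hfinR.toFinset := ⟨_, rfl⟩
      have hmI : ∀ T' : Subgroup P, T' ∈ I ↔ ∃ g : P, tri_cj g T = T' := by
        intro T'
        rw [hI, Set.Finite.mem_toFinset, Set.mem_range]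
      have hcard : (Set.range fun g : P => tri_cj g T).ncard = I.card := by
        rw [hI, Set.ncard_eq_toFinset_card _ hfinR]
      have hle : ∀ g : P, tri_cj g T ≤ I.sup id := by
        intro g
        exact Finset.le_sup (f := id) ((hmI _).2 ⟨g, rfl⟩)
      have hsupQ : I.sup id ≤ Q0 := by
        apply Finset.sup_le
        intro T' hT'
        obtain ⟨g, rfl⟩ := (hmI T').1 hT'
        exact hcjQ g
      have hsupNB : tri_NB ⊤ (I.sup id) := by
        intro g _ x hx
        have h1 : I.sup id ≤ tri_cj g⁻¹ (I.sup id) := by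
          apply Finset.sup_le
          intro T' hT'
          obtain ⟨h, rfl⟩ := (hmI T').1 hT'
          intro y hy
          rw [id] at hy
          rw [tri_mem_cj, inv_inv]
          have h2 := tri_conj_mem_cj (g := g) hy
          rw [← tri_cj_mul] at h2
          exact hle _ h2
        have h2 := h1 hx
        rwa [tri_mem_cj, inv_inv] at h2
      have hT1 : T ≤ I.sup id := by
        have := hle 1
        rwa [tri_cj_one] at this
      have hsup : I.sup id = Q0 := by
        apply hQ.2.2 _ _ hsupNB hsupQ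
        intro h
        rw [h, le_bot_iff] at hT1
        exact hT.1 hT1
      have hpair : ∀ T1 ∈ I, ∀ T2 ∈ I, T1 ≠ T2 → ∀ x ∈ T1, ∀ y ∈ T2, x * y = y * x := by
        intro T1 h1 T2 h2 hne
        obtain ⟨g1, rfl⟩ := (hmI T1).1 h1
        obtain ⟨g2, rfl⟩ := (hmI T2).1 h2
        exact tri_comm_pair (hcjmin g1) (hcjmin g2) (hcjQ g1) (hcjQ g2) hne
      -- `T` is not commutative
      have hTc : ¬ ∀ x ∈ T, ∀ y ∈ T, x * y = y * x := by
        intro hTc
        apply hQc
        have hcc : ∀ T1 ∈ I, ∀ x ∈ T1, ∀ y ∈ T1, x * y = y * x := by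
          intro T1 h1 x hx y hy
          obtain ⟨g, rfl⟩ := (hmI T1).1 h1
          rw [tri_mem_cj] at hx hy
          have h2 := hTc _ hx _ hy
          calc x * y = g * ((g⁻¹ * x * g) * (g⁻¹ * y * g)) * g⁻¹ := by group
            _ = g * ((g⁻¹ * y * g) * (g⁻¹ * x * g)) * g⁻¹ := by rw [h2]
            _ = y * x := by group
        have h1 : I.sup id ≤ Subgroup.centralizer ((I.sup id : Subgroup P) : Set P) := by
          apply Finset.sup_le
          intro T1 hT1'
          rw [id, Subgroup.le_centralizer_iff]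
          apply Finset.sup_le
          intro T2 hT2' x hx
          rw [Subgroup.mem_centralizer_iff]
          intro y hy
          by_cases he : T1 = T2
          · subst he
            exact hcc _ hT1' y hy x hx
          · exact hpair _ hT1' _ hT2' he y hy x hx
        rw [hsup] at h1
        intro x hx y hy
        exact (Subgroup.mem_centralizer_iff.1 (h1 hx) y hy).symm
      have hcjnc : ∀ g : P, ¬ ∀ x ∈ tri_cj g T, ∀ y ∈ tri_cj g T, x * y = y * x := by
        intro g h
        apply hTc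
        intro x hx y hy
        have h1 := h _ (tri_conj_mem_cj (g := g) hx) _ (tri_conj_mem_cj (g := g) hy)
        calc x * y = g⁻¹ * ((g * x * g⁻¹) * (g * y * g⁻¹)) * g := by group
          _ = g⁻¹ * ((g * y * g⁻¹) * (g * x * g⁻¹)) * g := by rw [h1]
          _ = y * x := by group
      have hQS : ¬ Q0 ≤ S := tri_not_le hcore hQn hQ.1
      have hIcard : I.card ≤ 2 * Nat.log 2 S.index := by
        apply card_le_of_commuting hcore I
        · intro T1 h1
          obtain ⟨g, rfl⟩ := (hmI T1).1 h1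
          exact tri_cj_ne_bot hT.1
        · exact hpair
        · intro T1 h1 x hx hxy
          obtain ⟨g, rfl⟩ := (hmI T1).1 h1
          exact tri_centre (hcjmin g) (hcjnc g) x hx hxy
        · intro g
          rw [hsup]
          exact tri_fac hS hQn hQS g
      -- the stabilisers
      have hstab : ∀ g : P, (tri_stab (tri_cj g T)).index = I.card := by
        intro g
        rw [tri_index_stab, ← hcard]
        congr 1
        ext T'
        constructor
        · rintro ⟨h, rfl⟩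
          exact ⟨h * g, tri_cj_mul h g T⟩
        · rintro ⟨h, rfl⟩
          refine ⟨h * g⁻¹, ?_⟩
          change tri_cj (h * g⁻¹) (tri_cj g T) = tri_cj h T
          rw [← tri_cj_mul, inv_mul_cancel_right]
      have hstab1 : (tri_stab T).index = I.card := by
        have := hstab 1
        rwa [tri_cj_one] at this
      obtain ⟨g, hg⟩ : ∃ g : P, tri_cj g T ≠ T := by
        by_contra hcon
        have hcon' : ∀ g : P, tri_cj g T = T := fun g => by
          by_contra h
          exact hcon ⟨g, h⟩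
        apply hTne
        apply hQ.2.2 T hT.1 _ hTQ
        intro g _ x hx
        have := tri_conj_mem_cj (g := g) hx
        rwa [hcon' g] at this
      -- `T` and its conjugates are not inside `S`
      have hfac : ∀ g : P, ∃ s ∈ S, ∃ q ∈ Q0, g = s * q := by
        intro g
        obtain ⟨q, hq, s, hs, h⟩ := tri_fac hS hQn hQS g⁻¹
        refine ⟨s⁻¹, S.inv_mem hs, q⁻¹, Q0.inv_mem hq, ?_⟩
        rw [← inv_inv g, h]
        group
      have hcjs : ∀ g : P, ∃ s ∈ S, tri_cj g T = tri_cj s T := by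
        intro g
        obtain ⟨s, hs, q, hq, rfl⟩ := hfac g
        exact ⟨s, hs, by rw [tri_cj_mul, tri_cj_eq_of_NB hT.2.1 hq]⟩
      have hTS : ¬ T ≤ S := by
        intro h
        apply hQS
        rw [← hsup]
        apply Finset.sup_le
        intro T1 h1
        obtain ⟨g, rfl⟩ := (hmI T1).1 h1
        obtain ⟨s, hs, e⟩ := hcjs g
        rw [id, e]
        intro x hx
        rw [tri_mem_cj] at hx
        have h2 := S.mul_mem (S.mul_mem hs (h hx)) (S.inv_mem hs)
        have e2 : s * (s⁻¹ * x * s) * s⁻¹ = x := by group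
        rwa [e2] at h2
      have hT'S : ¬ tri_cj g T ≤ S := by
        intro h
        apply hTS
        obtain ⟨s, hs, e⟩ := hcjs g
        rw [e] at h
        intro x hx
        have h1 := h (tri_conj_mem_cj (g := s) hx)
        have h2 := S.mul_mem (S.mul_mem (S.inv_mem hs) h1) hs
        have e2 : s⁻¹ * (s * x * s⁻¹) * s = x := by group
        rwa [e2] at h2
      refine ⟨tri_stab T ⊓ tri_stab (tri_cj g T), T, tri_cj g T, ?_, ?_, ?_, ?_,
        tri_perf hT hTc, tri_perf (hcjmin g) (hcjnc g), hTS, hT'S⟩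
      · calc (tri_stab T ⊓ tri_stab (tri_cj g T)).index
            ≤ (tri_stab T).index * (tri_stab (tri_cj g T)).index := Subgroup.index_inf_le
          _ = I.card * I.card := by rw [hstab1, hstab]
          _ ≤ (2 * Nat.log 2 S.index) * (2 * Nat.log 2 S.index) := Nat.mul_le_mul hIcard hIcard
          _ = (2 * Nat.log 2 S.index) ^ 2 := (sq _).symm
      · intro a ha x hx
        exact tri_stab_conj (Subgroup.mem_inf.1 ha).1 hx
      · intro a ha x hx
        exact tri_stab_conj (Subgroup.mem_inf.1 ha).2 hx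
      · exact tri_comm_pair hT (hcjmin g) hTQ (hcjQ g) (Ne.symm hg)

end Pool.Agent.H49.St
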